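import Pool.Agent.Q201.RC.Chk

/-!
# Project RC: assembly of the part modulo 8
-/

set_option autoImplicit false

namespace Q201.RC

open PowerSeries Q279.QS
open scoped PowerSeries.WithPiTopology

section aux

variable {R : Type} [CommRing R]

theorem ev_eq_evs (l : List ℕ) (x : R) : ev l x = evs l x := by
  induction l with
  | nil => rfl
  | cons a l ih => rw [ev_cons, evs_cons, ih]

theorem map_ev {S : Type} [CommRing S] (φ : R →+* S) (l : List ℕ) (x : R) :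
    φ (ev l x) = ev l (φ x) := by
  induction l with
  | nil => simp
  | cons a l ih => simp [ih]

/-- derivative of a list -/
def dL (n : ℕ) : List ℕ → List ℕ
  | [] => []
  | _ :: l => addL n l (0 :: dL n l)

theorem red_eq_iff {n : ℕ} {F G : ℤ⟦X⟧} (h : red n F = red n G) : ∃ r : ℤ⟦X⟧, F = G + n * r := by
  have : ∀ k, (n : ℤ) ∣ coeff k F - coeff k G := by
    intro k
    rw [← map_sub, ← coeff_red_eq_zero, map_sub, h, sub_self, map_zero]
  choose r hr using this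
  refine ⟨mk r, ?_⟩
  ext k
  have : (n : ℤ⟦X⟧) = C (n : ℤ) := by simp
  rw [map_add, this, coeff_C_mul, coeff_mk, ← hr]
  ring

theorem red_natCast (n k : ℕ) : red n ((k : ℕ) : ℤ⟦X⟧) = (k : (ZMod n)⟦X⟧) := by
  simp

theorem cast_n_zero (n : ℕ) : ((n : ℕ) : (ZMod n)⟦X⟧) = 0 := by
  have : ((n : ℕ) : (ZMod n)⟦X⟧) = C ((n : ℕ) : ZMod n) := (map_natCast C n).symm
  rw [this, ZMod.natCast_self, map_zero]

theorem red_add_mul (n : ℕ) (F r : ℤ⟦X⟧) : red n (F + n * r) = red n F := by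
  rw [map_add, map_mul, red_natCast, cast_n_zero, zero_mul, add_zero]

theorem isUnit_of_constCoeff {F : R⟦X⟧} (h : constantCoeff F = 1) : IsUnit F := by
  rw [PowerSeries.isUnit_iff_constantCoeff, h]
  exact isUnit_one

theorem constCoeff_ev {x : R⟦X⟧} (hx : constantCoeff x = 0) (l : List ℕ) :
    constantCoeff (ev l x) = ((l.headD 0 : ℕ) : R) := by
  cases l with
  | nil => simp
  | cons a l => simp [hx]

theorem isUnit_ev {x : R⟦X⟧} (hx : constantCoeff x = 0) {l : List ℕ} (h : l.headD 0 = 1) :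
    IsUnit (ev l x) := by
  apply isUnit_of_constCoeff
  rw [constCoeff_ev hx, h]
  simp

theorem constCoeff_e2 {x : R⟦X⟧} (hx : constantCoeff x = 0) : constantCoeff (e2 x) = 0 := by
  rw [← coeff_zero_eq_constantCoeff_apply] at hx ⊢
  rw [coeff_expand]
  simpa using hx

end aux

/-- what is used about `x = xq` -/
structure XFacts : Prop where
  tht : S_THT
  step2 : S_STEP2
  fend : S_END
  y8 : red 8 (U 2 xq) * (1 + red 8 xq ^ 5) ^ 4 = ev Yl (red 8 xq)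
  y16 : red 16 (U 2 xq) * (1 + red 16 xq ^ 5) ^ 4 = ev Yh (red 16 xq)
  kap : red 16 (X * V xq ^ 2) * (1 + red 16 xq ^ 5) ^ 5 = ev Kl (red 16 xq)
  rel8 : ev De8 (e2 (red 8 xq)) * red 8 xq ^ 2
    = ev c18 (e2 (red 8 xq)) * red 8 xq + ev c08 (e2 (red 8 xq))
  rel16 : ev Deh (e2 (red 16 xq)) * red 16 xq ^ 2
    = ev c1h (e2 (red 16 xq)) * red 16 xq + ev c0h (e2 (red 16 xq))
  v2 : red 2 (V xq) = red 2 (e5 T2) ^ 4 * (1 + red 2 xq ^ 5)
  th2 : Q201.RC.tht (red 2 xq) * (1 + red 2 xq ^ 5) ^ 2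
    = red 2 xq * (1 + red 2 xq ^ 5 + red 2 xq ^ 10)

theorem const_xq : constantCoeff xq = 0 := by
  simp [xq]

theorem const_red (n : ℕ) {F : ℤ⟦X⟧} (h : constantCoeff F = 0) : constantCoeff (red n F) = 0 := by
  rw [← coeff_zero_eq_constantCoeff_apply] at h ⊢
  rw [coeff_map, h]
  simp

theorem const_xr (n : ℕ) : constantCoeff (red n xq) = 0 := const_red n const_xq

/-- the list of `(1+x^5)^k` -/
theorem ev_pow_D {R : Type} [CommRing R] {n k : ℕ} (hn : (n : R) = 0) {l : List ℕ}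
    (h : eqL n l (powL n [1, 0, 0, 0, 0, 1] k) = true) (x : R) : ev l x = (1 + x ^ 5) ^ k := by
  rw [ev_eqL hn h, ev_powL hn]
  congr 1
  simp
  ring

/-- one round of the computation -/
theorem round (F : XFacts) {n : ℕ} {De c1 c0 Y : List ℕ} (w j : ℕ) {g : (ZMod n)⟦X⟧}
    {A B al be Dl A' D4 : List ℕ}
    (hrel : ev De (e2 (red n xq)) * red n xq ^ 2
      = ev c1 (e2 (red n xq)) * red n xq + ev c0 (e2 (red n xq)))
    (hDe : De.headD 0 = 1) (hB : B.headD 0 = 1)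
    (hg : g * ev B (red n xq) = ev A (red n xq))
    (hc : chkN n w j De c1 c0 A B al be Dl = true)
    (hY : red n (U 2 xq) * (1 + red n xq ^ 5) ^ 4 = ev Y (red n xq))
    (hD4 : eqL n D4 (powL n [1, 0, 0, 0, 0, 1] 4) = true)
    {E : List ℕ}
    (hfin : eqL n (addL n (mulL n al Y) (mulL n be D4)) (mulL n A' E) = true) :
    U 2 g * ev Dl (red n xq) * (1 + red n xq ^ 5) ^ 4 = ev A' (red n xq) * ev E (red n xq) ∧
    V g * ev Dl (red n xq) = ev al (red n xq) * red n (V xq) := by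
  have hn := cast_n_zero n
  have hz : constantCoeff (e2 (red n xq)) = 0 := constCoeff_e2 (const_xr n)
  have hid : ev A (red n xq) * ev Dl (e2 (red n xq))
      = (ev al (e2 (red n xq)) * red n xq + ev be (e2 (red n xq))) * ev B (red n xq) := by
    simp only [ev_eq_evs] at hrel ⊢
    refine chkN_spec hn (red n xq) (e2 (red n xq)) hrel ?_ hc
    rw [← ev_eq_evs]
    exact isUnit_ev hz hDe
  obtain ⟨h1, h2⟩ := F.step2 F.tht n g (red n xq) A B al be Dl (const_xr n) hB hg hid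
  rw [(F.tht.2.2.2.2.1 n 2 xq).1] at h1
  rw [(F.tht.2.2.2.2.1 n 2 xq).2.1] at h2
  refine ⟨?_, h2⟩
  rw [h1, add_mul, mul_assoc, hY, ← ev_mulL hn, ← ev_mulL hn, ← ev_pow_D hn hD4 (red n xq),
    ← ev_mulL hn, ← ev_addL hn]
  exact ev_eqL hn hfin _

theorem one_add_pow_unit {R : Type} [CommRing R] {x : R⟦X⟧} (hx : constantCoeff x = 0) (k : ℕ) :
    IsUnit ((1 + x ^ 5) ^ k) := by
  apply isUnit_of_constCoeff
  simp [hx]

theorem ev_D48 (x : (ZMod 8)⟦X⟧) : ev D48 x = (1 + x ^ 5) ^ 4 :=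
  ev_pow_D (cast_n_zero 8) (by decide +kernel) x

theorem ev_D3h (x : (ZMod 16)⟦X⟧) : ev D3h x = (1 + x ^ 5) ^ 3 :=
  ev_pow_D (cast_n_zero 16) (by decide +kernel) x

theorem ev_D5h (x : (ZMod 16)⟦X⟧) : ev D5h x = (1 + x ^ 5) ^ 5 :=
  ev_pow_D (cast_n_zero 16) (by decide +kernel) x

theorem ev_D7h (x : (ZMod 16)⟦X⟧) : ev D7h x = (1 + x ^ 5) ^ 7 :=
  ev_pow_D (cast_n_zero 16) (by decide +kernel) x

theorem ev_D8h (x : (ZMod 16)⟦X⟧) : ev D8h x = (1 + x ^ 5) ^ 8 :=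
  ev_pow_D (cast_n_zero 16) (by decide +kernel) x

/-- the data of one of the two computations -/
structure Dat where
  A0 : List ℕ
  B0 : List ℕ
  al0 : List ℕ
  be0 : List ℕ
  dl0 : List ℕ
  a2 : List ℕ
  al1 : List ℕ
  be1 : List ℕ
  a4 : List ℕ
  al2 : List ℕ
  be2 : List ℕ
  g4 : List ℕ
  al4 : List ℕ
  be4 : List ℕ
  lam : List ℕ
  hB0 : B0.headD 0 = 1
  hdl0 : dl0.headD 0 = 1
  chk0 : chkN 8 256 8 De8 c18 c08 A0 B0 al0 be0 dl0 = true
  chk1 : chkN 8 256 9 De8 c18 c08 a2 D48 al1 be1 D48 = true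
  chk2 : chkN 8 256 9 De8 c18 c08 a4 D48 al2 be2 D48 = true
  chk4 : chkN 16 512 11 Deh c1h c0h g4 D8h al4 be4 D7h = true
  fin0 : eqL 8 (addL 8 (mulL 8 al0 Yl) (mulL 8 be0 D48)) (mulL 8 a2 dl0) = true
  fin1 : eqL 8 (addL 8 (mulL 8 al1 Yl) (mulL 8 be1 D48)) (mulL 8 a4 D48) = true
  g4eq : eqL 16 (mulL 16 Kl (mulL 16 al2 al2)) (mulL 16 g4 D5h) = true
  fin4 : eqL 16 (addL 16 (mulL 16 al4 Yh) (mulL 16 be4 D4h))
    (mulL 16 (smulL 16 8 lam) D3h) = true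
  /-- `x (1+x^5+x^10) lam' = lam (1+x^5)^2` modulo 2 -/
  der : eqL 2 (mulL 2 (mulL 2 [0, 1] [1, 0, 0, 0, 0, 1, 0, 0, 0, 0, 1]) (dL 2 lam))
    (mulL 2 lam [1, 0, 0, 0, 0, 0, 0, 0, 0, 0, 1]) = true

def datC : Dat where
  A0 := N8
  B0 := M0
  al0 := al0C
  be0 := be0C
  dl0 := dl0C
  a2 := a2C
  al1 := al1C
  be1 := be1C
  a4 := a4C
  al2 := al2C
  be2 := be2C
  g4 := g4C
  al4 := al4C
  be4 := be4C
  lam := lamC
  hB0 := rfl
  hdl0 := rfl
  chk0 := chk0C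
  chk1 := chk1C
  chk2 := chk2C
  chk4 := chk4C
  fin0 := fin0C
  fin1 := fin1C
  g4eq := g4eqC
  fin4 := fin4C
  der := by decide +kernel

def datD : Dat where
  A0 := M0
  B0 := N8
  al0 := al0D
  be0 := be0D
  dl0 := dl0D
  a2 := a2D
  al1 := al1D
  be1 := be1D
  a4 := a4D
  al2 := al2D
  be2 := be2D
  g4 := g4D
  al4 := al4D
  be4 := be4D
  lam := lamD
  hB0 := rfl
  hdl0 := rfl
  chk0 := chk0D
  chk1 := chk1D
  chk2 := chk2D
  chk4 := chk4D
  fin0 := fin0D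
  fin1 := fin1D
  g4eq := g4eqD
  fin4 := fin4D
  der := by decide +kernel

/-- the lift of `G = V (U 2 (U 2 F))` -/
theorem stageJ (K : XFacts) (d : Dat) (F : ℤ⟦X⟧)
    (hF : red 8 F * ev d.B0 (red 8 xq) = ev d.A0 (red 8 xq)) :
    ∃ r : ℤ⟦X⟧, V (U 2 (U 2 F)) * (1 + xq ^ 5) ^ 4 = ev d.al2 xq * V xq + 8 * r := by
  have hx := const_xr 8
  obtain ⟨h0, -⟩ := round K 256 8 K.rel8 rfl d.hB0 hF d.chk0 K.y8
    (D4 := D48) (by decide +kernel) d.fin0
  have h0' : U 2 (red 8 F) * ev D48 (red 8 xq) = ev d.a2 (red 8 xq) := by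
    rw [ev_D48]
    refine (isUnit_ev hx d.hdl0).mul_right_cancel ?_
    rw [← h0]
    ring
  obtain ⟨h1, -⟩ := round K 256 9 K.rel8 rfl rfl h0' d.chk1 K.y8
    (D4 := D48) (by decide +kernel) d.fin1
  have h1' : U 2 (U 2 (red 8 F)) * ev D48 (red 8 xq) = ev d.a4 (red 8 xq) := by
    have hu : IsUnit (ev D48 (red 8 xq)) := by
      rw [ev_D48]
      exact one_add_pow_unit hx 4
    refine hu.mul_right_cancel ?_
    rw [← h1, ev_D48]
  have hn := cast_n_zero 8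
  have hz : constantCoeff (e2 (red 8 xq)) = 0 := constCoeff_e2 hx
  have hid : ev d.a4 (red 8 xq) * ev D48 (e2 (red 8 xq))
      = (ev d.al2 (e2 (red 8 xq)) * red 8 xq + ev d.be2 (e2 (red 8 xq))) * ev D48 (red 8 xq) := by
    have hrel := K.rel8
    simp only [ev_eq_evs] at hrel ⊢
    refine chkN_spec hn (red 8 xq) (e2 (red 8 xq)) hrel ?_ d.chk2
    rw [← ev_eq_evs]
    exact isUnit_ev hz rfl
  obtain ⟨-, h2⟩ := K.step2 K.tht 8 _ (red 8 xq) d.a4 D48 d.al2 d.be2 D48 hx rfl h1' hid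
  rw [(K.tht.2.2.2.2.1 8 2 F).1, (K.tht.2.2.2.2.1 8 2 (U 2 F)).1,
    (K.tht.2.2.2.2.1 8 2 (U 2 (U 2 F))).2.1, (K.tht.2.2.2.2.1 8 2 xq).2.1, ev_D48] at h2
  obtain ⟨r, hr⟩ := red_eq_iff (n := 8) (F := V (U 2 (U 2 F)) * (1 + xq ^ 5) ^ 4)
    (G := ev d.al2 xq * V xq) (by
      simp only [map_mul, map_pow, map_add, map_one, map_ev] at h2 ⊢
      exact h2)
  exact ⟨r, by rw [hr]; norm_num⟩

/-- the equation for `U 2 (X J^2)` modulo 16 -/
theorem stageK (K : XFacts) (d : Dat) (J r : ℤ⟦X⟧)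
    (hJ : J * (1 + xq ^ 5) ^ 4 = ev d.al2 xq * V xq + 8 * r) :
    U 2 (red 16 (X * J ^ 2)) * (1 + red 16 xq ^ 5) ^ 8 = 8 * ev d.lam (red 16 xq) := by
  have hx := const_xr 16
  have hn := cast_n_zero 16
  set x := red 16 xq with hxd
  have h16 : (16 : (ZMod 16)⟦X⟧) = 0 := by exact_mod_cast hn
  have hJ' : red 16 J * (1 + x ^ 5) ^ 4 = ev d.al2 x * red 16 (V xq) + 8 * red 16 r := by
    have := congrArg (red 16) hJ
    simp only [map_mul, map_pow, map_add, map_one, map_ev, map_ofNat] at this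
    exact this
  have hkap : red 16 X * red 16 (V xq) ^ 2 * (1 + x ^ 5) ^ 5 = ev Kl x := by
    have := K.kap
    simp only [map_mul, map_pow] at this
    exact this
  have hg : red 16 (X * J ^ 2) * ev D8h x = ev d.g4 x := by
    rw [ev_D8h]
    refine (one_add_pow_unit hx 5).mul_right_cancel ?_
    have e1 := ev_eqL hn d.g4eq x
    rw [ev_mulL hn, ev_mulL hn, ev_mulL hn, ev_D5h] at e1
    rw [← e1, ← hkap, map_mul, map_pow]
    calc red 16 X * red 16 J ^ 2 * (1 + x ^ 5) ^ 8 * (1 + x ^ 5) ^ 5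
        = red 16 X * (red 16 J * (1 + x ^ 5) ^ 4) ^ 2 * (1 + x ^ 5) ^ 5 := by ring
      _ = red 16 X * (ev d.al2 x * red 16 (V xq) + 8 * red 16 r) ^ 2 * (1 + x ^ 5) ^ 5 := by
        rw [hJ']
      _ = _ := by
        linear_combination (red 16 X * (1 + x ^ 5) ^ 5 * (ev d.al2 x * red 16 (V xq) * red 16 r
          + 4 * red 16 r ^ 2)) * h16
  obtain ⟨h4, -⟩ := round K 512 11 K.rel16 rfl rfl hg d.chk4 K.y16
    (D4 := D4h) (by decide +kernel) d.fin4
  rw [ev_D7h, ev_D3h, ev_smulL hn] at h4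
  refine (one_add_pow_unit hx 3).mul_right_cancel ?_
  calc _ = U 2 (red 16 (X * J ^ 2)) * (1 + x ^ 5) ^ 7 * (1 + x ^ 5) ^ 4 := by ring
    _ = _ := by
      rw [h4]
      norm_num [hxd]

/-- evaluation of the derivative of a list -/
theorem tht_ev (hT : S_THT) {R : Type} [CommRing R] {n : ℕ} (hn : (n : R) = 0) (x : R⟦X⟧)
    (l : List ℕ) : tht (ev l x) = ev (dL n l) x * tht x := by
  have hn' : (n : R⟦X⟧) = 0 := by
    have : (n : R⟦X⟧) = C (n : R) := (map_natCast C n).symm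
    rw [this, hn, map_zero]
  induction l with
  | nil => ext k; simp [tht, dL]
  | cons a l ih =>
    have ha : tht ((a : ℕ) : R⟦X⟧) = 0 := by
      ext k
      have : (a : R⟦X⟧) = C (a : R) := (map_natCast C a).symm
      rw [this, tht, coeff_mk, coeff_C]
      by_cases hk : k = 0
      · simp [hk]
      · simp [hk]
    rw [ev_cons, ((hT.1 R _ _).2.1), ((hT.1 R _ _).1), ih, ha, dL, ev_addL hn', ev_cons]
    push_cast
    ring

/-- `λ` -/
noncomputable def lamS (d : Dat) : ℤ⟦X⟧ := ev d.lam xq * invOfUnit ((1 + xq ^ 5) ^ 8) 1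

theorem lamS_mul (d : Dat) : lamS d * (1 + xq ^ 5) ^ 8 = ev d.lam xq := by
  rw [lamS, mul_assoc, mul_comm (invOfUnit _ _), mul_invOfUnit, mul_one]
  simp [const_xq]

theorem red_lamS_mul (n : ℕ) (d : Dat) :
    red n (lamS d) * (1 + red n xq ^ 5) ^ 8 = ev d.lam (red n xq) := by
  have := congrArg (red n) (lamS_mul d)
  simp only [map_mul, map_pow, map_add, map_one, map_ev] at this
  exact this

theorem tht_lamS (K : XFacts) (d : Dat) : tht (red 2 (lamS d)) = red 2 (lamS d) := by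
  have hn := cast_n_zero 2
  have hn0 : ((2 : ℕ) : ZMod 2) = 0 := rfl
  have h2 : (2 : (ZMod 2)⟦X⟧) = 0 := by exact_mod_cast hn
  set x := red 2 xq with hxd
  have hx : constantCoeff x = 0 := const_xr 2
  have h1 : red 2 (lamS d) * (1 + x ^ 5) ^ 8 = ev d.lam x := red_lamS_mul 2 d
  have hD : tht ((1 + x ^ 5) ^ 8) = 0 := by
    rw [K.tht.2.1]
    push_cast
    linear_combination (4 * (1 + x ^ 5) ^ 7 * tht (1 + x ^ 5)) * h2
  have h3 : tht (red 2 (lamS d)) * (1 + x ^ 5) ^ 8 = ev (dL 2 d.lam) x * tht x := by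
    rw [← tht_ev K.tht hn0, ← h1, (K.tht.1 _ _ _).1, hD]
    ring
  have h4 := ev_eqL hn d.der x
  rw [ev_mulL hn, ev_mulL hn, ev_mulL hn] at h4
  have e1 : ev [0, 1] x = x := by simp
  have e2 : ev [1, 0, 0, 0, 0, 1, 0, 0, 0, 0, 1] x = 1 + x ^ 5 + x ^ 10 := by
    simp
    ring
  have e3 : ev [1, 0, 0, 0, 0, 0, 0, 0, 0, 0, 1] x = (1 + x ^ 5) ^ 2 := by
    simp
    linear_combination (-x ^ 5) * h2
  rw [e1, e2, e3, ← K.th2] at h4
  refine (one_add_pow_unit hx 10).mul_right_cancel ?_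
  calc tht (red 2 (lamS d)) * (1 + x ^ 5) ^ 10
      = (tht (red 2 (lamS d)) * (1 + x ^ 5) ^ 8) * (1 + x ^ 5) ^ 2 := by ring
    _ = _ := by
      rw [h3]
      calc _ = tht x * (1 + x ^ 5) ^ 2 * ev (dL 2 d.lam) x := by ring
        _ = _ := by
          rw [h4, ← h1]
          ring

/-- the final result of the chain modulo 4 and 8 -/
theorem stageE (K : XFacts) (d : Dat) (F : ℤ⟦X⟧) (A : (ZMod 2)⟦X⟧) (hA : A ≠ 0)
    (hF : red 8 F * ev d.B0 (red 8 xq) = ev d.A0 (red 8 xq))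
    (hA4 : ev d.al2 (red 2 xq) * red 2 (V xq) = A ^ 4 * (1 + red 2 xq ^ 5) ^ 4) (n : ℕ) :
    (4 : ℤ) ∣ coeff (16 * n + 12) F ∧ (8 : ℤ) ∣ coeff (32 * n + 28) F := by
  obtain ⟨r, hr⟩ := stageJ K d F hF
  set J := V (U 2 (U 2 F)) with hJ
  have h1 := stageK K d J r hr
  have h2 : (2 : (ZMod 2)⟦X⟧) = 0 := by exact_mod_cast cast_n_zero 2
  have hJ4 : red 2 J = A ^ 4 := by
    refine (one_add_pow_unit (const_xr 2) 4).mul_right_cancel ?_
    rw [← hA4]
    have := congrArg (red 2) hr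
    simp only [map_mul, map_pow, map_add, map_one, map_ev, map_ofNat] at this
    rw [this]
    linear_combination (4 * red 2 r) * h2
  have h16 : red 16 (U 2 (X * J ^ 2)) = red 16 (8 * lamS d) := by
    refine (one_add_pow_unit (const_xr 16) 8).mul_right_cancel ?_
    rw [← (K.tht.2.2.2.2.1 16 2 _).1, h1, map_mul, mul_assoc, red_lamS_mul, map_ofNat]
  obtain ⟨h4, h8⟩ := K.fend K.tht J (lamS d) A hA hJ4 (tht_lamS K d) h16
  have hc : ∀ m, coeff m (V J) = coeff (16 * m + 12) F := by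
    intro m
    rw [hJ]
    simp only [V, U, coeff_mk]
    congr 1
    ring_nf
  refine ⟨?_, ?_⟩
  · rw [← hc]
    exact h4 n
  · have := h8 n
    rw [hc] at this
    have e : 16 * (2 * n + 1) + 12 = 32 * n + 28 := by ring
    rwa [e] at this

end Q201.RC
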