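import Mathlib

/-!
# Project RC: a small computation engine for polynomials modulo `n`, as lists of coefficients
-/

namespace Q201.RC

/-- sum of two coefficient lists modulo `n` -/
def addL (n : ℕ) : List ℕ → List ℕ → List ℕ
  | [], b => b
  | a :: l, [] => a :: l
  | a :: l, b :: m => ((a + b) % n) :: addL n l m

/-- multiplication by a constant -/
def smulL (n c : ℕ) (a : List ℕ) : List ℕ := a.map fun t => (c * t) % n

/-- product -/
def mulL (n : ℕ) : List ℕ → List ℕ → List ℕ
  | [], _ => []
  | a :: l, b => addL n (smulL n a b) (0 :: mulL n l b)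

/-- power -/
def powL (n : ℕ) (a : List ℕ) : ℕ → List ℕ
  | 0 => [1]
  | k + 1 => mulL n a (powL n a k)

/-- equality modulo `n` up to trailing zeros -/
def eqL (n : ℕ) : List ℕ → List ℕ → Bool
  | [], b => b.all fun t => t % n == 0
  | a :: l, [] => (a :: l).all fun t => t % n == 0
  | a :: l, b :: m => (a % n == b % n) && eqL n l m

/-- derivative -/
def derL (n : ℕ) : ℕ → List ℕ → List ℕ
  | _, [] => []
  | 0, _ :: l => derL n 1 l
  | k + 1, a :: l => (((k + 1) * a) % n) :: derL n (k + 2) l

variable {R : Type*} [CommRing R]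

/-- evaluation -/
def ev : List ℕ → R → R
  | [], _ => 0
  | a :: l, x => (a : R) + x * ev l x

@[simp] theorem ev_nil (x : R) : ev [] x = 0 := rfl

@[simp] theorem ev_cons (a : ℕ) (l : List ℕ) (x : R) : ev (a :: l) x = (a : R) + x * ev l x := rfl

theorem cast_mod {n : ℕ} (hn : (n : R) = 0) (a : ℕ) : ((a % n : ℕ) : R) = a := by
  conv_rhs => rw [← Nat.div_add_mod a n]
  push_cast
  rw [hn]
  ring

theorem ev_addL {n : ℕ} (hn : (n : R) = 0) (a b : List ℕ) (x : R) :
    ev (addL n a b) x = ev a x + ev b x := by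
  induction a generalizing b with
  | nil => simp [addL]
  | cons a l ih =>
    cases b with
    | nil => simp [addL]
    | cons b m =>
      simp only [addL, ev_cons, ih, cast_mod hn, Nat.cast_add]
      ring

theorem ev_smulL {n : ℕ} (hn : (n : R) = 0) (c : ℕ) (a : List ℕ) (x : R) :
    ev (smulL n c a) x = c * ev a x := by
  induction a with
  | nil => simp [smulL]
  | cons a l ih =>
    have : smulL n c (a :: l) = ((c * a) % n) :: smulL n c l := rfl
    rw [this, ev_cons, ev_cons, ih, cast_mod hn]
    push_cast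
    ring

theorem ev_mulL {n : ℕ} (hn : (n : R) = 0) (a b : List ℕ) (x : R) :
    ev (mulL n a b) x = ev a x * ev b x := by
  induction a with
  | nil => simp [mulL]
  | cons a l ih =>
    simp only [mulL, ev_addL hn, ev_smulL hn, ev_cons, ih, Nat.cast_zero, zero_add]
    ring

theorem ev_powL {n : ℕ} (hn : (n : R) = 0) (a : List ℕ) (k : ℕ) (x : R) :
    ev (powL n a k) x = ev a x ^ k := by
  induction k with
  | zero => simp [powL]
  | succ k ih => rw [powL, ev_mulL hn, ih, pow_succ, mul_comm]

theorem ev_all_zero {n : ℕ} (hn : (n : R) = 0) (a : List ℕ)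
    (h : a.all (fun t => t % n == 0) = true) (x : R) : ev a x = 0 := by
  induction a with
  | nil => rfl
  | cons a l ih =>
    rw [List.all_cons, Bool.and_eq_true] at h
    rw [ev_cons, ih h.2, mul_zero, add_zero, ← cast_mod hn, (by simpa using h.1 : a % n = 0)]
    simp

theorem ev_eqL {n : ℕ} (hn : (n : R) = 0) {a b : List ℕ} (h : eqL n a b = true) (x : R) :
    ev a x = ev b x := by
  induction a generalizing b with
  | nil => rw [ev_nil, ev_all_zero hn b h]
  | cons a l ih =>
    cases b with
    | nil => rw [ev_nil]; exact ev_all_zero hn (a :: l) h x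
    | cons b m =>
      rw [eqL, Bool.and_eq_true] at h
      rw [ev_cons, ev_cons, ih h.2, ← cast_mod hn a, ← cast_mod hn b,
        (by simpa using h.1 : a % n = b % n)]

/-- reduction: with `D^e x² = c1 x + c0` (coefficients evaluated at `z`), the pair
`(p1, p0) = rdc n d e c1 c0 A` satisfies `D^{e len A} A(x) = p1(z) x + p0(z)` -/
def rdc (n : ℕ) (De c1 c0 : List ℕ) : List ℕ → List ℕ × List ℕ × List ℕ
  | [] => ([], [], [1])
  | a :: A =>
    let r := rdc n De c1 c0 A
    let P := mulL n De r.2.2
    (addL n (mulL n r.1 c1) (mulL n De r.2.1), addL n (smulL n a P) (mulL n r.1 c0), P)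

theorem rdc_spec {n : ℕ} (hn : (n : R) = 0) (De c1 c0 : List ℕ) (x z : R)
    (h : ev De z * x ^ 2 = ev c1 z * x + ev c0 z) (A : List ℕ) :
    ev (rdc n De c1 c0 A).2.2 z = ev De z ^ A.length ∧
    ev De z ^ A.length * ev A x = ev (rdc n De c1 c0 A).1 z * x + ev (rdc n De c1 c0 A).2.1 z := by
  induction A with
  | nil => simp [rdc]
  | cons a A ih =>
    obtain ⟨h1, h2⟩ := ih
    constructor
    · simp only [rdc, ev_mulL hn, h1, List.length_cons]
      ring
    · simp only [rdc, ev_addL hn, ev_mulL hn, ev_smulL hn, h1, List.length_cons, ev_cons]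
      have : ev De z ^ (A.length + 1) * ((a : R) + x * ev A x)
          = ev De z ^ (A.length + 1) * a + ev De z * x * (ev De z ^ A.length * ev A x) := by ring
      rw [this, h2]
      linear_combination (ev (rdc n De c1 c0 A).1 z) * h

/-- the check that `A(x) Δ(z) = (α(z) x + β(z)) B(x)` modulo the relation -/
def chk (n : ℕ) (De c1 c0 A B al be Dl : List ℕ) : Bool :=
  let p := rdc n De c1 c0 A
  let r := rdc n De c1 c0 B
  let s := rdc n De c1 c0 (0 :: B)
  eqL n (mulL n Dl (mulL n s.2.2 p.1))
      (mulL n p.2.2 (addL n (mulL n al s.1) (mulL n be (mulL n De r.1)))) &&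
  eqL n (mulL n Dl (mulL n s.2.2 p.2.1))
      (mulL n p.2.2 (addL n (mulL n al s.2.1) (mulL n be (mulL n De r.2.1))))

theorem chk_spec {n : ℕ} (hn : (n : R) = 0) {De c1 c0 A B al be Dl : List ℕ} (x z : R)
    (h : ev De z * x ^ 2 = ev c1 z * x + ev c0 z) (hu : IsUnit (ev De z))
    (hc : chk n De c1 c0 A B al be Dl = true) :
    ev A x * ev Dl z = (ev al z * x + ev be z) * ev B x := by
  obtain ⟨p1, p2⟩ := rdc_spec hn De c1 c0 x z h A
  obtain ⟨r1, r2⟩ := rdc_spec hn De c1 c0 x z h B
  obtain ⟨s1, s2⟩ := rdc_spec hn De c1 c0 x z h (0 :: B)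
  rw [chk, Bool.and_eq_true] at hc
  have e1 := ev_eqL hn hc.1 z
  have e0 := ev_eqL hn hc.2 z
  simp only [ev_mulL hn, ev_addL hn] at e1 e0
  rw [p1, s1] at e1 e0
  rw [List.length_cons] at e1 e0 s2
  rw [ev_cons, Nat.cast_zero, zero_add] at s2
  have hcan : IsUnit (ev De z ^ A.length * ev De z ^ (B.length + 1)) :=
    (hu.pow _).mul (hu.pow _)
  refine hcan.mul_left_cancel ?_
  calc ev De z ^ A.length * ev De z ^ (B.length + 1) * (ev A x * ev Dl z)
      = ev De z ^ (B.length + 1) * ev Dl z * (ev De z ^ A.length * ev A x) := by ring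
    _ = ev De z ^ A.length * (ev al z * (ev De z ^ (B.length + 1) * (x * ev B x))
          + ev be z * ev De z * (ev De z ^ B.length * ev B x)) := by
        rw [p2, r2, s2]
        linear_combination x * e1 + e0
    _ = _ := by ring

end Q201.RC
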