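import Pool.Agent.Q279.QS.Theta
import Pool.Agent.Q201.RC.Eng

/-!
# Project RC (helper201): congruences for the coefficients of `R^5(q)/R(q^5)` and its reciprocal

Row MP_54ec50_nt.  Paper proof: helper247 (notes of the row); every identity below was checked
numerically (200 coefficients or more).  `q = X`.  Tools: `Pool/Agent/Q279/QS/*` (`TS` theta
series as power series, `TS_mul`, `TS_equiv`, `TS_add`, `jtp` Jacobi triple product, `eul k`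
`= ∏ (1-X^{kn})`, `pentagonal`, `jacobi`, `expand_eul`, `expand_TS`, `sg`, `tri`, `te a b n =
a n + (a+b) n(n-1)/2`, `red p`, `pow_eq_expand`, `coeff_red_eq_zero`).
Each `def S_XXX : Prop` is one job: prove `theorem xxx : S_XXX`.
-/

set_option autoImplicit false

namespace Q201.RC

open PowerSeries Q279.QS
open scoped PowerSeries.WithPiTopology

/-- `T1 = ∑ (-1)^n q^{n(5n+3)/2} = f(-q,-q^4)` -/
noncomputable def T1 : ℤ⟦X⟧ := TS (te 4 1) (fun n : ℤ => sg n)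

/-- `T2 = ∑ (-1)^n q^{n(5n+1)/2} = f(-q^2,-q^3)` -/
noncomputable def T2 : ℤ⟦X⟧ := TS (te 3 2) (fun n : ℤ => sg n)

noncomputable abbrev e2 {R : Type} [CommRing R] : R⟦X⟧ →ₐ[R] R⟦X⟧ := expand 2 two_ne_zero
noncomputable abbrev e3 {R : Type} [CommRing R] : R⟦X⟧ →ₐ[R] R⟦X⟧ := expand 3 three_ne_zero
noncomputable abbrev e5 {R : Type} [CommRing R] : R⟦X⟧ →ₐ[R] R⟦X⟧ := expand 5 (by norm_num)

/-- `∑ a_n q^n ↦ ∑ a_{kn} q^n` -/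
noncomputable def U {R : Type} [CommRing R] (k : ℕ) (F : R⟦X⟧) : R⟦X⟧ := mk fun n => coeff (k * n) F

/-- `∑ a_n q^n ↦ ∑ a_{2n+1} q^n` -/
noncomputable def V {R : Type} [CommRing R] (F : R⟦X⟧) : R⟦X⟧ := mk fun n => coeff (2 * n + 1) F

/-- `q d/dq` -/
noncomputable def tht {R : Type} [CommRing R] (F : R⟦X⟧) : R⟦X⟧ := mk fun n => (n : R) * coeff n F

/-- the Rogers–Ramanujan continued fraction `R(q) = T1/T2` -/
noncomputable def Rq : ℤ⟦X⟧ := T1 * invOfUnit T2 1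

/-- `x = q R(q^5)` -/
noncomputable def xq : ℤ⟦X⟧ := X * e5 Rq

/-- `t = q R(q)^5` -/
noncomputable def tq : ℤ⟦X⟧ := X * Rq ^ 5

/-- `W = θt/t = 1 + 5 θR/R` -/
noncomputable def Wq : ℤ⟦X⟧ := 1 + 5 * (tht Rq * invOfUnit Rq 1)

noncomputable def Cq : ℤ⟦X⟧ := Rq ^ 5 * invOfUnit (e5 Rq) 1
noncomputable def Dq : ℤ⟦X⟧ := e5 Rq * invOfUnit (Rq ^ 5) 1

/-- `(q^a; q^5)_∞` -/
noncomputable def Pa (a : ℕ) : ℤ⟦X⟧ := ∏' i : ℕ, (1 - X ^ (5 * i + a))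

/-! ## 1. Theta functions over `ℤ` -/

/-- JOB RC-1.  From `jtp 4 1`, `jtp 3 2` with `ε = 1`, and
`∏ (1-X^n) = ` product of the five residue classes modulo 5 (as in the proof of `pentagonal`). -/
def S_PROD : Prop :=
  T1 = Pa 1 * Pa 4 * eul 5 ∧ T2 = Pa 2 * Pa 3 * eul 5 ∧ T1 * T2 = eul 1 * eul 5 ∧
  constantCoeff T1 = 1 ∧ constantCoeff T2 = 1 ∧
  constantCoeff (Pa 1) = 1 ∧ constantCoeff (Pa 2) = 1 ∧ constantCoeff (Pa 3) = 1 ∧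
  constantCoeff (Pa 4) = 1

noncomputable def aa : ℤ⟦X⟧ :=
  TS (fun k : ℤ => (15 * k ^ 2 + k) / 2) (fun k => sg k)
    - TS (fun k : ℤ => (15 * k ^ 2 + 19 * k + 6) / 2) (fun k => sg k)

noncomputable def bb : ℤ⟦X⟧ :=
  TS (fun k : ℤ => (15 * k ^ 2 + 7 * k) / 2) (fun k => sg k)
    - TS (fun k : ℤ => (15 * k ^ 2 + 13 * k + 2) / 2) (fun k => sg k)

/-- JOB RC-2.  5-dissection of Euler's pentagonal series `eul 1 = ∑ (-1)^n q^{n(3n+1)/2}`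
(`pentagonal` has `n(3n-1)/2`; replace `n` by `-n`).  Residues of `n` modulo 5:
`n = 5k`: exponent `5 (15k^2+k)/2`, sign `sg k`; `n = 5k+3`: exponent
`(5k+3)(15k+10)/2 = 5 (15k^2+19k+6)/2`, sign `-sg k`; `n = 5k+4` (`= 5k'-1`, `k' = k+1`):
exponent `1 + 25 k'(3k'-1)/2`, sign `-sg k'` (this part is `-X * eul 25`); `n = 5k+1`: exponent
`2 + 5 (15k^2+7k)/2`, sign `-sg k`; `n = 5k+2`: exponent `2 + 5 (15k^2+13k+2)/2`, sign `sg k`. -/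
def S_DIS : Prop := eul 1 = e5 aa - X * eul 25 - X ^ 2 * e5 bb

/-- JOB RC-3.  Quintuple product, first instance.  Terms of the left side:
`sg(k+n) q^{(u^2+3v^2-28)/120}` with `v = 10n+3`, and `u = 30k+1` (sign +) or `u = 30k+19`
(sign -); right side (`eul 5 = ∑ (-1)^m q^{5m(3m+1)/2}`): `sg(m+l) q^{(u'^2+3v'^2-28)/120}`,
`u' = 30m+5`, `v' = 10l+1`.  The maps `(u,v) ↦ ((u+3v)/2,(u-v)/2)` and
`(u,v) ↦ ((u-3v)/2,(u+v)/2)` preserve `u^2+3v^2`; for `u,v` odd exactly one of the two images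
has odd entries.  Use them (with a suitable change of signs of `u`, `v`) to match the terms,
treating the residue classes separately (all index sets are images of `ℤ × ℤ` under affine
maps, cf. `phi_bij` in `Pool/Agent/Q279/QS/Quint.lean`); the remaining terms cancel in pairs.
An alternative: the quintuple product identity from `jtp` in any other way. -/
def S_QA : Prop := aa * T1 = eul 5 * T2

/-- JOB RC-4.  Quintuple product, second instance: left side `(u^2+3v^2-52)/120` with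
`u = 30k+7` (sign +) or `u = 30k+13` (sign -), `v = 10n+1`; right side `u' = 30m+5`,
`v' = 10l+3`. -/
def S_QB : Prop := bb * T2 = eul 5 * T1

/-- JOB RC-5.  Multiply `S_DIS` by `e5 (T1*T2) = eul 5 * eul 25` and use `S_QA`, `S_QB` (after
`e5`), then cancel `eul 25`. -/
def S_F1 : Prop := S_PROD → S_DIS → S_QA → S_QB →
  eul 1 * eul 5 = e5 T2 ^ 2 - X * e5 T1 * e5 T2 - X ^ 2 * e5 T1 ^ 2

/-- JOB RC-6.  Norm over the fifth roots of unity: over `ℂ⟦X⟧`, `ζ = exp(2πi/5)`,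
`∏_{j<5} eul 1 (ζ^j X) = eul 5 ^ 6 / eul 25` (factor `1 - X^n`: for `5 ∤ n` the product over `j`
of `1 - ζ^{jn} X^n` is `1 - X^{5n}`, for `5 ∣ n` it is `(1-X^n)^5`), `rescale (ζ^j)` is a
continuous ring homomorphism fixing series in `X^5`, and
`∏_j (b^2 - ζ^j X a b - ζ^{2j} X^2 a^2) = b^10 - 11 X^5 a^5 b^5 - X^10 a^10`.
So the norm of `S_F1` is the claim with `X` replaced by `X^5`; `e5` is injective. -/
def S_F2 : Prop := S_PROD →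
  eul 1 * eul 5 = e5 T2 ^ 2 - X * e5 T1 * e5 T2 - X ^ 2 * e5 T1 ^ 2 →
  eul 5 * (T2 ^ 10 - 11 * X * T1 ^ 5 * T2 ^ 5 - X ^ 2 * T1 ^ 10) = eul 1 ^ 11

/-- JOB RC-7.  Ramanujan's identity.  Work in the fraction field of `ℤ⟦X⟧` (or clear
denominators), `E = eul 1`, `E5`, `E25`, `x = xq`, `t = tq`, `M = 1+3x+4x^2+2x^3+x^4`,
`N = 1-2x+4x^2-3x^3+x^4`.  `F1`: `E x = X E25 (1-x-x^2)` (as `X e5 T1 = x e5 T2`).
`F2`: `(X/t)(1-11t-t^2) = (E/E5)^6`; `F2` at `X^5`: `(X^5/x^5)(1-11x^5-x^10) = (E5/E25)^6`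
(`e5 t = x^5`).  `1-11x^5-x^10 = (1-x-x^2) M N`.  So
`1/t - 11 - t = (1-x-x^2)^6/(x(1-11x^5-x^10)) = (1-x-x^2)^5/(x M N)`, and
`M^2 - 11 x M N - x^2 N^2 = (1-x-x^2)^5`, so `t` and `xN/M` have the same value of `1/t - t`;
hence `t = xN/M` or `t = -M/(xN)`; the second is impossible (constant coefficients).
Then `T2^10 E5^6 = E^6 (e5 T2)^10 M^2`: both sides in terms of `T1T2 = E E5`,
`e5 T1 e5 T2 = E5 E25`, `T2^10 = E^5 E5^5 X/t`, `(e5 T2)^10 = E5^5 E25^5 X^5/x^5`; take square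
roots (constant coefficient 1, domain).  The formula for `T1^5` follows. -/
def S_F6 : Prop := S_PROD →
  eul 1 * eul 5 = e5 T2 ^ 2 - X * e5 T1 * e5 T2 - X ^ 2 * e5 T1 ^ 2 →
  eul 5 * (T2 ^ 10 - 11 * X * T1 ^ 5 * T2 ^ 5 - X ^ 2 * T1 ^ 10) = eul 1 ^ 11 →
  Rq * T2 = T1 ∧ constantCoeff Rq = 1 ∧ xq * e5 T2 = X * e5 T1 ∧
  tq * (1 + 3 * xq + 4 * xq ^ 2 + 2 * xq ^ 3 + xq ^ 4)
    = xq * (1 - 2 * xq + 4 * xq ^ 2 - 3 * xq ^ 3 + xq ^ 4) ∧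
  T2 ^ 5 * eul 5 ^ 3
    = eul 1 ^ 3 * e5 T2 ^ 5 * (1 + 3 * xq + 4 * xq ^ 2 + 2 * xq ^ 3 + xq ^ 4) ∧
  Cq * (1 + 3 * xq + 4 * xq ^ 2 + 2 * xq ^ 3 + xq ^ 4)
    = 1 - 2 * xq + 4 * xq ^ 2 - 3 * xq ^ 3 + xq ^ 4 ∧
  Dq * (1 - 2 * xq + 4 * xq ^ 2 - 3 * xq ^ 3 + xq ^ 4)
    = 1 + 3 * xq + 4 * xq ^ 2 + 2 * xq ^ 3 + xq ^ 4

noncomputable def G1 : ℤ⟦X⟧ := TS (te 4 1) (fun _ : ℤ => (1 : ℤ))
noncomputable def G2 : ℤ⟦X⟧ := TS (te 3 2) (fun _ : ℤ => (1 : ℤ))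
noncomputable def K1 : ℤ⟦X⟧ := TS (te 9 1) (fun n : ℤ => sg n)
noncomputable def K3 : ℤ⟦X⟧ := TS (te 7 3) (fun n : ℤ => sg n)
noncomputable def ph5 : ℤ⟦X⟧ := TS (fun n : ℤ => 5 * n ^ 2) (fun n : ℤ => sg n)

/-- JOB RC-8.  Products of two theta series, `f(a,b) f(c,d) ± f(-a,-b) f(-c,-d)` with `ab = cd`:
`G1 T2 = ∑ (-1)^n q^{m(5m+3)/2 + n(5n+1)/2}`, `G2 T1 = ∑ (-1)^n q^{m(5m+1)/2 + n(5n+3)/2}`
(exchange the names: `∑ (-1)^m q^{m(5m+3)/2+n(5n+1)/2}`).  So `G1 T2 ∓ G2 T1` is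
`∑ ((-1)^n ∓ (-1)^m) q^{...}`: the sum over `m+n` odd (resp. even) with coefficient
`2 (-1)^n`.  `m+n` even: `m = i+j`, `n = i-j`: exponent
`5i^2+5j^2+2i+j` (`= (5i^2+2i) + (5j^2+j)`), sign `(-1)^{i+j}`: `2 K3(i) * e2 T2 (j)` up to
`n ↦ -n`.  `m+n` odd: `m = i+j`, `n = i-j-1` (or similar) gives `2 X K1 * e2 T1`. -/
def S_F3A : Prop :=
  G1 * T2 - G2 * T1 = 2 * X * e2 T1 * K1 ∧ G1 * T2 + G2 * T1 = 2 * e2 T2 * K3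

/-- JOB RC-9.  `f(a,b) f(-a,-b) = f(-a^2,-b^2) φ(-ab)`.  Either by the triple products
(`jtp` with `ε = 1` and `ε = -1`) or by the lattice substitution `m = i+j`, `n = i-j` in
`∑ (-1)^n q^{m(5m+3)/2+n(5n+3)/2}` (the terms with `m+n` odd cancel by `m ↔ n`; the even ones
give exponent `5i^2+3i+5j^2`, sign `(-1)^{i+j}`). -/
def S_F3B : Prop := e2 T1 * ph5 = G1 * T1 ∧ e2 T2 * ph5 = G2 * T2

/-- JOB RC-10.  Both sides are `∏ (1-X^n)` over all `n` times `(∏ (1-X^{10n}))^2`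
(`jtp`; `T2` has the residues 2,3,5 mod 5, `e2 T2` the residues 4,6,10 mod 10, `K1` the residues
1,9,10 mod 10; `T1`: 1,4,5 mod 5, `e2 T1`: 2,8,10 mod 10, `K3`: 3,7,10 mod 10). -/
def S_F3C : Prop := e2 T2 * T2 * K1 = T1 * e2 T1 * K3

/-- JOB RC-11.  The modular relation between `R(q)` and `R(q^2)`.  `t1 = e2 T1`, `t2 = e2 T2`.
`S_F3B` gives `ph5 (t1 T2^2 ∓ t2 T1^2) = T1 T2 (G1 T2 ∓ G2 T1)`, with `S_F3A`:
`ph5 (t1 T2^2 - t2 T1^2) = 2 X T1 T2 t1 K1`, `ph5 (t1 T2^2 + t2 T1^2) = 2 T1 T2 t2 K3`, with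
`S_F3C`: `t2^2 T2 (t1 T2^2 - t2 T1^2) = X T1 t1^2 (t1 T2^2 + t2 T1^2)`.  Divide by
`t2^3 T2^3` (`R = T1/T2`, `e2 R = t1/t2`): `e2 R - R^2 = X R (e2 R)^2 (e2 R + R^2)`.  Apply
`e5` and multiply by `X^2` (`e2` and `e5` commute). -/
def S_F3 : Prop := S_PROD → S_F3A → S_F3B → S_F3C →
  e2 xq - xq ^ 2 = xq * (e2 xq) ^ 2 * (e2 xq + xq ^ 2)

/-! ## 2. Modulo 3 and modulo 2 : the derivation -/

/-- JOB RC-12.  If `A(q)/A(q^5) = B(q)/B(q^5)` and both have constant coefficient 1 then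
`A = B`: `G = A/B` satisfies `e5 G = G`, so `coeff n G = coeff (n/5) G` or `0`. -/
def S_TRICK : Prop := ∀ (R : Type) [CommRing R] (A B : R⟦X⟧), constantCoeff A = 1 →
  constantCoeff B = 1 → A * e5 B = B * e5 A → A = B

/-- JOB RC-13.  `tht` is a derivation; `tht (e5 F) = 5 * e5 (tht F)`; and Frobenius facts:
over `ZMod 3`, `f - θθf` is the part of `f` with exponents divisible by 3 (`1 - n^2 = 0` for
`3 ∤ n`), which is `(U 3 f)(q^3) = (U 3 f)^3`; over `ZMod 2`, `f = (U 2 f)^2 + X (V f)^2` and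
`θf = X (V f)^2` (`pow_eq_expand`). -/
def S_THT : Prop :=
  (∀ (R : Type) [CommRing R] (f g : R⟦X⟧), tht (f * g) = tht f * g + f * tht g ∧
    tht (f + g) = tht f + tht g ∧ tht (e5 f) = 5 * e5 (tht f) ∧
    tht (X : R⟦X⟧) = X ∧ tht (1 : R⟦X⟧) = 0) ∧
  (∀ (R : Type) [CommRing R] (f : R⟦X⟧) (k : ℕ), tht (f ^ k) = k * f ^ (k - 1) * tht f) ∧
  (∀ f : (ZMod 3)⟦X⟧, f - tht (tht f) = (U 3 f) ^ 3) ∧
  (∀ f : (ZMod 2)⟦X⟧, f = (U 2 f) ^ 2 + X * (V f) ^ 2 ∧ tht f = X * (V f) ^ 2) ∧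
  (∀ (n k : ℕ) (f : ℤ⟦X⟧), U k (red n f) = red n (U k f) ∧ V (red n f) = red n (V f) ∧
    tht (red n f) = red n (tht f)) ∧
  (∀ (R : Type) [CommRing R] (f g : R⟦X⟧), U 2 (e2 f * g) = f * U 2 g ∧
    V (e2 f * g) = f * V g ∧ U 2 (e2 f) = f ∧ V (e2 f) = 0 ∧
    f = e2 (U 2 f) + X * e2 (V f) ∧ U 3 (e3 f * g) = f * U 3 g)

/-- JOB RC-14.  `tq = X Rq^5`, `xq = X e5 Rq`, from `S_THT`. -/
def S_W : Prop := S_THT → constantCoeff Rq = 1 →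
  tht tq = tq * Wq ∧ tht xq = xq * e5 Wq ∧ constantCoeff Wq = 1 ∧ e5 tq = xq ^ 5

/-- JOB RC-15.  Modulo 3: `W (1+t^2) = 1 + t - t^2`.  Differentiate `t M(x) = x N(x)`
(`S_F6`): `t W M + t M'(x) x W' = (x N(x))' x W'` where `W' = e5 W`, so `W` is `W'` times a
rational function of `x`; put `A = W (1+t^2)`, `B = 1+t-t^2`, `e5 t = x^5`, and check
`A * e5 B = B * e5 A` (polynomial identity in `x` modulo 3 after clearing `M`), `S_TRICK`.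
(`linear_combination` with multiples of `(3 : _) = 0`, or the engine `Eng.lean`.) -/
def S_W3 : Prop := S_THT → S_TRICK → constantCoeff Rq = 1 →
  tht tq = tq * Wq → tht xq = xq * e5 Wq → constantCoeff Wq = 1 → e5 tq = xq ^ 5 →
  tq * (1 + 3 * xq + 4 * xq ^ 2 + 2 * xq ^ 3 + xq ^ 4)
    = xq * (1 - 2 * xq + 4 * xq ^ 2 - 3 * xq ^ 3 + xq ^ 4) →
  red 3 Wq * (1 + red 3 tq ^ 2) = 1 + red 3 tq - red 3 tq ^ 2

/-- JOB RC-16.  Modulo 2: `W (1+t)^2 = 1 + t + t^2`, same method as RC-15. -/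
def S_W2 : Prop := S_THT → S_TRICK → constantCoeff Rq = 1 →
  tht tq = tq * Wq → tht xq = xq * e5 Wq → constantCoeff Wq = 1 → e5 tq = xq ^ 5 →
  tq * (1 + 3 * xq + 4 * xq ^ 2 + 2 * xq ^ 3 + xq ^ 4)
    = xq * (1 - 2 * xq + 4 * xq ^ 2 - 3 * xq ^ 3 + xq ^ 4) →
  red 2 Wq * (1 + red 2 tq) ^ 2 = 1 + red 2 tq + red 2 tq ^ 2

/-- JOB RC-17.  Modulo 3: `T2^10 (1+t^2) = eul 1^6`, modulo 2: `T2^5 (1+t) = eul 1^3`, by
`S_TRICK`: with `T2^5 E5^3 = E^3 (e5 T2)^5 M`, `t M = x N`, `e5 t = x^5`: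
modulo 3, `M^2 + x^2 N^2 = 1 + x^10`; modulo 2, `M + x N = 1 + x^5`.
(`A = T2^10 (1+t^2)`, `B = E^6`; `A * e5 B = B * e5 A`.) -/
def S_F5 : Prop := S_PROD → S_TRICK → constantCoeff Rq = 1 → e5 tq = xq ^ 5 →
  tq * (1 + 3 * xq + 4 * xq ^ 2 + 2 * xq ^ 3 + xq ^ 4)
    = xq * (1 - 2 * xq + 4 * xq ^ 2 - 3 * xq ^ 3 + xq ^ 4) →
  T2 ^ 5 * eul 5 ^ 3
    = eul 1 ^ 3 * e5 T2 ^ 5 * (1 + 3 * xq + 4 * xq ^ 2 + 2 * xq ^ 3 + xq ^ 4) →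
  red 3 (T2 ^ 10) * (1 + red 3 tq ^ 2) = red 3 (eul 1 ^ 6) ∧
  red 2 (T2 ^ 5) * (1 + red 2 tq) = red 2 (eul 1 ^ 3)

/-- JOB RC-18.  Modulo 3, the two steps `U 3` for `C` (`x = red 3 xq`).  From `S_W3` at `q^5`:
`θx (1+x^10) = x (1+x^5-x^10)`.  `f = red 3 Cq`, `f M = N`.  `f - θθf = (U 3 f)^3` (`S_THT`).
Python check: `(f - θθf)(1+x^10)^3 = (1+x^2+2x^4+2x^7+x^8+x^9+x^10)^3`, so
`(U 3 f)(1+x^10) = 1+x^2+2x^4+2x^7+x^8+x^9+x^10` (cube roots are unique in characteristic 3),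
and again `(U 3 (U 3 f))(1+x^10) = 1+2x^3+2x^6+2x^9+x^10`.
To verify: if `f B(x) = A(x)` then `θf B^2 (1+x^10) = x (1+x^5-x^10)(A'B - AB')(x)`; clear all
denominators (units) and compare polynomials modulo 3 (`Eng.lean`: lists, `eqL`, `derL`, by
`decide`). -/
def S_M3C : Prop := S_THT → constantCoeff Rq = 1 →
  tht (red 3 xq) * (1 + red 3 xq ^ 10) = red 3 xq * (1 + red 3 xq ^ 5 - red 3 xq ^ 10) →
  Cq * (1 + 3 * xq + 4 * xq ^ 2 + 2 * xq ^ 3 + xq ^ 4)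
    = 1 - 2 * xq + 4 * xq ^ 2 - 3 * xq ^ 3 + xq ^ 4 →
  U 3 (U 3 (red 3 Cq)) * (1 + red 3 xq ^ 10)
    = 1 + 2 * red 3 xq ^ 3 + 2 * red 3 xq ^ 6 + 2 * red 3 xq ^ 9 + red 3 xq ^ 10

/-- JOB RC-19.  The same for `D`: intermediate
`(U 3 f)(1+x^10) = 1+2x+x^2+x^3+2x^6+x^8+x^10`. -/
def S_M3D : Prop := S_THT → constantCoeff Rq = 1 →
  tht (red 3 xq) * (1 + red 3 xq ^ 10) = red 3 xq * (1 + red 3 xq ^ 5 - red 3 xq ^ 10) →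
  Dq * (1 - 2 * xq + 4 * xq ^ 2 - 3 * xq ^ 3 + xq ^ 4)
    = 1 + 3 * xq + 4 * xq ^ 2 + 2 * xq ^ 3 + xq ^ 4 →
  U 3 (U 3 (red 3 Dq)) * (1 + red 3 xq ^ 10)
    = 1 + red 3 xq + 2 * red 3 xq ^ 4 + red 3 xq ^ 7 + red 3 xq ^ 10

/-- JOB RC-20.  The congruences modulo 3.  `C`: `g = U 3 (U 3 C)`,
`g (1+x^10) = (1+x^10) - x^3 (1-x^3)^2`.  By `S_F5` at `q^5` (`e5 t = x^5`):
`(e5 T2)^10 (1+x^10) = (eul 5)^6`, so `(g - 1) (eul 5)^6 = -x^3 (1-x^3)^2 (e5 T2)^9 (e5 T2)`.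
Cubes are series in `q^3` (`pow_eq_expand`), so `g - 1 = (series in q^3) * e5 T2`, and
`e5 T2 = ∑ (-1)^n q^{5n(5n+1)/2}` has no exponent `≡ 2 mod 3`; hence `coeff (3n+2) g = 0`, and
`coeff (3n+2) (U 3 (U 3 C)) = coeff (27n+18) C`.
`D`: `g (1+x^10) = (1+x^10) + x (1+x^3)^2`, and `x e5 T2 = X e5 T1
= ∑ (-1)^n q^{1+5n(5n+3)/2}` has no exponent `≡ 2 mod 3`. -/
def S_FIN3 : Prop := S_THT → S_PROD → constantCoeff Rq = 1 → xq * e5 T2 = X * e5 T1 →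
  e5 tq = xq ^ 5 →
  red 3 (T2 ^ 10) * (1 + red 3 tq ^ 2) = red 3 (eul 1 ^ 6) →
  U 3 (U 3 (red 3 Cq)) * (1 + red 3 xq ^ 10)
    = 1 + 2 * red 3 xq ^ 3 + 2 * red 3 xq ^ 6 + 2 * red 3 xq ^ 9 + red 3 xq ^ 10 →
  U 3 (U 3 (red 3 Dq)) * (1 + red 3 xq ^ 10)
    = 1 + red 3 xq + 2 * red 3 xq ^ 4 + red 3 xq ^ 7 + red 3 xq ^ 10 →
  ∀ n : ℕ, (3 : ℤ) ∣ coeff (27 * n + 18) Cq ∧ (3 : ℤ) ∣ coeff (27 * n + 18) Dq

/-! ## 3. Powers of 2 -/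

/-- JOB RC-21.  `y = U 2 x`, `v = V x`, `κ = X v^2`, `m = κ - y^2`.  `x = e2 y + X e2 v`, so
`(x - e2 y)^2 = e2 κ`.  Put `z = e2 x`, `x' = rescale (-1) x = e2 y - X e2 v`; `S_F3`:
`P(x) = z^2 x^3 + x^2 + z^3 x - z = 0` and `P(x') = 0`, `x ≠ x'`.  With `s = x + x' = 2 e2 y`,
`p = x x' = e2 (y^2 - κ)`: `P(T) = (T^2 - sT + p)(z^2 T + 1 + s z^2) + r1 T + r0`,
`r1 = z^3 - p z^2 + s + s^2 z^2`, `r0 = -z - p(1+s z^2)`; both vanish (subtract, domain).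
So `e2 m (1 + 2 z^2 e2 y) = z` and `-e2 m z^2 = z^3 + 2 e2 y + 4 (e2 y)^2 z^2`; multiply the
latter by `1 + 2 z^2 e2 y`, insert the former, divide by 2; apply injectivity of `e2`. -/
def S_REL : Prop := S_THT → constantCoeff Rq = 1 →
  e2 xq - xq ^ 2 = xq * (e2 xq) ^ 2 * (e2 xq + xq ^ 2) →
  let y := U 2 xq
  let v := V xq
  let m := X * v ^ 2 - y ^ 2
  xq ^ 2 = 2 * e2 y * xq + e2 m ∧ m * (1 + 2 * xq ^ 2 * y) = xq ∧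
  4 * xq ^ 4 * y ^ 3 + 4 * xq ^ 2 * y ^ 2 + (1 + xq ^ 5) * y + xq ^ 3 = 0

/-- lists (see `Eng.lean`; coefficients of polynomials) -/
def Yl : List ℕ := [0,0,0,7,0,0,0,0,1,0,0,0,0,5,0,0,0,0,7]
def Yh : List ℕ := [0,0,0,15,0,0,0,0,9,0,0,0,0,13,0,0,0,0,15]
def Kl : List ℕ := [0,1,0,0,0,0,8,0,0,0,0,9,0,0,0,0,5,0,0,0,0,10,0,0,0,0,15]
/-- `(1+z^5)^2` and the relation modulo 8 -/
def De8 : List ℕ := [1, 0, 0, 0, 0, 2, 0, 0, 0, 0, 1]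
def c18 : List ℕ := [0, 0, 0, 6, 0, 0, 0, 0, 6]
def c08 : List ℕ := [0, 1, 0, 0, 0, 0, 4, 0, 0, 0, 0, 7]
/-- `(1+z^5)^4` modulo 16 and the relation modulo 16 -/
def Deh : List ℕ := [1, 0, 0, 0, 0, 4, 0, 0, 0, 0, 6, 0, 0, 0, 0, 4, 0, 0, 0, 0, 1]
def c1h : List ℕ := [0,0,0,14,0,0,0,0,2,0,0,0,0,10,0,0,0,0,14]
def c0h : List ℕ := [0,1,0,0,0,0,6,0,0,0,0,8,0,0,0,0,10,0,0,0,0,15]

/-- JOB RC-22.  Solve the relations of `S_REL` 2-adically (`x = red n xq`, `D = 1+x^5` a unit):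
modulo 2 `y = x^3/D`; modulo 4 `y = -x^3/D`; hence modulo 16
`y = -(x^3 + 4x^2 y^2 + 4x^4 y^3)/D` with `y` replaced by its value modulo 4 on the right:
`y D^4 = Yh(x)` (`Yl` modulo 8), `m = x/(1+2x^2y) = x (1 - 2x^2y + 4x^4y^2 - 8x^6y^3)`,
`m D^4 = c0h(x)` modulo 16 (`m D^2 = c08(x)` modulo 8), `κ D^5 = (m+y^2) D^5 = Kl(x)`.
(A difference `F` with `2F`-type arguments is not needed: work over `ℤ` with
`y = -x^3/D + 4 r` and so on, then reduce.)  The last two lines: `x^2 = 2 e2 y x + e2 m`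
multiplied by `e2 D^4` (`e2 D^2`). -/
def S_Y : Prop := S_THT → constantCoeff Rq = 1 →
  (let y := U 2 xq
   let v := V xq
   let m := X * v ^ 2 - y ^ 2
   xq ^ 2 = 2 * e2 y * xq + e2 m ∧ m * (1 + 2 * xq ^ 2 * y) = xq ∧
   4 * xq ^ 4 * y ^ 3 + 4 * xq ^ 2 * y ^ 2 + (1 + xq ^ 5) * y + xq ^ 3 = 0) →
  red 8 (U 2 xq) * (1 + red 8 xq ^ 5) ^ 4 = ev Yl (red 8 xq) ∧
  red 16 (U 2 xq) * (1 + red 16 xq ^ 5) ^ 4 = ev Yh (red 16 xq) ∧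
  red 16 (X * V xq ^ 2) * (1 + red 16 xq ^ 5) ^ 5 = ev Kl (red 16 xq) ∧
  ev De8 (e2 (red 8 xq)) * red 8 xq ^ 2
    = ev c18 (e2 (red 8 xq)) * red 8 xq + ev c08 (e2 (red 8 xq)) ∧
  ev Deh (e2 (red 16 xq)) * red 16 xq ^ 2
    = ev c1h (e2 (red 16 xq)) * red 16 xq + ev c0h (e2 (red 16 xq))

/-- JOB RC-23.  One step `U 2`, `V`: from the identity produced by the engine. -/
def S_STEP2 : Prop := S_THT → ∀ (n : ℕ) (g x : (ZMod n)⟦X⟧) (A B al be Dl : List ℕ),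
  constantCoeff x = 0 → (B.headD 0 = 1) → g * ev B x = ev A x →
  ev A x * ev Dl (e2 x) = (ev al (e2 x) * x + ev be (e2 x)) * ev B x →
  U 2 g * ev Dl x = ev al x * U 2 x + ev be x ∧ V g * ev Dl x = ev al x * V x

/-- JOB RC-24.  Modulo 2: `v = (e5 T2)^4 (1+x^5)`, `X v^2 = θx = x W(q^5)`
(`S_THT`, `S_W2` at `q^5`: `W(q^5)(1+x^5)^2 = 1+x^5+x^10`).  `S_F5` at `q^5`:
`(e5 T2)^5 (1+x^5) = E5^3`; `F2` at `q^5` modulo 2: `E25 (e5 T2)^10 (1+x^5+x^10) = E5^11`;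
`x e5 T2 = X e5 T1`, `e5 T1 e5 T2 = E5 E25`.  So `X v^2 = X (e5 T2)^8 (1+x^5)^2`: cancel `X`,
square roots are unique in characteristic 2. -/
def S_V2 : Prop := S_THT → S_PROD → constantCoeff Rq = 1 → xq * e5 T2 = X * e5 T1 →
  e5 tq = xq ^ 5 → tht xq = xq * e5 Wq →
  red 2 Wq * (1 + red 2 tq) ^ 2 = 1 + red 2 tq + red 2 tq ^ 2 →
  red 2 (T2 ^ 5) * (1 + red 2 tq) = red 2 (eul 1 ^ 3) →
  eul 5 * (T2 ^ 10 - 11 * X * T1 ^ 5 * T2 ^ 5 - X ^ 2 * T1 ^ 10) = eul 1 ^ 11 →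
  red 2 (V xq) = red 2 (e5 T2) ^ 4 * (1 + red 2 xq ^ 5) ∧
  tht (red 2 xq) * (1 + red 2 xq ^ 5) ^ 2
    = red 2 xq * (1 + red 2 xq ^ 5 + red 2 xq ^ 10)

/-- JOB RC-25.  The last step.  `Je = U 2 J`, `Jo = V J`, `J = e2 Je + X e2 Jo`, so
`U 2 (X J^2) = 2 X Je Jo`.  Modulo 2, `J = A^4 = e2 (A^2)`, so `Je = A^2` and `Jo = 0`.
Hypothesis: `2 X Je Jo = 8 lam` modulo 16, so `X Je Jo = 4 lam` modulo 8.  As
`Je` is nonzero modulo 2 and `(ZMod 2)⟦X⟧` is a domain, `4 ∣ Jo` (two steps).  `Jo = 4 J'`,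
`X Je J' = lam` modulo 2, i.e. `X A^2 J' = lam`.  Apply `θ` (modulo 2, `θ(A^2) = 0`):
`lam = θ lam = X A^2 J' + X A^2 θJ' = lam + X A^2 θJ'`, so `θ J' = 0` modulo 2: the odd
coefficients of `J'` are even. -/
def S_END : Prop := S_THT → ∀ (J lam : ℤ⟦X⟧) (A : (ZMod 2)⟦X⟧), A ≠ 0 → red 2 J = A ^ 4 →
  tht (red 2 lam) = red 2 lam → red 16 (U 2 (X * J ^ 2)) = red 16 (8 * lam) →
  (∀ n, (4 : ℤ) ∣ coeff n (V J)) ∧ ∀ n, (8 : ℤ) ∣ coeff (2 * n + 1) (V J)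

end Q201.RC
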