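import Pool.Agent.Q201.RC.NEng
import Pool.Agent.Q201.RC.Stm

/-! # Project RC: the data, and the kernel checks -/

namespace Q201.RC

def M0 : List ℕ := [1, 3, 4, 2, 1]
def N8 : List ℕ := [1, 6, 4, 5, 1]
def D38 : List ℕ := [1, 0, 0, 0, 0, 3, 0, 0, 0, 0, 3, 0, 0, 0, 0, 1]
def D48 : List ℕ := [1, 0, 0, 0, 0, 4, 0, 0, 0, 0, 6, 0, 0, 0, 0, 4, 0, 0, 0, 0, 1]
def D3h : List ℕ := [1, 0, 0, 0, 0, 3, 0, 0, 0, 0, 3, 0, 0, 0, 0, 1]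
def D4h : List ℕ := [1, 0, 0, 0, 0, 4, 0, 0, 0, 0, 6, 0, 0, 0, 0, 4, 0, 0, 0, 0, 1]
def D5h : List ℕ := [1, 0, 0, 0, 0, 5, 0, 0, 0, 0, 10, 0, 0, 0, 0, 10, 0, 0, 0, 0, 5, 0, 0, 0, 0, 1]
def D7h : List ℕ := [1, 0, 0, 0, 0, 7, 0, 0, 0, 0, 5, 0, 0, 0, 0, 3, 0, 0, 0, 0, 3, 0, 0, 0, 0, 5, 0, 0, 0, 0, 7, 0, 0, 0, 0, 1]
def D8h : List ℕ := [1, 0, 0, 0, 0, 8, 0, 0, 0, 0, 12, 0, 0, 0, 0, 8, 0, 0, 0, 0, 6, 0, 0, 0, 0, 8, 0, 0, 0, 0, 12, 0, 0, 0, 0, 8, 0, 0, 0, 0, 1]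

/-! ## C -/

def al0C : List ℕ := [3, 7, 7, 3, 6, 6, 0, 6, 0, 2, 3, 1, 7, 5]
def be0C : List ℕ := [1, 6, 7, 0, 7, 0, 2, 2, 2, 4, 7, 0, 7, 2, 1]
def dl0C : List ℕ := [1, 7, 6, 6, 5, 4, 0, 4, 2, 6, 3, 5, 6, 4, 1]
def a2C : List ℕ := [1, 7, 0, 5, 6, 6, 7, 2, 3, 2, 6, 5, 0, 3, 2, 2, 1, 6, 1, 6, 1]
def al1C : List ℕ := [7, 5, 2, 2, 2, 1, 3, 2, 6, 6, 1, 3, 2, 2, 6, 3, 1, 2, 6, 2]
def be1C : List ℕ := [1, 0, 6, 3, 5, 4, 4, 6, 3, 5, 2, 4, 2, 5, 3, 0, 0, 2, 1, 7, 1]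
def a4C : List ℕ := [1, 0, 6, 4, 0, 2, 2, 4, 5, 3, 2, 0, 6, 2, 2, 6, 2, 0, 1, 7, 1]
def al2C : List ℕ := [0, 4, 6, 0, 3, 4, 6, 6, 4, 5, 4, 2, 6, 4, 7, 0, 0, 6, 0, 1]
def be2C : List ℕ := [1, 6, 0, 2, 5, 0, 6, 6, 2, 7, 2, 6, 6, 2, 1, 4, 6, 4, 2, 7, 1]
def g4C : List ℕ := [0, 0, 0, 0, 0, 4, 8, 4, 0, 1, 12, 4, 12, 12, 1, 12, 4, 4, 12, 13, 8, 8, 0, 12, 2, 4, 4, 4, 8, 3, 12, 12, 4, 8, 1, 12, 0, 4, 0, 15]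
def al4C : List ℕ := [0, 0, 4, 4, 1, 4, 12, 0, 8, 2, 12, 8, 12, 12, 15, 8, 8, 0, 0, 12, 0, 0, 12, 12, 7, 4, 12, 0, 8, 2, 4, 8, 4, 4, 1]
def be4C : List ℕ := [0, 0, 0, 8, 0, 12, 4, 1, 4, 12, 12, 4, 5, 8, 12, 8, 8, 6, 8, 12, 8, 8, 2, 0, 4, 12, 4, 1, 4, 8, 12, 4, 9]
def lamC : List ℕ := [0, 0, 0, 1, 0, 1, 0, 0, 1, 0, 1, 0, 0, 0, 0, 1, 0, 0, 1, 0, 0, 0, 0, 1, 0, 1, 0, 1, 0, 0, 1, 0, 1, 0, 0, 1, 0, 1]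

theorem chk0C : chkN 8 256 8 De8 c18 c08 N8 M0 al0C be0C dl0C = true := by decide +kernel
theorem chk1C : chkN 8 256 9 De8 c18 c08 a2C D48 al1C be1C D48 = true := by decide +kernel
theorem chk2C : chkN 8 256 9 De8 c18 c08 a4C D48 al2C be2C D48 = true := by decide +kernel
theorem chk4C : chkN 16 512 11 Deh c1h c0h g4C D8h al4C be4C D7h = true := by decide +kernel
theorem fin0C : eqL 8 (addL 8 (mulL 8 al0C Yl) (mulL 8 be0C D48)) (mulL 8 a2C dl0C) = true := by decide +kernel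
theorem fin1C : eqL 8 (addL 8 (mulL 8 al1C Yl) (mulL 8 be1C D48)) (mulL 8 a4C D48) = true := by decide +kernel
theorem g4eqC : eqL 16 (mulL 16 Kl (mulL 16 al2C al2C)) (mulL 16 g4C D5h) = true := by decide +kernel
theorem fin4C : eqL 16 (addL 16 (mulL 16 al4C Yh) (mulL 16 be4C D4h)) (mulL 16 (smulL 16 8 lamC) D3h) = true := by decide +kernel

/-! ## D -/

def al0D : List ℕ := [5, 1, 1, 5, 2, 2, 0, 2, 0, 6, 5, 7, 1, 3]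
def be0D : List ℕ := [1, 6, 7, 2, 1, 2, 4, 6, 4, 2, 1, 6, 7, 2, 1]
def dl0D : List ℕ := [1, 4, 6, 3, 3, 6, 2, 4, 4, 0, 5, 2, 6, 1, 1]
def a2D : List ℕ := [1, 2, 1, 2, 1, 6, 2, 5, 0, 3, 6, 6, 3, 6, 7, 2, 6, 3, 0, 1, 1]
def al1D : List ℕ := [2, 2, 2, 7, 3, 6, 6, 2, 5, 1, 6, 2, 2, 5, 1, 2, 6, 2, 3, 7]
def be1D : List ℕ := [1, 1, 1, 2, 4, 4, 1, 1, 2, 4, 2, 7, 7, 6, 0, 0, 3, 3, 6, 0, 1]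
def a4D : List ℕ := [1, 1, 1, 0, 2, 2, 2, 6, 6, 0, 2, 5, 5, 4, 2, 6, 0, 4, 6, 0, 1]
def al2D : List ℕ := [1, 0, 6, 0, 0, 7, 4, 6, 2, 4, 5, 4, 6, 6, 4, 3, 0, 6, 4]
def be2D : List ℕ := [1, 1, 2, 6, 6, 0, 1, 6, 2, 2, 2, 5, 2, 0, 6, 4, 5, 6, 0, 2, 1]
def g4D : List ℕ := [0, 1, 0, 12, 0, 4, 1, 8, 4, 4, 12, 13, 8, 12, 4, 12, 2, 4, 0, 8, 8, 3, 12, 12, 4, 4, 1, 4, 12, 12, 12, 15, 0, 12, 8, 12]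
def al4D : List ℕ := [1, 12, 4, 8, 4, 10, 8, 0, 12, 12, 15, 4, 12, 0, 0, 12, 0, 0, 8, 8, 7, 4, 12, 8, 12, 10, 8, 0, 12, 12, 1, 12, 4]
def be4D : List ℕ := [0, 0, 0, 9, 12, 12, 8, 4, 13, 12, 12, 4, 8, 6, 8, 8, 12, 0, 2, 8, 8, 12, 0, 9, 12, 12, 12, 12, 1, 12, 12, 0, 8]
def lamD : List ℕ := [0, 0, 0, 1, 0, 1, 0, 0, 1, 0, 1, 0, 0, 1, 0, 1, 0, 1, 0, 0, 0, 0, 1, 0, 0, 1, 0, 0, 0, 0, 1, 0, 1, 0, 0, 1, 0, 1]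

theorem chk0D : chkN 8 256 8 De8 c18 c08 M0 N8 al0D be0D dl0D = true := by decide +kernel
theorem chk1D : chkN 8 256 9 De8 c18 c08 a2D D48 al1D be1D D48 = true := by decide +kernel
theorem chk2D : chkN 8 256 9 De8 c18 c08 a4D D48 al2D be2D D48 = true := by decide +kernel
theorem chk4D : chkN 16 512 11 Deh c1h c0h g4D D8h al4D be4D D7h = true := by decide +kernel
theorem fin0D : eqL 8 (addL 8 (mulL 8 al0D Yl) (mulL 8 be0D D48)) (mulL 8 a2D dl0D) = true := by decide +kernel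
theorem fin1D : eqL 8 (addL 8 (mulL 8 al1D Yl) (mulL 8 be1D D48)) (mulL 8 a4D D48) = true := by decide +kernel
theorem g4eqD : eqL 16 (mulL 16 Kl (mulL 16 al2D al2D)) (mulL 16 g4D D5h) = true := by decide +kernel
theorem fin4D : eqL 16 (addL 16 (mulL 16 al4D Yh) (mulL 16 be4D D4h)) (mulL 16 (smulL 16 8 lamD) D3h) = true := by decide +kernel

end Q201.RC
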