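import Pool.Agent.Q201.RC.F3a

/-! # Project RC: job RC-2 -/

set_option autoImplicit false

namespace Q201.RC

open PowerSeries Q279.QS Filter
open scoped PowerSeries.WithPiTopology

/-- the five residue classes -/
def ph : ℤ ⊕ (ℤ ⊕ (ℤ ⊕ (ℤ ⊕ ℤ))) → ℤ
  | Sum.inl k => -(5 * k)
  | Sum.inr (Sum.inl k) => -(5 * k + 3)
  | Sum.inr (Sum.inr (Sum.inl k)) => -(5 * k - 1)
  | Sum.inr (Sum.inr (Sum.inr (Sum.inl k))) => -(5 * k + 1)
  | Sum.inr (Sum.inr (Sum.inr (Sum.inr k))) => -(5 * k + 2)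

theorem ph_bij : Function.Bijective ph := by
  constructor
  · rintro (t | t | t | t | t) (u | u | u | u | u) h <;> simp only [ph] at h <;>
      first
      | (exfalso; omega)
      | (have : t = u := by omega
         rw [this])
  · intro n
    have h : n % 5 = 0 ∨ n % 5 = 1 ∨ n % 5 = 2 ∨ n % 5 = 3 ∨ n % 5 = 4 := by omega
    rcases h with h | h | h | h | h
    · refine ⟨Sum.inl (-n / 5), ?_⟩
      simp only [ph]
      omega
    · refine ⟨Sum.inr (Sum.inr (Sum.inl ((1 - n) / 5))), ?_⟩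
      simp only [ph]
      omega
    · refine ⟨Sum.inr (Sum.inl ((-n - 3) / 5)), ?_⟩
      simp only [ph]
      omega
    · refine ⟨Sum.inr (Sum.inr (Sum.inr (Sum.inr ((-n - 2) / 5)))), ?_⟩
      simp only [ph]
      omega
    · refine ⟨Sum.inr (Sum.inr (Sum.inr (Sum.inl ((-n - 1) / 5)))), ?_⟩
      simp only [ph]
      omega

theorem TS_ph {e : ℤ → ℤ} (he : FF e) (c : ℤ → ℤ) :
    TS e c = TS (fun k : ℤ => e (-(5 * k))) (fun k => c (-(5 * k)))
      + (TS (fun k : ℤ => e (-(5 * k + 3))) (fun k => c (-(5 * k + 3)))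
      + (TS (fun k : ℤ => e (-(5 * k - 1))) (fun k => c (-(5 * k - 1)))
      + (TS (fun k : ℤ => e (-(5 * k + 1))) (fun k => c (-(5 * k + 1)))
      + TS (fun k : ℤ => e (-(5 * k + 2))) (fun k => c (-(5 * k + 2)))))) := by
  rw [← TS_equiv (Equiv.ofBijective ph ph_bij)]
  have h1 : FF fun k => e ((Equiv.ofBijective ph ph_bij) k) := he.comp_injective ph_bij.1
  have h2 : FF fun k => e ((Equiv.ofBijective ph ph_bij) (Sum.inr k)) :=
    h1.comp_injective Sum.inr_injective
  have h3 : FF fun k => e ((Equiv.ofBijective ph ph_bij) (Sum.inr (Sum.inr k))) :=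
    h2.comp_injective Sum.inr_injective
  have h4 : FF fun k => e ((Equiv.ofBijective ph ph_bij) (Sum.inr (Sum.inr (Sum.inr k)))) :=
    h3.comp_injective Sum.inr_injective
  rw [TS_sum_type h1, TS_sum_type h2, TS_sum_type h3, TS_sum_type h4]
  rfl

theorem half1 (k : ℤ) : (15 * k ^ 2 + k) / 2 = 7 * k ^ 2 + up k := by
  have h : 15 * k ^ 2 + k = 2 * (7 * k ^ 2 + up k) := by linarith [two_up k]
  rw [h, Int.mul_ediv_cancel_left _ two_ne_zero]

theorem half2 (k : ℤ) : (15 * k ^ 2 + 19 * k + 6) / 2 = 7 * k ^ 2 + 9 * k + 3 + up k := by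
  have h : 15 * k ^ 2 + 19 * k + 6 = 2 * (7 * k ^ 2 + 9 * k + 3 + up k) := by
    linarith [two_up k]
  rw [h, Int.mul_ediv_cancel_left _ two_ne_zero]

theorem half3 (k : ℤ) : (15 * k ^ 2 + 7 * k) / 2 = 7 * k ^ 2 + 3 * k + up k := by
  have h : 15 * k ^ 2 + 7 * k = 2 * (7 * k ^ 2 + 3 * k + up k) := by linarith [two_up k]
  rw [h, Int.mul_ediv_cancel_left _ two_ne_zero]

theorem half4 (k : ℤ) : (15 * k ^ 2 + 13 * k + 2) / 2 = 7 * k ^ 2 + 6 * k + 1 + up k := by
  have h : 15 * k ^ 2 + 13 * k + 2 = 2 * (7 * k ^ 2 + 6 * k + 1 + up k) := by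
    linarith [two_up k]
  rw [h, Int.mul_ediv_cancel_left _ two_ne_zero]

theorem nn3 (k : ℤ) : 0 ≤ 7 * k ^ 2 + 3 * k + up k := by
  have h1 := up_nonneg k
  rcases le_or_gt 0 k with h | h
  · nlinarith
  · nlinarith

theorem nn4 (k : ℤ) : 0 ≤ 7 * k ^ 2 + 6 * k + 1 + up k := by
  have h1 := up_nonneg k
  rcases le_or_gt 0 k with h | h
  · nlinarith
  · nlinarith

theorem dis : S_DIS := by
  unfold S_DIS
  have hp := Q279.QS.pentagonal
  have hc : TS (te 1 2) (fun n : ℤ => (-1 : ℤ) ^ n.natAbs) = TS (te 1 2) (fun n : ℤ => sg n) :=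
    TS_congr (fun _ => rfl) neg_one_pow_natAbs
  rw [hc] at hp
  have h25 : eul 25 = TS (fun k : ℤ => 25 * te 1 2 k) (fun k => sg k) := by
    have h := congrArg (expand 25 (by norm_num)) hp
    rw [expand_eul _ le_rfl, expand_TS] at h
    norm_num at h
    exact h
  have haa : e5 aa = TS (fun k : ℤ => 5 * (7 * k ^ 2 + up k)) (fun k => sg k)
      - TS (fun k : ℤ => 5 * (7 * k ^ 2 + 9 * k + 3 + up k)) (fun k => sg k) := by
    rw [aa, e5, map_sub, expand_TS, expand_TS]
    congr 1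
    · exact TS_congr (fun k => by rw [half1]; norm_num) fun _ => rfl
    · exact TS_congr (fun k => by rw [half2]; norm_num) fun _ => rfl
  have hbb : e5 bb = TS (fun k : ℤ => 5 * (7 * k ^ 2 + 3 * k + up k)) (fun k => sg k)
      - TS (fun k : ℤ => 5 * (7 * k ^ 2 + 6 * k + 1 + up k)) (fun k => sg k) := by
    rw [bb, e5, map_sub, expand_TS, expand_TS]
    congr 1
    · exact TS_congr (fun k => by rw [half3]; norm_num) fun _ => rfl
    · exact TS_congr (fun k => by rw [half4]; norm_num) fun _ => rfl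
  have hX25 : X * eul 25 = TS (fun k : ℤ => 25 * te 1 2 k + 1) (fun k => sg k) := by
    rw [h25, X_mul_TS fun i => mul_nonneg (by norm_num) (te_nonneg 1 2 i)]
  have hXb : X ^ 2 * e5 bb
      = TS (fun k : ℤ => 5 * (7 * k ^ 2 + 3 * k + up k) + 1 + 1) (fun k => sg k)
      - TS (fun k : ℤ => 5 * (7 * k ^ 2 + 6 * k + 1 + up k) + 1 + 1) (fun k => sg k) := by
    have e : X ^ 2 * e5 bb = X * (X * e5 bb) := by ring
    rw [e, hbb, mul_sub, mul_sub, X_mul_TS, X_mul_TS, X_mul_TS, X_mul_TS]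
    · intro k
      have := nn4 k
      linarith
    · intro k
      have := nn4 k
      linarith
    · intro k
      have := nn3 k
      linarith
    · intro k
      have := nn3 k
      linarith
  have hs5 : ∀ k : ℤ, sg (5 * k) = sg k := by
    intro k
    have : (5 : ℤ) * k = 2 * (2 * k) + k := by ring
    rw [this, sg_add, sg_two_mul, one_mul]
  have hs3 : sg 3 = -1 := by
    have : (3 : ℤ) = 2 * 1 + 1 := by norm_num
    rw [this, sg_add, sg_two_mul, sg_one]
    norm_num
  have hs2 : sg 2 = 1 := by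
    have : (2 : ℤ) = 2 * 1 := by norm_num
    rw [this, sg_two_mul]
  rw [hp, TS_ph (FF_te le_rfl (by norm_num)), haa, hX25, hXb]
  have g1 : TS (fun k : ℤ => te 1 2 (-(5 * k))) (fun k => sg (-(5 * k)))
      = TS (fun k : ℤ => 5 * (7 * k ^ 2 + up k)) (fun k => sg k) := by
    refine TS_congr (fun k => ?_) fun k => ?_
    · have e1 := two_tri (-(5 * k))
      have e2' := two_up k
      unfold te
      push_cast
      linarith
    · rw [sg_neg, hs5]
  have g2 : TS (fun k : ℤ => te 1 2 (-(5 * k + 3))) (fun k => sg (-(5 * k + 3)))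
      = -TS (fun k : ℤ => 5 * (7 * k ^ 2 + 9 * k + 3 + up k)) (fun k => sg k) := by
    rw [← TS_neg]
    refine TS_congr (fun k => ?_) fun k => ?_
    · have e1 := two_tri (-(5 * k + 3))
      have e2' := two_up k
      unfold te
      push_cast
      linarith
    · rw [sg_neg, sg_add, hs5, hs3]
      ring
  have g3 : TS (fun k : ℤ => te 1 2 (-(5 * k - 1))) (fun k => sg (-(5 * k - 1)))
      = -TS (fun k : ℤ => 25 * te 1 2 k + 1) (fun k => sg k) := by
    rw [← TS_neg]
    refine TS_congr (fun k => ?_) fun k => ?_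
    · have e1 := two_tri (-(5 * k - 1))
      have e2' := two_tri k
      unfold te
      push_cast
      linarith
    · rw [sg_neg, sg_sub, hs5, sg_one]
      ring
  have g4 : TS (fun k : ℤ => te 1 2 (-(5 * k + 1))) (fun k => sg (-(5 * k + 1)))
      = -TS (fun k : ℤ => 5 * (7 * k ^ 2 + 3 * k + up k) + 1 + 1) (fun k => sg k) := by
    rw [← TS_neg]
    refine TS_congr (fun k => ?_) fun k => ?_
    · have e1 := two_tri (-(5 * k + 1))
      have e2' := two_up k
      unfold te
      push_cast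
      linarith
    · rw [sg_neg, sg_add, hs5, sg_one]
      ring
  have g5 : TS (fun k : ℤ => te 1 2 (-(5 * k + 2))) (fun k => sg (-(5 * k + 2)))
      = TS (fun k : ℤ => 5 * (7 * k ^ 2 + 6 * k + 1 + up k) + 1 + 1) (fun k => sg k) := by
    refine TS_congr (fun k => ?_) fun k => ?_
    · have e1 := two_tri (-(5 * k + 2))
      have e2' := two_up k
      unfold te
      push_cast
      linarith
    · rw [sg_neg, sg_add, hs5, hs2]
      ring
  rw [g1, g2, g3, g4, g5]
  ring

end Q201.RC
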