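import Pool.Agent.Q201.RC.Stm

/-! # Project RC: jobs RC-5, RC-11 -/

set_option autoImplicit false

namespace Q201.RC

open PowerSeries Q279.QS
open scoped PowerSeries.WithPiTopology

theorem e5_eul {j : ℕ} (hj : 1 ≤ j) : e5 (eul j) = eul (5 * j) := expand_eul (by norm_num) hj

theorem f1 : S_F1 := by
  intro hP hD hA hB
  obtain ⟨-, -, hT, -⟩ := hP
  have h1 := congrArg (e5 (R := ℤ)) hT
  have h2 := congrArg (e5 (R := ℤ)) hA
  have h3 := congrArg (e5 (R := ℤ)) hB
  rw [map_mul, map_mul, e5_eul le_rfl, e5_eul (by norm_num)] at h1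
  rw [map_mul, map_mul, e5_eul (by norm_num)] at h2 h3
  norm_num at h1 h2 h3
  refine mul_left_cancel₀ (eul_ne_zero (k := 25) (by norm_num)) ?_
  unfold S_DIS at hD
  linear_combination (e5 T1 * e5 T2) * hD - (eul 1 + X * eul 25) * h1 + X * eul 25 * h1 + e5 T2 * h2 - X ^ 2 * e5 T1 * h3 

end Q201.RC
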