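import Pool.Agent.Q201.RC.Stm

set_option autoImplicit false

/-!
# Project RC: job RC-6, the norm over the fifth roots of unity
-/

namespace Pool.Agent.Q201.RCF2

open PowerSeries Q201.RC Q279.QS Filter Topology
open scoped PowerSeries.WithPiTopology

theorem id1 {R : Type*} [CommRing R] (z T : R) (h : 1 + z + z ^ 2 + z ^ 3 + z ^ 4 = 0) :
    (1 - T) * (1 - z * T) * (1 - z ^ 2 * T) * (1 - z ^ 3 * T) * (1 - z ^ 4 * T) = 1 - T ^ 5 := by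
  linear_combination ((-1) * T ^ 1 + (1) * T ^ 5 + (1) * z ^ 1 * T ^ 2 + (-1) * z ^ 1 * T ^ 5 + (1) * z ^ 3 * T ^ 2 + (-1) * z ^ 3 * T ^ 3 + (-1) * z ^ 5 * T ^ 3 + (1) * z ^ 5 * T ^ 5 + (1) * z ^ 6 * T ^ 4 + (-1) * z ^ 6 * T ^ 5) * h

theorem id2 {R : Type*} [CommRing R] (z b y : R) (h : 1 + z + z ^ 2 + z ^ 3 + z ^ 4 = 0) :
    (b ^ 2 - y * b - y ^ 2) * (b ^ 2 - z * y * b - z ^ 2 * y ^ 2) *
      (b ^ 2 - z ^ 2 * y * b - z ^ 4 * y ^ 2) * (b ^ 2 - z ^ 3 * y * b - z ^ 6 * y ^ 2) *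
      (b ^ 2 - z ^ 4 * y * b - z ^ 8 * y ^ 2) = b ^ 10 - 11 * (b ^ 5 * y ^ 5) - y ^ 10 := by
  linear_combination ((1) * y ^ 10 + (11) * b ^ 5 * y ^ 5 + (-1) * b ^ 8 * y ^ 2 + (-1) * b ^ 9 * y ^ 1 + (-1) * z ^ 1 * y ^ 10 + (-11) * z ^ 1 * b ^ 5 * y ^ 5 + (1) * z ^ 1 * b ^ 7 * y ^ 3 + (2) * z ^ 1 * b ^ 8 * y ^ 2 + (1) * z ^ 2 * b ^ 6 * y ^ 4 + (1) * z ^ 2 * b ^ 7 * y ^ 3 + (-1) * z ^ 2 * b ^ 8 * y ^ 2 + (-2) * z ^ 3 * b ^ 6 * y ^ 4 + (-2) * z ^ 3 * b ^ 7 * y ^ 3 + (2) * z ^ 3 * b ^ 8 * y ^ 2 + (-1) * z ^ 4 * b ^ 5 * y ^ 5 + (2) * z ^ 4 * b ^ 7 * y ^ 3 + (-1) * z ^ 4 * b ^ 8 * y ^ 2 + (1) * z ^ 5 * y ^ 10 + (10) * z ^ 5 * b ^ 5 * y ^ 5 + (-3) * z ^ 5 * b ^ 6 * y ^ 4 + (-2) * z ^ 5 * b ^ 7 * y ^ 3 + (-1) * z ^ 6 * y ^ 10 + (-1) * z ^ 6 * b ^ 4 * y ^ 6 + (-10) * z ^ 6 * b ^ 5 * y ^ 5 + (5) * z ^ 6 * b ^ 6 * y ^ 4 + (1) * z ^ 6 * b ^ 7 * y ^ 3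 + (2) * z ^ 7 * b ^ 4 * y ^ 6 + (1) * z ^ 7 * b ^ 5 * y ^ 5 + (-3) * z ^ 7 * b ^ 6 * y ^ 4 + (1) * z ^ 7 * b ^ 7 * y ^ 3 + (1) * z ^ 9 * b ^ 3 * y ^ 7 + (3) * z ^ 9 * b ^ 4 * y ^ 6 + (1) * z ^ 9 * b ^ 5 * y ^ 5 + (-2) * z ^ 9 * b ^ 6 * y ^ 4 + (1) * z ^ 10 * y ^ 10 + (1) * z ^ 10 * b ^ 3 * y ^ 7 + (-5) * z ^ 10 * b ^ 4 * y ^ 6 + (1) * z ^ 10 * b ^ 5 * y ^ 5 + (1) * z ^ 10 * b ^ 6 * y ^ 4 + (-1) * z ^ 11 * y ^ 10 + (-2) * z ^ 11 * b ^ 3 * y ^ 7 + (3) * z ^ 11 * b ^ 4 * y ^ 6 + (-1) * z ^ 11 * b ^ 5 * y ^ 5 + (1) * z ^ 12 * b ^ 2 * y ^ 8 + (2) * z ^ 12 * b ^ 3 * y ^ 7 + (-1) * z ^ 12 * b ^ 5 * y ^ 5 + (-2) * z ^ 13 * b ^ 2 * y ^ 8 + (-2) * z ^ 13 * b ^ 3 * y ^ 7 + (2) * z ^ 13 * b ^ 4 * y ^ 6 + (1) * z ^ 14 * b ^ 2 * y ^ 8 + (1) * z ^ 14 * b ^ 3 * y ^ 7 + (-1) * z ^ 14 * b ^ 4 * y ^ 6 + (1) * z ^ 15 * y ^ 10 + (-2) * z ^ 15 * b ^ 2 * y ^ 8 +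 (1) * z ^ 15 * b ^ 3 * y ^ 7 + (-1) * z ^ 16 * y ^ 10 + (-1) * z ^ 16 * b ^ 1 * y ^ 9 + (1) * z ^ 16 * b ^ 2 * y ^ 8) * h

/-- from `ℤ` to `ℂ` -/
noncomputable abbrev ph : ℤ⟦X⟧ →+* ℂ⟦X⟧ := PowerSeries.map (Int.castRingHom ℂ)

theorem cont_ph : Continuous ph := by
  refine continuous_iff_continuousAt.2 fun f => ?_
  refine (WithPiTopology.tendsto_iff_coeff_tendsto ℂ _ _ _).2 fun d => ?_
  simp_rw [coeff_map]
  exact ((continuous_of_discreteTopology (f := Int.castRingHom ℂ)).comp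
    (WithPiTopology.continuous_coeff ℤ d)).tendsto _

theorem cont_resc (a : ℂ) : Continuous (rescale (R := ℂ) a) := by
  refine continuous_iff_continuousAt.2 fun f => ?_
  refine (WithPiTopology.tendsto_iff_coeff_tendsto ℂ _ _ _).2 fun d => ?_
  simp_rw [coeff_rescale]
  exact (continuous_const.mul (WithPiTopology.continuous_coeff ℂ _)).tendsto _

theorem resc_X (a : ℂ) : rescale a (X : ℂ⟦X⟧) = C a * X := by
  ext n
  rw [coeff_rescale, coeff_C_mul, coeff_X]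
  split_ifs with h
  · rw [h, pow_one]
  · simp

theorem ph_inj : Function.Injective ph := PowerSeries.map_injective _ Int.cast_injective

/-- series in `X^5` are fixed -/
theorem resc_e5 (a : ℂ) (ha : a ^ 5 = 1) (F : ℤ⟦X⟧) : rescale a (ph (e5 F)) = ph (e5 F) := by
  ext n
  rw [coeff_rescale, coeff_map, coeff_expand]
  split_ifs with h
  · obtain ⟨m, rfl⟩ := h
    rw [pow_mul, ha, one_pow, one_mul]
  · simp

/-- the finite product -/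
noncomputable def Pf (k N : ℕ) : ℂ⟦X⟧ := ∏ i ∈ Finset.range N, (1 - X ^ (k * (i + 1)))

theorem tend (k : ℕ) (hk : 1 ≤ k) : Tendsto (fun N => Pf k N) atTop (𝓝 (ph (eul k))) := by
  have h1 := (mult_eul k hk).hasProd.tendsto_prod_nat
  have h2 := (cont_ph.tendsto (eul k)).comp h1
  refine h2.congr fun N => ?_
  simp [Pf, map_prod]

noncomputable def Nm (ζ : ℂ) (F : ℂ⟦X⟧) : ℂ⟦X⟧ :=
  F * rescale ζ F * rescale (ζ ^ 2) F * rescale (ζ ^ 3) F * rescale (ζ ^ 4) F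

theorem Nm_mul (ζ : ℂ) (F G : ℂ⟦X⟧) : Nm ζ (F * G) = Nm ζ F * Nm ζ G := by
  unfold Nm
  simp only [map_mul]
  ring

theorem resc_fac (a : ℂ) (n : ℕ) : rescale a (1 - X ^ n : ℂ⟦X⟧) = 1 - C (a ^ n) * X ^ n := by
  rw [map_sub, map_one, map_pow, resc_X, mul_pow, ← map_pow]

theorem Nm_fac (ζ : ℂ) (h5 : ζ ^ 5 = 1) (hζ : ∀ n : ℕ, ¬ 5 ∣ n →
    1 + ζ ^ n + (ζ ^ n) ^ 2 + (ζ ^ n) ^ 3 + (ζ ^ n) ^ 4 = 0) (n : ℕ) :
    Nm ζ (1 - X ^ n) = if 5 ∣ n then (1 - X ^ n) ^ 5 else 1 - X ^ (5 * n) := by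
  unfold Nm
  simp only [resc_fac]
  split_ifs with h
  · obtain ⟨m, rfl⟩ := h
    have e : ∀ j : ℕ, (ζ ^ j) ^ (5 * m) = 1 := by
      intro j
      rw [← pow_mul, show j * (5 * m) = 5 * (j * m) by ring, pow_mul, h5, one_pow]
    have e1 := e 1
    rw [pow_one] at e1
    rw [e1, e 2, e 3, e 4, map_one]
    ring
  · have hz := congrArg (C (R := ℂ)) (hζ n h)
    simp only [map_add, map_pow, map_one, map_zero] at hz
    have hz' : 1 + C ζ ^ n + (C ζ ^ n) ^ 2 + (C ζ ^ n) ^ 3 + (C ζ ^ n) ^ 4 = (0 : ℂ⟦X⟧) := hz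
    have := id1 (C ζ ^ n) (X ^ n : ℂ⟦X⟧) hz'
    simp only [map_pow]
    rw [pow_mul' X 5 n] at *
    rw [← this]
    ring

theorem fin_id (ζ : ℂ) (h5 : ζ ^ 5 = 1) (hζ : ∀ n : ℕ, ¬ 5 ∣ n →
    1 + ζ ^ n + (ζ ^ n) ^ 2 + (ζ ^ n) ^ 3 + (ζ ^ n) ^ 4 = 0) (K : ℕ) :
    Nm ζ (Pf 1 (5 * K)) * Pf 25 K = Pf 5 (5 * K) * Pf 5 K ^ 5 := by
  induction K with
  | zero => simp [Pf, Nm]
  | succ K ih =>
    have e1 : Pf 1 (5 * (K + 1)) = Pf 1 (5 * K) * (1 - X ^ (5 * K + 1)) * (1 - X ^ (5 * K + 2)) *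
        (1 - X ^ (5 * K + 3)) * (1 - X ^ (5 * K + 4)) * (1 - X ^ (5 * K + 5)) := by
      unfold Pf
      rw [show 5 * (K + 1) = 5 * K + 1 + 1 + 1 + 1 + 1 by ring]
      simp only [Finset.prod_range_succ]
      simp only [one_mul]
    have e2 : Pf 5 (5 * (K + 1)) = Pf 5 (5 * K) * (1 - X ^ (5 * (5 * K + 1))) *
        (1 - X ^ (5 * (5 * K + 2))) * (1 - X ^ (5 * (5 * K + 3))) * (1 - X ^ (5 * (5 * K + 4))) *
        (1 - X ^ (5 * (5 * K + 5))) := by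
      unfold Pf
      rw [show 5 * (K + 1) = 5 * K + 1 + 1 + 1 + 1 + 1 by ring]
      simp only [Finset.prod_range_succ]
    have e3 : Pf 25 (K + 1) = Pf 25 K * (1 - X ^ (5 * (5 * K + 5))) := by
      unfold Pf
      rw [Finset.prod_range_succ, show 25 * (K + 1) = 5 * (5 * K + 5) by ring]
    have e4 : Pf 5 (K + 1) = Pf 5 K * (1 - X ^ (5 * K + 5)) := by
      unfold Pf
      rw [Finset.prod_range_succ, show 5 * (K + 1) = 5 * K + 5 by ring]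
    rw [e1, e2, e3, e4]
    simp only [Nm_mul, Nm_fac ζ h5 hζ]
    rw [if_neg (by omega), if_neg (by omega), if_neg (by omega), if_neg (by omega),
      if_pos (by omega)]
    linear_combination ((1 - X ^ (5 * (5 * K + 1))) * (1 - X ^ (5 * (5 * K + 2))) *
      (1 - X ^ (5 * (5 * K + 3))) * (1 - X ^ (5 * (5 * K + 4))) * (1 - X ^ (5 * K + 5)) ^ 5 *
      (1 - X ^ (5 * (5 * K + 5)))) * ih

theorem norm_id (ζ : ℂ) (h5 : ζ ^ 5 = 1) (hζ : ∀ n : ℕ, ¬ 5 ∣ n →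
    1 + ζ ^ n + (ζ ^ n) ^ 2 + (ζ ^ n) ^ 3 + (ζ ^ n) ^ 4 = 0) :
    Nm ζ (ph (eul 1)) * ph (eul 25) = ph (eul 5) ^ 6 := by
  have hK : Tendsto (fun K : ℕ => 5 * K) atTop atTop :=
    tendsto_atTop_mono (fun K => by simp only [id]; omega) tendsto_id
  have t1 := (tend 1 le_rfl).comp hK
  have t5 := (tend 5 (by norm_num)).comp hK
  have t5' := tend 5 (by norm_num)
  have t25 := tend 25 (by norm_num)
  have hr : ∀ a : ℂ, Tendsto (fun K => rescale a (Pf 1 (5 * K))) atTop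
      (𝓝 (rescale a (ph (eul 1)))) := fun a => ((cont_resc a).tendsto _).comp t1
  have hL : Tendsto (fun K => Nm ζ (Pf 1 (5 * K)) * Pf 25 K) atTop
      (𝓝 (Nm ζ (ph (eul 1)) * ph (eul 25))) :=
    ((((t1.mul (hr ζ)).mul (hr (ζ ^ 2))).mul (hr (ζ ^ 3))).mul (hr (ζ ^ 4))).mul t25
  have hR : Tendsto (fun K => Pf 5 (5 * K) * Pf 5 K ^ 5) atTop
      (𝓝 (ph (eul 5) * ph (eul 5) ^ 5)) := t5.mul (t5'.pow 5)
  have h := tendsto_nhds_unique (hL.congr fun K => fin_id ζ h5 hζ K) hR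
  rw [h]
  ring

theorem f2 : S_F2 := by
  intro _ hF1
  obtain ⟨ζ, h5, hζ⟩ : ∃ ζ : ℂ, ζ ^ 5 = 1 ∧ ∀ n : ℕ, ¬ 5 ∣ n →
      1 + ζ ^ n + (ζ ^ n) ^ 2 + (ζ ^ n) ^ 3 + (ζ ^ n) ^ 4 = 0 := by
    have hp := Complex.isPrimitiveRoot_exp 5 (by norm_num)
    refine ⟨_, hp.pow_eq_one, fun n hn => ?_⟩
    have hc : Nat.Coprime n 5 := ((Nat.prime_five.coprime_iff_not_dvd).2 hn).symm
    have h1 := (hp.pow_of_coprime n hc).geom_sum_eq_zero (by norm_num)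
    rw [Finset.sum_range_succ, Finset.sum_range_succ, Finset.sum_range_succ, Finset.sum_range_succ,
      Finset.sum_range_succ, Finset.sum_range_zero] at h1
    rw [← h1]
    ring
  have e1 : e5 (eul 1) = eul 5 := by
    have := expand_eul (k := 5) (by norm_num) (j := 1) le_rfl
    simpa using this
  have e25 : e5 (eul 5) = eul 25 := by
    have := expand_eul (k := 5) (by norm_num) (j := 5) (by norm_num)
    simpa using this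
  have hn := norm_id ζ h5 hζ
  set a := ph (e5 T1)
  set b := ph (e5 T2)
  set y := (X : ℂ⟦X⟧) * a with hy
  set E := ph (eul 1)
  have hE5 : ph (eul 5) = ph (e5 (eul 1)) := by rw [e1]
  set E5 := ph (eul 5)
  have h0 : E * E5 = b ^ 2 - y * b - y ^ 2 := by
    have := congrArg ph hF1
    simp only [map_mul, map_sub, map_pow] at this
    have hX : ph X = X := PowerSeries.map_X _
    rw [hX] at this
    rw [hy]
    linear_combination this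
  have hj : ∀ j : ℕ, rescale (ζ ^ j) E * E5 = b ^ 2 - C ζ ^ j * y * b - (C ζ ^ j) ^ 2 * y ^ 2 := by
    intro j
    have hj5 : (ζ ^ j) ^ 5 = 1 := by rw [← pow_mul, mul_comm, pow_mul, h5, one_pow]
    have h1 := congrArg (rescale (ζ ^ j)) h0
    have r1 : rescale (ζ ^ j) b = b := resc_e5 _ hj5 _
    have r2 : rescale (ζ ^ j) a = a := resc_e5 _ hj5 _
    have r3 : rescale (ζ ^ j) E5 = E5 := by
      rw [hE5]; exact resc_e5 _ hj5 _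
    have r4 : rescale (ζ ^ j) y = C ζ ^ j * X * a := by
      rw [hy, map_mul, r2, resc_X, map_pow]
    rw [map_mul, map_sub, map_sub, map_pow, map_mul, map_pow, r1, r3, r4] at h1
    rw [hy]
    linear_combination h1
  have hz := congrArg (C (R := ℂ)) (hζ 1 (by norm_num))
  simp only [map_add, map_pow, map_one, map_zero, pow_one] at hz
  have h6 := id2 (C ζ) b y hz
  have j1 := hj 1
  have j2 := hj 2
  have j3 := hj 3
  have j4 := hj 4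
  rw [pow_one] at j1
  rw [pow_one] at j1
  have h7 : Nm ζ E * E5 ^ 5 = b ^ 10 - 11 * (b ^ 5 * y ^ 5) - y ^ 10 := by
    rw [← h6]
    calc Nm ζ E * E5 ^ 5 = (E * E5) * (rescale ζ E * E5) * (rescale (ζ ^ 2) E * E5) *
          (rescale (ζ ^ 3) E * E5) * (rescale (ζ ^ 4) E * E5) := by unfold Nm; ring
      _ = _ := by rw [h0, j1, j2, j3, j4]; ring
  have h8 : ph (eul 25) * (b ^ 10 - 11 * (b ^ 5 * y ^ 5) - y ^ 10) = E5 ^ 11 := by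
    rw [← h7]
    linear_combination (E5 ^ 5) * hn
  have hei : Function.Injective (e5 : ℤ⟦X⟧ →ₐ[ℤ] ℤ⟦X⟧) := by
    intro F G h
    ext n
    have := congrArg (coeff (5 * n)) h
    rw [coeff_expand, coeff_expand, if_pos (dvd_mul_right _ _), if_pos (dvd_mul_right _ _),
      Nat.mul_div_cancel_left _ (by norm_num)] at this
    exact this
  apply hei
  apply ph_inj
  simp only [map_mul, map_sub, map_pow, e1, e25, expand_X]
  have hX : ph X = X := PowerSeries.map_X _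
  have h11 : ph (e5 (11 : ℤ⟦X⟧)) = 11 := by rw [map_ofNat, map_ofNat]
  rw [hX, h11]
  rw [hy] at h8
  linear_combination h8

end Pool.Agent.Q201.RCF2
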