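import Pool.Agent.Q201.RC.F1

/-! # Project RC: job RC-11 -/

set_option autoImplicit false

namespace Q201.RC

open PowerSeries Q279.QS
open scoped PowerSeries.WithPiTopology

theorem FF_five_sq : FF fun n : ℤ => 5 * n ^ 2 := fun m =>
  (Set.finite_Icc (-(m.natAbs : ℤ)) m.natAbs).subset fun n hn => by
    simp only [Set.mem_ofPred_eq] at hn
    rw [Set.mem_Icc]
    have h1 : n ≤ n ^ 2 := by nlinarith [Int.le_self_sq n]
    have h2 : -n ≤ n ^ 2 := by nlinarith [Int.le_self_sq (-n)]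
    have h3 := sq_nonneg n
    omega

theorem ph5_ne : ph5 ≠ 0 := by
  intro h
  have h1 : coeff 0 ph5 = 1 := by
    rw [ph5, coeff_TS' FF_five_sq]
    have : (FF_five_sq ((0 : ℕ) : ℤ)).toFinset = {0} := by
      ext n
      simp
    rw [this, Finset.sum_singleton, sg_zero]
  rw [h, map_zero] at h1
  norm_num at h1

theorem Rq_mul (h : constantCoeff T2 = 1) : Rq * T2 = T1 := by
  rw [Rq, mul_assoc, mul_comm (invOfUnit _ _), mul_invOfUnit, mul_one]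
  simp [h]

theorem ne_zero_of_const {F : ℤ⟦X⟧} (h : constantCoeff F = 1) : F ≠ 0 := by
  intro h0
  rw [h0, map_zero] at h
  norm_num at h

theorem e2_e5 (F : ℤ⟦X⟧) : e2 (e5 F) = e5 (e2 F) := by
  rw [← expand_mul, ← expand_mul]

theorem f3 : S_F3 := by
  intro hP hA hB hC
  obtain ⟨-, -, -, hc1, hc2, -⟩ := hP
  obtain ⟨a1, a2⟩ := hA
  obtain ⟨b1, b2⟩ := hB
  unfold S_F3C at hC
  have hR := Rq_mul hc2
  have hR2 : e2 Rq * e2 T2 = e2 T1 := by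
    rw [← map_mul, hR]
  have ht2 : e2 T2 ≠ 0 := ne_zero_of_const (by rw [constantCoeff_expand, hc2])
  have hT2 : T2 ≠ 0 := ne_zero_of_const hc2
  have h1 : ph5 * (e2 T1 * T2 ^ 2 - e2 T2 * T1 ^ 2) = T1 * T2 * (2 * X * e2 T1 * K1) := by
    rw [← a1]
    linear_combination T2 ^ 2 * b1 - T1 ^ 2 * b2
  have h2 : ph5 * (e2 T1 * T2 ^ 2 + e2 T2 * T1 ^ 2) = T1 * T2 * (2 * e2 T2 * K3) := by
    rw [← a2]
    linear_combination T2 ^ 2 * b1 + T1 ^ 2 * b2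
  have h3 : e2 T2 ^ 2 * T2 * (e2 T1 * T2 ^ 2 - e2 T2 * T1 ^ 2)
      = X * T1 * e2 T1 ^ 2 * (e2 T1 * T2 ^ 2 + e2 T2 * T1 ^ 2) := by
    refine mul_left_cancel₀ ph5_ne ?_
    linear_combination (e2 T2 ^ 2 * T2) * h1 - (X * T1 * e2 T1 ^ 2) * h2
      + (T1 * T2 * 2 * X * e2 T1 * e2 T2) * hC
  have h4 : e2 Rq - Rq ^ 2 = X * Rq * e2 Rq ^ 2 * (e2 Rq + Rq ^ 2) := by
    refine mul_left_cancel₀ (mul_ne_zero (pow_ne_zero 3 ht2) (pow_ne_zero 3 hT2)) ?_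
    rw [← hR2, ← hR] at h3
    linear_combination h3
  have h5 := congrArg (e5 (R := ℤ)) h4
  simp only [map_sub, map_mul, map_add, map_pow, expand_X] at h5
  have hx : e2 xq = X ^ 2 * e5 (e2 Rq) := by
    rw [xq, map_mul, expand_X, e2_e5]
  rw [hx, xq]
  linear_combination X ^ 2 * h5

end Q201.RC
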