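import Pool.Agent.Q201.RC.F3

/-! # Project RC: jobs RC-8, RC-9 -/

set_option autoImplicit false

namespace Q201.RC

open PowerSeries Q279.QS
open scoped PowerSeries.WithPiTopology

theorem X_mul_TS {ι : Type} {e : ι → ℤ} (h0 : ∀ i, 0 ≤ e i) (c : ι → ℤ) :
    X * TS e c = TS (fun i => e i + 1) c := by
  classical
  ext n
  cases n with
  | zero =>
    rw [coeff_zero_X_mul, coeff_TS_of_zero]
    intro i hi
    have := h0 i
    push_cast at hi
    omega
  | succ n =>
    rw [mul_comm, coeff_succ_mul_X, coeff_TS, coeff_TS]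
    refine finsum_congr fun i => if_congr ?_ rfl rfl
    push_cast
    constructor <;> intro h <;> linarith

/-- the change of variables -/
def psi : (ℤ × ℤ) ⊕ (ℤ × ℤ) → ℤ × ℤ
  | Sum.inl p => (p.1 + p.2, p.1 - p.2)
  | Sum.inr p => (-p.1 - p.2 - 1, p.2 - p.1)

theorem psi_bij : Function.Bijective psi := by
  constructor
  · rintro (⟨t, j⟩ | ⟨t, j⟩) (⟨t', j'⟩ | ⟨t', j'⟩) h <;>
      simp only [psi, Prod.mk.injEq] at h
    · obtain ⟨h1, h2⟩ := h
      have : t = t' := by omega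
      have : j = j' := by omega
      simp [*]
    · exfalso; omega
    · exfalso; omega
    · obtain ⟨h1, h2⟩ := h
      have : t = t' := by omega
      have : j = j' := by omega
      simp [*]
  · rintro ⟨i, j⟩
    have h3 : (i + j) % 2 = 0 ∨ (i + j) % 2 = 1 := by omega
    rcases h3 with h | h
    · refine ⟨Sum.inl ((i + j) / 2, (i - j) / 2), ?_⟩
      simp only [psi, Prod.mk.injEq]
      omega
    · refine ⟨Sum.inr (-(i + j + 1) / 2, (j - i - 1) / 2), ?_⟩
      simp only [psi, Prod.mk.injEq]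
      omega

/-- splitting a double series by parity of the sum of the indices -/
theorem TS_psi {e : ℤ × ℤ → ℤ} (he : FF e) (c : ℤ × ℤ → ℤ) :
    TS e c = TS (fun p : ℤ × ℤ => e (p.1 + p.2, p.1 - p.2)) (fun p => c (p.1 + p.2, p.1 - p.2)) +
      TS (fun p : ℤ × ℤ => e (-p.1 - p.2 - 1, p.2 - p.1))
        (fun p => c (-p.1 - p.2 - 1, p.2 - p.1)) := by
  rw [← TS_equiv (Equiv.ofBijective psi psi_bij)]
  have hFF2 : FF fun k => e ((Equiv.ofBijective psi psi_bij) k) :=
    he.comp_injective psi_bij.1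
  rw [TS_sum_type hFF2]
  rfl

theorem e2_T1 : e2 T1 = TS (fun n : ℤ => 5 * n ^ 2 + 3 * n) (fun n => sg n) := by
  rw [T1, e2, expand_TS]
  refine TS_congr (fun n => ?_) fun n => rfl
  have := two_tri n
  unfold te
  push_cast
  linarith

theorem e2_T2 : e2 T2 = TS (fun n : ℤ => 5 * n ^ 2 + n) (fun n => sg n) := by
  rw [T2, e2, expand_TS]
  refine TS_congr (fun n => ?_) fun n => rfl
  have := two_tri n
  unfold te
  push_cast
  linarith

theorem K1_eq : K1 = TS (fun n : ℤ => 5 * n ^ 2 + 4 * n) (fun n => sg n) := by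
  rw [K1]
  refine TS_congr (fun n => ?_) fun n => rfl
  have := two_tri n
  unfold te
  push_cast
  linarith

theorem K3_eq : K3 = TS (fun n : ℤ => 5 * n ^ 2 + 2 * n) (fun n => sg n) := by
  rw [K3]
  refine TS_congr (fun n => ?_) fun n => rfl
  have := two_tri n
  unfold te
  push_cast
  linarith

theorem FF_quad (b : ℤ) (hb : 0 ≤ b) (hb' : b ≤ 4) : FF fun n : ℤ => 5 * n ^ 2 + b * n := fun m =>
  (Set.finite_Icc (-(m.natAbs : ℤ)) m.natAbs).subset fun n hn => by
    simp only [Set.mem_ofPred_eq] at hn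
    rw [Set.mem_Icc]
    have h1 : n ≤ 5 * n ^ 2 + b * n := by
      rcases le_or_gt 0 n with h | h
      · nlinarith [mul_nonneg hb h]
      · nlinarith [mul_nonneg hb (neg_nonneg.2 h.le), mul_nonneg (sub_nonneg.2 hb') (neg_nonneg.2 h.le)]
    have h2 : -n ≤ 5 * n ^ 2 + b * n := by
      rcases le_or_gt 0 n with h | h
      · nlinarith [mul_nonneg hb h]
      · nlinarith [mul_nonneg hb (neg_nonneg.2 h.le), mul_nonneg (sub_nonneg.2 hb') (neg_nonneg.2 h.le)]
    omega

theorem quad_nonneg (b : ℤ) (hb : 0 ≤ b) (hb' : b ≤ 4) (n : ℤ) : 0 ≤ 5 * n ^ 2 + b * n := by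
  rcases le_or_gt 0 n with h | h
  · nlinarith [mul_nonneg hb h]
  · nlinarith [mul_nonneg hb (neg_nonneg.2 h.le), mul_nonneg (sub_nonneg.2 hb') (neg_nonneg.2 h.le)]

theorem FF41 : FF (te 4 1) := FF_te (by norm_num) le_rfl
theorem FF32 : FF (te 3 2) := FF_te (by norm_num) (by norm_num)

theorem f3a : S_F3A := by
  have hFF : FF (fun p : ℤ × ℤ => te 4 1 p.1 + te 3 2 p.2) :=
    FF41.add FF32 (te_nonneg 4 1) (te_nonneg 3 2)
  have hA : G1 * T2 = TS (fun p : ℤ × ℤ => te 4 1 p.1 + te 3 2 p.2) (fun p => sg p.2) := by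
    rw [G1, T2, TS_mul FF41 FF32 (te_nonneg 4 1) (te_nonneg 3 2)]
    refine TS_congr (fun _ => rfl) fun p => one_mul _
  have hB : G2 * T1 = TS (fun p : ℤ × ℤ => te 4 1 p.1 + te 3 2 p.2) (fun p => sg p.1) := by
    rw [mul_comm, G2, T1, TS_mul FF41 FF32 (te_nonneg 4 1) (te_nonneg 3 2)]
    refine TS_congr (fun _ => rfl) fun p => mul_one _
  have ev1 : ∀ p : ℤ × ℤ, te 4 1 (p.1 + p.2) + te 3 2 (p.1 - p.2)
      = (5 * p.1 ^ 2 + 2 * p.1) + (5 * p.2 ^ 2 + p.2) := by
    intro p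
    have e1 := two_tri (p.1 + p.2)
    have e2' := two_tri (p.1 - p.2)
    unfold te
    push_cast
    linarith
  have ev2 : ∀ p : ℤ × ℤ, te 4 1 (-p.1 - p.2 - 1) + te 3 2 (p.2 - p.1)
      = (5 * p.1 ^ 2 + 3 * p.1) + (5 * p.2 ^ 2 + 4 * p.2) + 1 := by
    intro p
    have e1 := two_tri (-p.1 - p.2 - 1)
    have e2' := two_tri (p.2 - p.1)
    unfold te
    push_cast
    linarith
  have s1 : ∀ p : ℤ × ℤ, sg (p.1 + p.2) = sg p.1 * sg p.2 := fun p => sg_add _ _
  have s2 : ∀ p : ℤ × ℤ, sg (p.1 - p.2) = sg p.1 * sg p.2 := fun p => sg_sub _ _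
  have s3 : ∀ p : ℤ × ℤ, sg (-p.1 - p.2 - 1) = -(sg p.1 * sg p.2) := by
    intro p
    rw [sg_sub, sg_sub, sg_neg, sg_one]
    ring
  have s4 : ∀ p : ℤ × ℤ, sg (p.2 - p.1) = sg p.1 * sg p.2 := by
    intro p
    rw [sg_sub, mul_comm]
  have one_n : ∀ n : ℤ, 5 * n ^ 2 + n = 5 * n ^ 2 + 1 * n := fun n => by ring
  have F1' : FF fun n : ℤ => 5 * n ^ 2 + n := by
    have := FF_quad 1 (by norm_num) (by norm_num)
    simp only [one_mul] at this
    exact this
  have p1 : ∀ n : ℤ, 0 ≤ 5 * n ^ 2 + n := by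
    intro n
    have := quad_nonneg 1 (by norm_num) (by norm_num) n
    linarith
  have F2' := FF_quad 2 (by norm_num) (by norm_num)
  have F3' := FF_quad 3 (by norm_num) (by norm_num)
  have F4' := FF_quad 4 (by norm_num) (by norm_num)
  have q2 := quad_nonneg 2 (by norm_num) (by norm_num)
  have q3 := quad_nonneg 3 (by norm_num) (by norm_num)
  have q4 := quad_nonneg 4 (by norm_num) (by norm_num)
  have hE : TS (fun p : ℤ × ℤ => te 4 1 (p.1 + p.2) + te 3 2 (p.1 - p.2))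
      (fun p => sg p.1 * sg p.2) = e2 T2 * K3 := by
    rw [mul_comm, e2_T2, K3_eq, TS_mul F2' F1' q2 p1]
    exact TS_congr ev1 fun _ => rfl
  have hO : TS (fun p : ℤ × ℤ => te 4 1 (-p.1 - p.2 - 1) + te 3 2 (p.2 - p.1))
      (fun p => sg p.1 * sg p.2) = X * (e2 T1 * K1) := by
    rw [e2_T1, K1_eq, TS_mul F3' F4' q3 q4, X_mul_TS (fun p => add_nonneg (q3 _) (q4 _))]
    exact TS_congr ev2 fun _ => rfl
  have hA' : G1 * T2 = e2 T2 * K3 + X * (e2 T1 * K1) := by
    rw [hA, TS_psi hFF, ← hE, ← hO]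
    congr 1
    · exact TS_congr (fun _ => rfl) s2
    · exact TS_congr (fun _ => rfl) s4
  have hB' : G2 * T1 = e2 T2 * K3 - X * (e2 T1 * K1) := by
    rw [hB, TS_psi hFF, ← hE, ← hO, sub_eq_add_neg, ← TS_neg]
    congr 1
    · exact TS_congr (fun _ => rfl) s1
    · exact TS_congr (fun _ => rfl) s3
  constructor
  · rw [hA', hB']
    ring
  · rw [hA', hB']
    ring

/-- the odd part cancels -/
theorem odd_cancel (e : ℤ → ℤ) :
    TS (fun p : ℤ × ℤ => e (-p.1 - p.2 - 1) + e (p.2 - p.1)) (fun p => sg (p.2 - p.1)) = 0 := by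
  let τ : ℤ × ℤ ≃ ℤ × ℤ :=
    { toFun := fun p => (p.1, -p.2 - 1)
      invFun := fun p => (p.1, -p.2 - 1)
      left_inv := fun p => by ext <;> simp
      right_inv := fun p => by ext <;> simp }
  set F := TS (fun p : ℤ × ℤ => e (-p.1 - p.2 - 1) + e (p.2 - p.1))
    (fun p => sg (p.2 - p.1)) with hF
  have h1 : F = -F := by
    conv_lhs => rw [hF, ← TS_equiv τ]
    rw [hF, ← TS_neg]
    refine TS_congr (fun p => ?_) fun p => ?_
    · change e (-p.1 - (-p.2 - 1) - 1) + e ((-p.2 - 1) - p.1) = _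
      rw [add_comm]
      congr 2 <;> ring
    · change sg ((-p.2 - 1) - p.1) = _
      rw [sg_sub, sg_sub, sg_sub, sg_neg, sg_one]
      ring
  have h2 : 2 * F = 0 := by linear_combination h1
  exact (mul_eq_zero.1 h2).resolve_left two_ps_ne

theorem f3b : S_F3B := by
  have q0 : ∀ n : ℤ, 0 ≤ 5 * n ^ 2 := fun n => by positivity
  have F1' : FF fun n : ℤ => 5 * n ^ 2 + n := by
    have := FF_quad 1 (by norm_num) (by norm_num)
    simp only [one_mul] at this
    exact this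
  have p1 : ∀ n : ℤ, 0 ≤ 5 * n ^ 2 + n := by
    intro n
    have := quad_nonneg 1 (by norm_num) (by norm_num) n
    linarith
  have F3' := FF_quad 3 (by norm_num) (by norm_num)
  have q3 := quad_nonneg 3 (by norm_num) (by norm_num)
  constructor
  · rw [G1, T1, TS_mul FF41 FF41 (te_nonneg 4 1) (te_nonneg 4 1),
      TS_psi (FF41.add FF41 (te_nonneg 4 1) (te_nonneg 4 1))]
    have h0 : TS (fun p : ℤ × ℤ => te 4 1 (-p.1 - p.2 - 1) + te 4 1 (p.2 - p.1))
        (fun p => 1 * sg (p.2 - p.1)) = 0 := by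
      rw [← odd_cancel (te 4 1)]
      exact TS_congr (fun _ => rfl) fun _ => one_mul _
    rw [h0, add_zero]
    have hT := e2_T1
    rw [T1] at hT
    rw [hT, ph5, TS_mul F3' FF_five_sq q3 q0]
    refine TS_congr (fun p => ?_) fun p => ?_
    · have e1 := two_tri (p.1 + p.2)
      have e2' := two_tri (p.1 - p.2)
      unfold te
      push_cast
      linarith
    · rw [sg_sub, one_mul]
  · rw [G2, T2, TS_mul FF32 FF32 (te_nonneg 3 2) (te_nonneg 3 2),
      TS_psi (FF32.add FF32 (te_nonneg 3 2) (te_nonneg 3 2))]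
    have h0 : TS (fun p : ℤ × ℤ => te 3 2 (-p.1 - p.2 - 1) + te 3 2 (p.2 - p.1))
        (fun p => 1 * sg (p.2 - p.1)) = 0 := by
      rw [← odd_cancel (te 3 2)]
      exact TS_congr (fun _ => rfl) fun _ => one_mul _
    rw [h0, add_zero]
    have hT := e2_T2
    rw [T2] at hT
    rw [hT, ph5, TS_mul F1' FF_five_sq p1 q0]
    refine TS_congr (fun p => ?_) fun p => ?_
    · have e1 := two_tri (p.1 + p.2)
      have e2' := two_tri (p.1 - p.2)
      unfold te
      push_cast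
      linarith
    · rw [sg_sub, one_mul]

end Q201.RC
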