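import Pool.Agent.Q277.RC.Der

set_option autoImplicit false

/-!
# Project RC: job RC-17
-/

namespace Pool.Agent.Q201.RCF5

open PowerSeries Q201.RC Q279.QS Pool.Agent.Q201.RCThtf Pool.Agent.Q277.RC

theorem f5 : S_F5 := by
  intro hP htr hR he hF hT
  obtain ⟨-, -, -, -, cT2, -⟩ := hP
  have e1 : e5 (eul 1) = eul 5 := by
    have := expand_eul (k := 5) (by norm_num) (j := 1) le_rfl
    simpa using this
  have ce : constantCoeff (eul 1) = 1 := constCoeff_eul le_rfl
  constructor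
  · have hF3 := congrArg (red 3) hF
    have he3 := congrArg (red 3) he
    have hT3 := congrArg (red 3) hT
    have e3 := congrArg (red 3) e1
    rw [red_expand] at he3 e3
    simp only [map_mul, map_add, map_sub, map_one, map_pow, map_ofNat] at hT3 hF3 he3
    rw [red_expand] at hT3
    have h3 : (3 : (ZMod 3)⟦X⟧) = 0 := nat_zero 3
    have ct : constantCoeff (red 3 tq) = 0 := by rw [cc_red, cc_tq, Int.cast_zero]
    have cE : constantCoeff (red 3 (eul 1)) = 1 := by rw [cc_red, ce, Int.cast_one]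
    have cT : constantCoeff (red 3 T2) = 1 := by rw [cc_red, cT2, Int.cast_one]
    apply htr (ZMod 3)
    · simp [cT, ct]
    · simp [cE]
    · simp only [map_mul, map_add, map_one, map_pow, he3, e3]
      set x := red 3 xq
      set t := red 3 tq
      set m := 1 + 3 * x + 4 * x ^ 2 + 2 * x ^ 3 + x ^ 4 with hm
      set n := 1 - 2 * x + 4 * x ^ 2 - 3 * x ^ 3 + x ^ 4 with hn
      have hid : m ^ 2 + (x * n) ^ 2 = 1 + x ^ 10 := by
        rw [hm, hn]
        linear_combination (2 * x + 6 * x ^ 2 + 8 * x ^ 3 + 14 * x ^ 4 + 14 * x ^ 6 - 8 * x ^ 7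
          + 6 * x ^ 8 - 2 * x ^ 9) * h3
      calc red 3 T2 ^ 10 * (1 + t ^ 2) * red 3 (eul 5) ^ 6
          = (red 3 T2 ^ 5 * red 3 (eul 5) ^ 3) ^ 2 * (1 + t ^ 2) := by ring
        _ = red 3 (eul 1) ^ 6 * e5 (red 3 T2) ^ 10 * (m ^ 2 + (t * m) ^ 2) := by rw [hT3]; ring
        _ = red 3 (eul 1) ^ 6 * (e5 (red 3 T2) ^ 10 * (1 + (x ^ 5) ^ 2)) := by
            rw [hF3, hid]; ring
  · have hF3 := congrArg (red 2) hF
    have he3 := congrArg (red 2) he
    have hT3 := congrArg (red 2) hT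
    have e3 := congrArg (red 2) e1
    rw [red_expand] at he3 e3
    simp only [map_mul, map_add, map_sub, map_one, map_pow, map_ofNat] at hT3 hF3 he3
    rw [red_expand] at hT3
    have h3 : (2 : (ZMod 2)⟦X⟧) = 0 := nat_zero 2
    have ct : constantCoeff (red 2 tq) = 0 := by rw [cc_red, cc_tq, Int.cast_zero]
    have cE : constantCoeff (red 2 (eul 1)) = 1 := by rw [cc_red, ce, Int.cast_one]
    have cT : constantCoeff (red 2 T2) = 1 := by rw [cc_red, cT2, Int.cast_one]
    apply htr (ZMod 2)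
    · simp [cT, ct]
    · simp [cE]
    · simp only [map_mul, map_add, map_one, map_pow, he3, e3]
      set x := red 2 xq
      set t := red 2 tq
      set m := 1 + 3 * x + 4 * x ^ 2 + 2 * x ^ 3 + x ^ 4 with hm
      set n := 1 - 2 * x + 4 * x ^ 2 - 3 * x ^ 3 + x ^ 4 with hn
      have hid : m + x * n = 1 + x ^ 5 := by
        rw [hm, hn]
        linear_combination (2 * x + x ^ 2 + 3 * x ^ 3 - x ^ 4) * h3
      calc red 2 T2 ^ 5 * (1 + t) * red 2 (eul 5) ^ 3
          = (red 2 T2 ^ 5 * red 2 (eul 5) ^ 3) * (1 + t) := by ring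
        _ = red 2 (eul 1) ^ 3 * e5 (red 2 T2) ^ 5 * (m + t * m) := by rw [hT3]; ring
        _ = red 2 (eul 1) ^ 3 * (e5 (red 2 T2) ^ 5 * (1 + x ^ 5)) := by
            rw [hF3, hid]; ring

end Pool.Agent.Q201.RCF5
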