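import Pool.Agent.Q201.RC.F3

/-! # Project RC: job RC-7 -/

set_option autoImplicit false

namespace Q201.RC

open PowerSeries Q279.QS
open scoped PowerSeries.WithPiTopology

theorem eq_of_sq_eq {F G : ℤ⟦X⟧} (h : F ^ 2 = G ^ 2) (hF : constantCoeff F = 1)
    (hG : constantCoeff G = 1) : F = G := by
  rcases sq_eq_sq_iff_eq_or_eq_neg.1 h with h | h
  · exact h
  · rw [h, map_neg, hG] at hF
    norm_num at hF

theorem f6 : S_F6 := by
  intro hP hF1 hF2
  obtain ⟨-, -, hT, hc1, hc2, -⟩ := hP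
  have hR := Rq_mul hc2
  have hRc : constantCoeff Rq = 1 := by
    have := congrArg constantCoeff hR
    rw [map_mul, hc1, hc2, mul_one] at this
    exact this
  have hxT : xq * e5 T2 = X * e5 T1 := by
    rw [xq, mul_assoc, ← map_mul, hR]
  have hR5c : constantCoeff (e5 Rq) = 1 := by rw [constantCoeff_expand, hRc]
  have hx0 : constantCoeff xq = 0 := by simp [xq]
  have hxne : xq ≠ 0 := mul_ne_zero X_ne_zero (ne_zero_of_const hR5c)
  have ht0 : constantCoeff tq = 0 := by simp [tq]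
  have htne : tq ≠ 0 := mul_ne_zero X_ne_zero (pow_ne_zero 5 (ne_zero_of_const hRc))
  have het : e5 tq = xq ^ 5 := by
    rw [tq, xq, map_mul, expand_X, map_pow]
    ring
  set x := xq with hx
  set t := tq with ht
  set E := eul 1 with hE
  set E5 := eul 5 with hE5
  set E25 := eul 25 with hE25
  set b := e5 T2 with hb
  set a := e5 T1 with ha
  have hEc : constantCoeff E = 1 := constCoeff_eul le_rfl
  have hE5c : constantCoeff E5 = 1 := constCoeff_eul (by norm_num)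
  have hE25c : constantCoeff E25 = 1 := constCoeff_eul (by norm_num)
  have hbc : constantCoeff b = 1 := by rw [hb, constantCoeff_expand, hc2]
  have hT5 : a * b = E5 * E25 := by
    have h1 := congrArg (e5 (R := ℤ)) hT
    rw [map_mul, map_mul, hE, hE5, e5_eul le_rfl, e5_eul (by norm_num)] at h1
    norm_num at h1
    exact h1
  have htT : t * T2 ^ 10 = X * E ^ 5 * E5 ^ 5 := by
    have : t * T2 ^ 10 = X * (Rq * T2) ^ 5 * T2 ^ 5 := by
      rw [ht, tq]
      ring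
    rw [this, hR]
    linear_combination (X * ((T1 * T2) ^ 4 + (T1 * T2) ^ 3 * (E * E5) + (T1 * T2) ^ 2 * (E * E5) ^ 2
      + (T1 * T2) * (E * E5) ^ 3 + (E * E5) ^ 4)) * hT
  have h1 : E5 * (T2 ^ 10 * (1 - 11 * t - t ^ 2)) = E ^ 11 := by
    rw [← hF2, ← hR, ht, tq]
    ring
  have h1' := congrArg (e5 (R := ℤ)) h1
  rw [map_mul, map_mul, map_pow, map_pow, hE, hE5, e5_eul le_rfl, e5_eul (by norm_num), map_sub,
    map_sub, map_mul, map_one, map_pow, het, map_ofNat] at h1'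
  norm_num at h1'
  rw [← hb, ← hE25, ← hE5, ← pow_mul] at h1'
  norm_num at h1'
  have h2 : t * E ^ 6 = X * E5 ^ 6 * (1 - 11 * t - t ^ 2) := by
    refine mul_left_cancel₀ (pow_ne_zero 5 (ne_zero_of_const hEc)) ?_
    linear_combination (-t) * h1 + E5 * (1 - 11 * t - t ^ 2) * htT
  have hxb : x ^ 5 * b ^ 10 = X ^ 5 * E5 ^ 5 * E25 ^ 5 := by
    have e1 : x ^ 5 * b ^ 10 = (x * b) ^ 5 * b ^ 5 := by ring
    rw [e1, hxT]
    linear_combination (X ^ 5 * ((a * b) ^ 4 + (a * b) ^ 3 * (E5 * E25)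
      + (a * b) ^ 2 * (E5 * E25) ^ 2 + (a * b) * (E5 * E25) ^ 3 + (E5 * E25) ^ 4)) * hT5
  have h3 : x ^ 5 * E5 ^ 6 = X ^ 5 * E25 ^ 6 * (1 - 11 * x ^ 5 - x ^ 10) := by
    refine mul_left_cancel₀ (pow_ne_zero 5 (ne_zero_of_const hE5c)) ?_
    linear_combination (-x ^ 5) * h1' + E25 * (1 - 11 * x ^ 5 - x ^ 10) * hxb
  have h4' : E * E5 = b ^ 2 * (1 - x - x ^ 2) := by
    rw [hF1]
    linear_combination (b + x * b + X * a) * hxT
  have h4 : E * x = X * E25 * (1 - x - x ^ 2) := by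
    refine mul_left_cancel₀ (ne_zero_of_const hE5c) ?_
    linear_combination x * h4' + b * (1 - x - x ^ 2) * hxT + X * (1 - x - x ^ 2) * hT5
  set L := 1 - x - x ^ 2 with hL
  set M := 1 + 3 * x + 4 * x ^ 2 + 2 * x ^ 3 + x ^ 4 with hM
  set N := 1 - 2 * x + 4 * x ^ 2 - 3 * x ^ 3 + x ^ 4 with hN
  have hLc : constantCoeff L = 1 := by simp [hL, hx0]
  have hMc : constantCoeff M = 1 := by simp [hM, hx0]
  have hNc : constantCoeff N = 1 := by simp [hN, hx0]
  have hLMN : 1 - 11 * x ^ 5 - x ^ 10 = L * M * N := by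
    rw [hL, hM, hN]
    ring
  have hL5 : L ^ 5 = M ^ 2 - 11 * x * M * N - x ^ 2 * N ^ 2 := by
    rw [hL, hM, hN]
    ring
  have h46 : E ^ 6 * x ^ 6 = X ^ 6 * E25 ^ 6 * L ^ 6 := by
    rw [← mul_pow, h4]
    ring
  have h5 : t * L ^ 5 = x * M * N * (1 - 11 * t - t ^ 2) := by
    have hne : X ^ 6 * E25 ^ 6 * L ≠ 0 := mul_ne_zero (mul_ne_zero (pow_ne_zero 6 X_ne_zero)
      (pow_ne_zero 6 (ne_zero_of_const hE25c))) (ne_zero_of_const hLc)
    refine mul_left_cancel₀ hne ?_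
    rw [hLMN] at h3
    linear_combination (-t) * h46 + x ^ 6 * h2 + X * x * (1 - 11 * t - t ^ 2) * h3
  have h6 : (t * M - x * N) * (M + x * N * t) = 0 := by
    rw [hL5] at h5
    linear_combination h5
  have h7 : M + x * N * t ≠ 0 := ne_zero_of_const (by
    rw [map_add, map_mul, hMc, ht0]
    simp)
  have htM : t * M = x * N := sub_eq_zero.1 ((mul_eq_zero.1 h6).resolve_right h7)
  have hsq : (T2 ^ 5 * E5 ^ 3) ^ 2 = (E ^ 3 * b ^ 5 * M) ^ 2 := by
    refine mul_left_cancel₀ htne ?_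
    rw [hLMN] at h1'
    linear_combination E5 ^ 6 * htT - (X * E ^ 5) * h1' - (E ^ 5 * b ^ 10 * M * N) * h4
      - (E ^ 6 * b ^ 10 * M) * htM
  have hE6 : T2 ^ 5 * E5 ^ 3 = E ^ 3 * b ^ 5 * M := by
    refine eq_of_sq_eq hsq ?_ ?_
    · rw [map_mul, map_pow, map_pow, hc2, hE5c]
      norm_num
    · rw [map_mul, map_mul, map_pow, map_pow, hEc, hbc, hMc]
      norm_num
  have hC : Cq * e5 Rq = Rq ^ 5 := by
    rw [Cq, mul_assoc, mul_comm (invOfUnit _ _), mul_invOfUnit, mul_one]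
    simp [hR5c]
  have hD : Dq * Rq ^ 5 = e5 Rq := by
    rw [Dq, mul_assoc, mul_comm (invOfUnit _ _), mul_invOfUnit, mul_one]
    simp [hRc]
  refine ⟨hR, hRc, hxT, htM, hE6, ?_, ?_⟩
  · refine mul_left_cancel₀ hxne ?_
    have e1 : x * Cq = t := by
      rw [hx, xq, ht, tq, ← hC]
      ring
    rw [← mul_assoc, e1, htM]
  · refine mul_left_cancel₀ hxne ?_
    have e1 : t * Dq = x := by
      rw [hx, xq, ht, tq, ← hD]
      ring
    calc x * (Dq * N) = (x * N) * Dq := by ring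
      _ = (t * Dq) * M := by
        rw [← htM]
        ring
      _ = _ := by rw [e1]

end Q201.RC
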