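import Pool.Agent.Q201.RC.Step2

/-! # Project RC: job RC-25 -/

set_option autoImplicit false

namespace Q201.RC

open PowerSeries Q279.QS
open scoped PowerSeries.WithPiTopology

theorem red_eq_zero {n : ℕ} {F : ℤ⟦X⟧} (h : red n F = 0) : ∃ r : ℤ⟦X⟧, F = n * r := by
  obtain ⟨r, hr⟩ := red_eq_iff (n := n) (F := F) (G := 0) (by rw [h, map_zero])
  exact ⟨r, by rw [hr, zero_add]⟩

theorem natCast_ps_ne {k : ℕ} (hk : k ≠ 0) : (k : ℤ⟦X⟧) ≠ 0 := by
  intro h
  have := congrArg constantCoeff h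
  rw [map_natCast, map_zero] at this
  exact hk (by exact_mod_cast this)

theorem fend : S_END := by
  intro hT J lam A hA hJ hlam h16
  obtain ⟨hmul, hpow, -, -, hred, hU⟩ := hT
  have : Fact (Nat.Prime 2) := ⟨Nat.prime_two⟩
  have h2 : (2 : (ZMod 2)⟦X⟧) = 0 := by exact_mod_cast cast_n_zero 2
  set Je := U 2 J with hJe
  set Jo := V J with hJo
  have hdec : J = e2 Je + X * e2 Jo := (hU ℤ J 0).2.2.2.2.1
  have hUX : U 2 (X : ℤ⟦X⟧) = 0 := by
    ext n
    simp only [U, coeff_mk, coeff_X, map_zero]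
    rw [if_neg (by omega)]
  have hU2 : U 2 (X * J ^ 2) = 2 * (X * Je * Jo) := by
    have e : X * J ^ 2 = e2 (Je ^ 2 + X * Jo ^ 2) * X + e2 (2 * (X * Je * Jo)) * 1 := by
      conv_lhs => rw [hdec]
      simp only [map_add, map_mul, map_pow, map_ofNat, expand_X]
      ring
    rw [e, U_add, (hU _ _ _).1, hUX, mul_one, (hU _ _ 0).2.2.1]
    ring
  -- modulo 2
  have hA4 : A ^ 4 = e2 (A ^ 2) := by
    have := pow_eq_expand (p := 2) (A ^ 2)
    rw [← this]
    ring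
  have hJe2 : red 2 Je = A ^ 2 := by
    rw [hJe, ← (hred 2 2 J).1, hJ, hA4, (hU _ _ 0).2.2.1]
  have hJo2 : red 2 Jo = 0 := by
    rw [hJo, ← (hred 2 2 J).2.1, hJ, hA4, (hU _ _ 0).2.2.2.1]
  obtain ⟨J1, hJ1⟩ := red_eq_zero hJo2
  rw [hU2] at h16
  obtain ⟨r, hr⟩ := red_eq_iff h16
  push_cast at hr hJ1
  have h4 : X * Je * J1 = 2 * lam + 4 * r := by
    have : (4 : ℤ⟦X⟧) * (X * Je * J1) = 4 * (2 * lam + 4 * r) := by
      rw [hJ1] at hr
      linear_combination hr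
    exact mul_left_cancel₀ (by exact_mod_cast natCast_ps_ne (k := 4) (by norm_num)) this
  have hX : (X : (ZMod 2)⟦X⟧) * A ^ 2 ≠ 0 := mul_ne_zero X_ne_zero (pow_ne_zero 2 hA)
  have hredX : red 2 (X : ℤ⟦X⟧) = X := map_X _
  have hJ12 : red 2 J1 = 0 := by
    have h := congrArg (red 2) h4
    simp only [map_mul, map_add, map_ofNat, hredX, hJe2] at h
    have h' : X * A ^ 2 * red 2 J1 = 0 := by
      rw [h]
      linear_combination (red 2 lam + 2 * red 2 r) * h2
    exact (mul_eq_zero.1 h').resolve_left hX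
  obtain ⟨J2, hJ2⟩ := red_eq_zero hJ12
  push_cast at hJ2
  have h5 : X * Je * J2 = lam + 2 * r := by
    have : (2 : ℤ⟦X⟧) * (X * Je * J2) = 2 * (lam + 2 * r) := by
      rw [hJ2] at h4
      linear_combination h4
    exact mul_left_cancel₀ (by exact_mod_cast natCast_ps_ne (k := 2) (by norm_num)) this
  have h6 : X * A ^ 2 * red 2 J2 = red 2 lam := by
    have h := congrArg (red 2) h5
    simp only [map_mul, map_add, map_ofNat, hredX, hJe2] at h
    rw [h]
    linear_combination (red 2 r) * h2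
  have hthX : tht ((X : (ZMod 2)⟦X⟧) * A ^ 2) = X * A ^ 2 := by
    rw [(hmul _ _ _).1, (hmul _ 0 0).2.2.2.1, hpow]
    push_cast
    linear_combination (X * A ^ (2 - 1) * tht A) * h2
  have h7 : X * A ^ 2 * tht (red 2 J2) = 0 := by
    have h := congrArg tht h6
    rw [(hmul _ _ _).1, hthX, hlam, ← h6] at h
    exact left_eq_add.1 h.symm
  have h8 : tht (red 2 J2) = 0 := (mul_eq_zero.1 h7).resolve_left hX
  have hJo4 : Jo = 4 * J2 := by
    rw [hJ1, hJ2]
    ring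
  have hc : ∀ n, coeff n Jo = 4 * coeff n J2 := by
    intro n
    rw [hJo4, ← coeff_C_mul]
    congr 1
  refine ⟨fun n => ⟨_, hc n⟩, fun n => ?_⟩
  have h9 := congrArg (coeff (2 * n + 1)) h8
  rw [tht, coeff_mk, map_zero] at h9
  have hodd : ((2 * n + 1 : ℕ) : ZMod 2) = 1 := by
    push_cast
    have : (2 : ZMod 2) = 0 := rfl
    rw [this]
    ring
  rw [hodd, one_mul, coeff_red_eq_zero] at h9
  obtain ⟨k, hk⟩ := h9
  refine ⟨k, ?_⟩
  rw [hc, hk]
  push_cast
  ring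

end Q201.RC
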