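import Pool.Agent.Q277.RC.Step3

set_option autoImplicit false

/-!
# Project RC: job RC-20
-/

namespace Pool.Agent.Q201.RCFin3

open PowerSeries Q201.RC Q279.QS Pool.Agent.Q201.RCThtf Pool.Agent.Q277.RC

theorem te32 (n : ℤ) : 2 * te 3 2 n = 5 * n ^ 2 + n := by
  have := two_tri n
  unfold te
  push_cast
  linarith [this, (by ring : n * (n - 1) = n ^ 2 - n)]

theorem te41 (n : ℤ) : 2 * te 4 1 n = 5 * n ^ 2 + 3 * n := by
  have := two_tri n
  unfold te
  push_cast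
  linarith [this, (by ring : n * (n - 1) = n ^ 2 - n)]

theorem e_T2 (m : ℕ) (hm : m % 3 = 2) : coeff m (e5 T2) = 0 := by
  rw [coeff_expand]
  split_ifs with h
  · obtain ⟨j, rfl⟩ := h
    rw [Nat.mul_div_cancel_left _ (by norm_num)]
    unfold T2
    apply coeff_TS_of_zero
    intro i hi
    exfalso
    have h1 := te32 i
    rw [hi] at h1
    have h3 : i % 3 = 0 ∨ i % 3 = 1 ∨ i % 3 = 2 := by omega
    rcases h3 with h3 | h3 | h3
    · obtain ⟨u, hu⟩ : ∃ u, i = 3 * u := ⟨i / 3, by omega⟩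
      rw [hu] at h1
      ring_nf at h1
      omega
    · obtain ⟨u, hu⟩ : ∃ u, i = 3 * u + 1 := ⟨i / 3, by omega⟩
      rw [hu] at h1
      ring_nf at h1
      omega
    · obtain ⟨u, hu⟩ : ∃ u, i = 3 * u + 2 := ⟨i / 3, by omega⟩
      rw [hu] at h1
      ring_nf at h1
      omega
  · rfl

theorem e_T1 (m : ℕ) (hm : m % 3 = 2) : coeff m (X * e5 T1) = 0 := by
  obtain ⟨m, rfl⟩ : ∃ k, m = k + 1 := ⟨m - 1, by omega⟩
  rw [coeff_succ_X_mul, coeff_expand]
  split_ifs with h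
  · obtain ⟨j, rfl⟩ := h
    rw [Nat.mul_div_cancel_left _ (by norm_num)]
    unfold T1
    apply coeff_TS_of_zero
    intro i hi
    exfalso
    have h1 := te41 i
    rw [hi] at h1
    have h3 : i % 3 = 0 ∨ i % 3 = 1 ∨ i % 3 = 2 := by omega
    rcases h3 with h3 | h3 | h3
    · obtain ⟨u, hu⟩ : ∃ u, i = 3 * u := ⟨i / 3, by omega⟩
      rw [hu] at h1
      ring_nf at h1
      omega
    · obtain ⟨u, hu⟩ : ∃ u, i = 3 * u + 1 := ⟨i / 3, by omega⟩
      rw [hu] at h1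
      ring_nf at h1
      omega
    · obtain ⟨u, hu⟩ : ∃ u, i = 3 * u + 2 := ⟨i / 3, by omega⟩
      rw [hu] at h1
      ring_nf at h1
      omega
  · rfl

theorem coeff_e3_mul {R : Type} [CommRing R] (k T : R⟦X⟧) (hT : ∀ m, m % 3 = 2 → coeff m T = 0)
    (m : ℕ) (hm : m % 3 = 2) : coeff m (e3 k * T) = 0 := by
  rw [coeff_mul]
  apply Finset.sum_eq_zero
  rintro ⟨a, b⟩ hp
  rw [Finset.HasAntidiagonal.mem_antidiagonal] at hp
  simp only at hp
  rw [coeff_expand]
  split_ifs with h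
  · rw [hT b (by obtain ⟨c, hc⟩ := h; simp only at hc; omega), mul_zero]
  · rw [zero_mul]

theorem fr (f : (ZMod 3)⟦X⟧) : f ^ 3 = e3 f := by
  have : Fact (Nat.Prime 3) := ⟨Nat.prime_three⟩
  exact pow_eq_expand 3 f

theorem fin3 : S_FIN3 := by
  intro _ hP hR hxT he hF5 hC hD
  have : Fact (Nat.Prime 3) := ⟨Nat.prime_three⟩
  have he3 := congrArg (red 3) he
  rw [red_expand, map_pow] at he3
  have e1 : e5 (eul 1) = eul 5 := by
    have := expand_eul (k := 5) (by norm_num) (j := 1) le_rfl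
    simpa using this
  have e3' := congrArg (red 3) e1
  rw [red_expand] at e3'
  have h5 := congrArg e5 hF5
  simp only [map_mul, map_add, map_one, map_pow, he3, e3'] at h5
  have hxT3 := congrArg (red 3) hxT
  rw [map_mul, red_expand] at hxT3
  have h3 := three0'
  set x := red 3 xq
  set T := e5 (red 3 T2) with hTd
  have hT : ∀ m, m % 3 = 2 → coeff m T = 0 := by
    intro m hm
    rw [hTd, ← red_expand, coeff_map, e_T2 m hm, map_zero]
  have hT1 : ∀ m, m % 3 = 2 → coeff m (red 3 (X * e5 T1)) = 0 := by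
    intro m hm
    rw [coeff_map, e_T1 m hm, map_zero]
  have ce : constantCoeff (red 3 (eul 5) ^ 2) = 1 := by
    rw [map_pow, cc_red, constCoeff_eul (by norm_num), Int.cast_one, one_pow]
  have hE : red 3 (eul 5) ^ 6 = e3 (red 3 (eul 5) ^ 2) := by rw [← fr]; ring
  -- the two deconvolutions
  have key : ∀ (g k S : (ZMod 3)⟦X⟧), (∀ m, m % 3 = 2 → coeff m S = 0) →
      (g - 1) * red 3 (eul 5) ^ 6 = e3 k * S → ∀ m, m % 3 = 2 → coeff m g = 0 := by
    intro g k S hS hg m hm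
    rw [hE] at hg
    have h1 := deconv (p := 3) (by norm_num) ce hg 2 (coeff_e3_mul k S hS) m hm
    rw [map_sub, coeff_one, if_neg (by omega), sub_zero] at h1
    exact h1
  intro n
  have hn : (3 * n + 2) % 3 = 2 := by omega
  constructor
  · have h1 := key (U 3 (U 3 (red 3 Cq))) (-(x * (1 - x) ^ 2 * T ^ 3)) T hT (by
      rw [← fr, ← h5]
      linear_combination (T ^ 10) * hC + T ^ 10 * (x ^ 3 - 2 * x ^ 4 + 5 * x ^ 5 - 6 * x ^ 6
        + 5 * x ^ 7 - 2 * x ^ 8 + x ^ 9) * h3) _ hn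
    rw [coeff_U, coeff_U, coeff_red_eq_zero] at h1
    rw [show 27 * n + 18 = 3 * (3 * (3 * n + 2)) by ring]
    exact h1
  · have h1 := key (U 3 (U 3 (red 3 Dq))) ((1 + x) ^ 2 * T ^ 3) (red 3 (X * e5 T1)) hT1 (by
      rw [← fr, ← h5, ← hxT3]
      linear_combination (T ^ 10) * hD - T ^ 10 * (2 * x ^ 2 + 5 * x ^ 3 + 6 * x ^ 4 + 5 * x ^ 5
        + 2 * x ^ 6) * h3) _ hn
    rw [coeff_U, coeff_U, coeff_red_eq_zero] at h1
    rw [show 27 * n + 18 = 3 * (3 * (3 * n + 2)) by ring]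
    exact h1

end Pool.Agent.Q201.RCFin3
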