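import Pool.Agent.Q277.RC.Step3

set_option autoImplicit false

/-!
# Project RC: job RC-18
-/

namespace Pool.Agent.Q201.RCM3C

open PowerSeries Q201.RC Q279.QS Pool.Agent.Q201.RCThtf Pool.Agent.Q277.RC

theorem evQ {R : Type} [CommRing R] (x : R) : ev Ql x = 1 + x ^ 10 := by
  simp only [Ql, ev_cons, ev_nil]; push_cast; ring

theorem evT (x : (ZMod 3)⟦X⟧) : ev Tl x = x * (1 + x ^ 5 - x ^ 10) := by
  simp only [Tl, ev_cons, ev_nil]; push_cast
  linear_combination x ^ 11 * three0'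

theorem evM (x : (ZMod 3)⟦X⟧) : ev [1, 0, 1, 2, 1] x = 1 + 3 * x + 4 * x ^ 2 + 2 * x ^ 3 + x ^ 4 := by
  simp only [ev_cons, ev_nil]; push_cast
  linear_combination (- x - x ^ 2) * three0'

theorem evN (x : (ZMod 3)⟦X⟧) : ev [1, 1, 1, 0, 1] x = 1 - 2 * x + 4 * x ^ 2 - 3 * x ^ 3 + x ^ 4 := by
  simp only [ev_cons, ev_nil]; push_cast
  linear_combination (x - x ^ 2 + x ^ 3) * three0'

theorem cx3 : constantCoeff (red 3 xq) = 0 := by rw [cc_red, cc_xq, Int.cast_zero]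

theorem m3c : S_M3C := by
  intro _ hR hx hC
  have hC3 := congrArg (red 3) hC
  simp only [map_mul, map_add, map_sub, map_one, map_pow, map_ofNat] at hC3
  rw [← evM, ← evN] at hC3
  rw [← evQ, ← evT] at hx
  have h1 := step3 (red 3 xq) (red 3 Cq) [1, 1, 1, 0, 1] [1, 0, 1, 0, 2, 0, 0, 2, 1, 1, 1]
    [1, 0, 1, 2, 1] 1 1 [0, 1, 2, 1] (thB (thB [1, 0, 1, 2, 1])).tail rfl (by decide +kernel)
    (by simp) (by simp) cx3 hx hC3 (by decide +kernel)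
  have h2 := step3 (red 3 xq) (U 3 (red 3 Cq)) [1, 0, 1, 0, 2, 0, 0, 2, 1, 1, 1]
    [1, 0, 0, 2, 0, 0, 2, 0, 0, 2, 1] Ql 1 1 [0, 0, 0, 0, 0, 0, 0, 0, 0, 1]
    (thB (thB Ql)).tail rfl (by decide +kernel)
    (by simp) (by simp) cx3 hx h1 (by decide +kernel)
  rw [evQ] at h2
  rw [h2]
  simp only [ev_cons, ev_nil]; push_cast; ring

end Pool.Agent.Q201.RCM3C
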