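import Pool.Agent.Q201.RC.M3C

set_option autoImplicit false

/-!
# Project RC: job RC-19
-/

namespace Pool.Agent.Q201.RCM3D

open PowerSeries Q201.RC Q279.QS Pool.Agent.Q201.RCThtf Pool.Agent.Q277.RC Pool.Agent.Q201.RCM3C

theorem m3d : S_M3D := by
  intro _ hR hx hC
  have hC3 := congrArg (red 3) hC
  simp only [map_mul, map_add, map_sub, map_one, map_pow, map_ofNat] at hC3
  rw [← evM, ← evN] at hC3
  rw [← evQ, ← evT] at hx
  have h1 := step3 (red 3 xq) (red 3 Dq) [1, 0, 1, 2, 1] [1, 2, 1, 1, 0, 0, 2, 0, 1, 0, 1]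
    [1, 1, 1, 0, 1] 1 1 [1, 1, 0, 1] (thB (thB [1, 1, 1, 0, 1])).tail rfl (by decide +kernel)
    (by simp) (by simp) cx3 hx hC3 (by decide +kernel)
  have h2 := step3 (red 3 xq) (U 3 (red 3 Dq)) [1, 2, 1, 1, 0, 0, 2, 0, 1, 0, 1]
    [1, 1, 0, 0, 2, 0, 0, 1, 0, 0, 1] Ql 1 1 [0, 0, 0, 0, 0, 0, 0, 0, 0, 1]
    (thB (thB Ql)).tail rfl (by decide +kernel)
    (by simp) (by simp) cx3 hx h1 (by decide +kernel)
  rw [evQ] at h2
  rw [h2]
  simp only [ev_cons, ev_nil]; push_cast; ring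

end Pool.Agent.Q201.RCM3D
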