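import Mathlib

/-!
# Project RC: the same computation by Kronecker substitution (big numbers in the kernel)
-/

namespace Q201.RC

section lists

/-- sum of coefficient lists -/
def add0 : List ℕ → List ℕ → List ℕ
  | [], b => b
  | a :: l, [] => a :: l
  | a :: l, b :: m => (a + b) :: add0 l m

def smul0 (c : ℕ) (a : List ℕ) : List ℕ := a.map fun t => c * t

def mul0 : List ℕ → List ℕ → List ℕ
  | [], _ => []
  | a :: l, b => add0 (smul0 a b) (0 :: mul0 l b)

variable {S : Type*} [CommSemiring S]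

/-- evaluation of a coefficient list -/
def evs : List ℕ → S → S
  | [], _ => 0
  | a :: l, x => (a : S) + x * evs l x

@[simp] theorem evs_nil (x : S) : evs [] x = 0 := rfl
@[simp] theorem evs_cons (a : ℕ) (l : List ℕ) (x : S) : evs (a :: l) x = (a : S) + x * evs l x := rfl

theorem evs_add0 (a b : List ℕ) (x : S) : evs (add0 a b) x = evs a x + evs b x := by
  induction a generalizing b with
  | nil => simp [add0]
  | cons a l ih =>
    cases b with
    | nil => simp [add0]
    | cons b m =>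
      simp only [add0, evs_cons, ih, Nat.cast_add]
      ring

theorem evs_smul0 (c : ℕ) (a : List ℕ) (x : S) : evs (smul0 c a) x = c * evs a x := by
  induction a with
  | nil => simp [smul0]
  | cons a l ih =>
    have : smul0 c (a :: l) = (c * a) :: smul0 c l := rfl
    rw [this, evs_cons, evs_cons, ih]
    push_cast
    ring

theorem evs_mul0 (a b : List ℕ) (x : S) : evs (mul0 a b) x = evs a x * evs b x := by
  induction a with
  | nil => simp [mul0]
  | cons a l ih =>
    simp only [mul0, evs_add0, evs_smul0, evs_cons, ih, Nat.cast_zero, zero_add]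
    ring

theorem evs_append (a b : List ℕ) (x : S) :
    evs (a ++ b) x = evs a x + x ^ a.length * evs b x := by
  induction a with
  | nil => simp
  | cons a l ih =>
    rw [List.cons_append, evs_cons, ih, evs_cons, List.length_cons]
    ring

theorem evs_zeros (k : ℕ) (x : S) : evs (List.replicate k 0) x = 0 := by
  induction k with
  | zero => simp
  | succ k ih => rw [List.replicate_succ, evs_cons, ih]; simp

theorem le_evs_one {l : List ℕ} {a : ℕ} (h : a ∈ l) : a ≤ evs l (1 : ℕ) := by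
  induction l with
  | nil => simp at h
  | cons b l ih =>
    rw [evs_cons]
    rcases List.mem_cons.1 h with rfl | h
    · simp
    · have := ih h
      simp only [Nat.cast_id, one_mul]
      omega

theorem evs_eq_zero {b : ℕ} (hb : 0 < b) {l : List ℕ} (h : evs l b = 0) (x : S) : evs l x = 0 := by
  induction l with
  | nil => rfl
  | cons a l ih =>
    rw [evs_cons] at h
    have h1 : a = 0 := by
      simp only [Nat.cast_id] at h
      omega
    have h2 : evs l b = 0 := by
      simp only [Nat.cast_id] at h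
      have : b * evs l b = 0 := by omega
      rcases Nat.mul_eq_zero.1 this with h | h
      · omega
      · exact h
    rw [evs_cons, ih h2, h1]
    simp

theorem evs_lt {b : ℕ} {l : List ℕ} (h : ∀ a ∈ l, a < b) : evs l b < b ^ l.length := by
  induction l with
  | nil => simp
  | cons a l ih =>
    have h1 := ih fun c hc => h c (List.mem_cons_of_mem _ hc)
    have h2 := h a List.mem_cons_self
    rw [evs_cons, List.length_cons, pow_succ]
    simp only [Nat.cast_id]
    have : b * (evs l b + 1) ≤ b * b ^ l.length := Nat.mul_le_mul_left b h1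
    nlinarith

end lists

/-- force the evaluation of a number in the kernel -/
def frc (n : ℕ) (f : ℕ → Bool) : Bool := Nat.rec (motive := fun _ => Bool) (f 0) (fun k _ => f (k + 1)) n

theorem frc_eq (n : ℕ) (f : ℕ → Bool) : frc n f = f n := by
  cases n <;> rfl

/-- digitwise comparison modulo `n`, `2^j` digits in base `b` -/
def dgE (n b : ℕ) : ℕ → ℕ → ℕ → Bool
  | 0, L, R => L % n == R % n
  | j + 1, L, R =>
    frc (b ^ (2 ^ j)) fun q => frc (L / q) fun L1 => frc (R / q) fun R1 =>
      frc (L % q) fun L0 => frc (R % q) fun R0 => dgE n b j L1 R1 && dgE n b j L0 R0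

theorem dgE_succ (n b j L R : ℕ) : dgE n b (j + 1) L R =
    (dgE n b j (L / b ^ (2 ^ j)) (R / b ^ (2 ^ j)) && dgE n b j (L % b ^ (2 ^ j)) (R % b ^ (2 ^ j))) := by
  simp only [dgE, frc_eq]

variable {R : Type*} [CommRing R]

theorem split_evs {b : ℕ} {l : List ℕ} {j : ℕ} (hl : l.length = 2 ^ (j + 1)) (h : ∀ a ∈ l, a < b) :
    evs l b / b ^ (2 ^ j) = evs (l.drop (2 ^ j)) b ∧ evs l b % b ^ (2 ^ j) = evs (l.take (2 ^ j)) b := by
  have hlen : (l.take (2 ^ j)).length = 2 ^ j := by
    rw [List.length_take, hl, pow_succ]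
    omega
  have h1 : evs l b = evs (l.take (2 ^ j)) b + b ^ (2 ^ j) * evs (l.drop (2 ^ j)) b := by
    conv_lhs => rw [← List.take_append_drop (2 ^ j) l]
    rw [evs_append, hlen]
  have h2 : evs (l.take (2 ^ j)) b < b ^ (2 ^ j) := by
    have := evs_lt (b := b) (l := l.take (2 ^ j)) fun a ha => h a (List.mem_of_mem_take ha)
    rwa [hlen] at this
  have hpos : 0 < b ^ (2 ^ j) := by omega
  rw [h1]
  constructor
  · rw [Nat.add_mul_div_left _ _ hpos, Nat.div_eq_of_lt h2, zero_add]
  · rw [Nat.add_mul_mod_self_left, Nat.mod_eq_of_lt h2]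

theorem dgE_sound {n b : ℕ} (hn : (n : R) = 0) (x : R) : ∀ (j : ℕ) (l r : List ℕ),
    l.length = 2 ^ j → r.length = 2 ^ j → (∀ a ∈ l, a < b) → (∀ a ∈ r, a < b) →
    dgE n b j (evs l b) (evs r b) = true → evs l x = evs r x := by
  intro j
  induction j with
  | zero =>
    intro l r hl hr _ _ h
    obtain ⟨a, rfl⟩ := List.length_eq_one_iff.1 (by simpa using hl)
    obtain ⟨c, rfl⟩ := List.length_eq_one_iff.1 (by simpa using hr)
    simp only [dgE, evs_cons, evs_nil, mul_zero, add_zero, Nat.cast_id, beq_iff_eq] at h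
    simp only [evs_cons, evs_nil, mul_zero, add_zero]
    have e1 : ((a % n : ℕ) : R) = a := by
      conv_rhs => rw [← Nat.div_add_mod a n]
      push_cast
      rw [hn]; ring
    have e2 : ((c % n : ℕ) : R) = c := by
      conv_rhs => rw [← Nat.div_add_mod c n]
      push_cast
      rw [hn]; ring
    rw [← e1, ← e2, h]
  | succ j ih =>
    intro l r hl hr h1 h2 h
    rw [dgE_succ, Bool.and_eq_true] at h
    obtain ⟨l1, l2⟩ := split_evs hl h1
    obtain ⟨r1, r2⟩ := split_evs hr h2
    rw [l1, l2, r1, r2] at h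
    have hlt : (l.take (2 ^ j)).length = 2 ^ j := by rw [List.length_take, hl, pow_succ]; omega
    have hrt : (r.take (2 ^ j)).length = 2 ^ j := by rw [List.length_take, hr, pow_succ]; omega
    have a1 := ih (l.drop (2 ^ j)) (r.drop (2 ^ j))
      (by rw [List.length_drop, hl, pow_succ]; omega) (by rw [List.length_drop, hr, pow_succ]; omega)
      (fun a ha => h1 a (List.mem_of_mem_drop ha)) (fun a ha => h2 a (List.mem_of_mem_drop ha)) h.1
    have a2 := ih (l.take (2 ^ j)) (r.take (2 ^ j)) hlt hrt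
      (fun a ha => h1 a (List.mem_of_mem_take ha)) (fun a ha => h2 a (List.mem_of_mem_take ha)) h.2
    rw [← List.take_append_drop (2 ^ j) l, ← List.take_append_drop (2 ^ j) r, evs_append,
      evs_append, hlt, hrt, a1, a2]

/-- normalisation of a list to `2^j` entries -/
theorem norm_list {b : ℕ} {l : List ℕ} {j : ℕ} (h : ∀ a ∈ l, a < b) (hL : evs l b < b ^ (2 ^ j))
    (x : R) : ∃ l' : List ℕ, l'.length = 2 ^ j ∧ (∀ a ∈ l', a < b) ∧ evs l' b = evs l b ∧
      evs l' x = evs l x := by
  have hb : 0 < b := by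
    rcases Nat.eq_zero_or_pos b with rfl | hb
    · have : (0 : ℕ) ^ (2 ^ j) = 0 := by
        rw [zero_pow (by positivity)]
      omega
    · exact hb
  rcases le_or_gt l.length (2 ^ j) with hlen | hlen
  · refine ⟨l ++ List.replicate (2 ^ j - l.length) 0, ?_, ?_, ?_, ?_⟩
    · rw [List.length_append, List.length_replicate]; omega
    · intro a ha
      rcases List.mem_append.1 ha with ha | ha
      · exact h a ha
      · rw [(List.mem_replicate.1 ha).2]; exact hb
    · rw [evs_append, evs_zeros]; ring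
    · rw [evs_append, evs_zeros]; ring
  · have hlt : (l.take (2 ^ j)).length = 2 ^ j := by rw [List.length_take]; omega
    have h1 : evs l b = evs (l.take (2 ^ j)) b + b ^ (2 ^ j) * evs (l.drop (2 ^ j)) b := by
      conv_lhs => rw [← List.take_append_drop (2 ^ j) l]
      rw [evs_append, hlt]
    have h0 : evs (l.drop (2 ^ j)) b = 0 := by
      by_contra hne
      have : b ^ (2 ^ j) * 1 ≤ b ^ (2 ^ j) * evs (l.drop (2 ^ j)) b :=
        Nat.mul_le_mul_left _ (Nat.one_le_iff_ne_zero.2 hne)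
      omega
    refine ⟨l.take (2 ^ j), hlt, fun a ha => h a (List.mem_of_mem_take ha), ?_, ?_⟩
    · rw [h1, h0]; ring
    · conv_rhs => rw [← List.take_append_drop (2 ^ j) l]
      rw [evs_append, evs_eq_zero hb h0]
      ring

theorem dg_sound {n b j : ℕ} (hn : (n : R) = 0) (x : R) {l r : List ℕ}
    (hl : evs l 1 < b) (hr : evs r 1 < b) (hL : evs l b < b ^ (2 ^ j)) (hR : evs r b < b ^ (2 ^ j))
    (h : dgE n b j (evs l b) (evs r b) = true) : evs l x = evs r x := by
  obtain ⟨l', a1, a2, a3, a4⟩ := norm_list (j := j)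
    (fun a ha => lt_of_le_of_lt (le_evs_one ha) hl) hL x
  obtain ⟨r', b1, b2, b3, b4⟩ := norm_list (j := j)
    (fun a ha => lt_of_le_of_lt (le_evs_one ha) hr) hR x
  rw [← a4, ← b4]
  refine dgE_sound hn x j l' r' a1 b1 a2 b2 ?_
  rwa [a3, b3]

/-- reduction modulo `De(z) x² = c1(z) x + c0(z)` -/
def rd0 (De c1 c0 : List ℕ) : List ℕ → List ℕ × List ℕ × List ℕ
  | [] => ([], [], [1])
  | a :: A =>
    let r := rd0 De c1 c0 A
    (add0 (mul0 r.1 c1) (mul0 De r.2.1), add0 (smul0 a (mul0 De r.2.2)) (mul0 r.1 c0),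
      mul0 De r.2.2)

theorem rd0_spec (De c1 c0 : List ℕ) (x z : R)
    (h : evs De z * x ^ 2 = evs c1 z * x + evs c0 z) (A : List ℕ) :
    evs (rd0 De c1 c0 A).2.2 z = evs De z ^ A.length ∧
    evs De z ^ A.length * evs A x = evs (rd0 De c1 c0 A).1 z * x + evs (rd0 De c1 c0 A).2.1 z := by
  induction A with
  | nil => simp [rd0]
  | cons a A ih =>
    obtain ⟨h1, h2⟩ := ih
    constructor
    · simp only [rd0, evs_mul0, h1, List.length_cons]
      ring
    · simp only [rd0, evs_add0, evs_mul0, evs_smul0, h1, List.length_cons, evs_cons]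
      have : evs De z ^ (A.length + 1) * ((a : R) + x * evs A x)
          = evs De z ^ (A.length + 1) * a + evs De z * x * (evs De z ^ A.length * evs A x) := by ring
      rw [this, h2]
      linear_combination (evs (rd0 De c1 c0 A).1 z) * h

/-- the numerical version, in continuation passing style -/
def rdN (De c1 c0 : ℕ) : List ℕ → (ℕ → ℕ → ℕ → Bool) → Bool
  | [], k => k 0 0 1
  | a :: A, k => rdN De c1 c0 A fun p1 p0 P => frc (De * P) fun P' =>
      frc (p1 * c1 + De * p0) fun q1 => frc (a * P' + p1 * c0) fun q0 => k q1 q0 P'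

theorem rdN_eq (b : ℕ) (De c1 c0 : List ℕ) (A : List ℕ) (k : ℕ → ℕ → ℕ → Bool) :
    rdN (evs De b) (evs c1 b) (evs c0 b) A k
      = k (evs (rd0 De c1 c0 A).1 b) (evs (rd0 De c1 c0 A).2.1 b) (evs (rd0 De c1 c0 A).2.2 b) := by
  induction A generalizing k with
  | nil => simp [rdN, rd0]
  | cons a A ih =>
    rw [rdN, ih]
    simp only [frc_eq, rd0, evs_add0, evs_mul0, evs_smul0, Nat.cast_id]

/-- the four numbers to compare -/
def quad (b : ℕ) (De c1 c0 A B al be Dl : List ℕ) (k : ℕ → ℕ → ℕ → ℕ → Bool) : Bool :=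
  frc (evs De b) fun de => frc (evs c1 b) fun d1 => frc (evs c0 b) fun d0 =>
  frc (evs al b) fun ea => frc (evs be b) fun eb => frc (evs Dl b) fun ed =>
  rdN de d1 d0 A fun p1 p0 pP => rdN de d1 d0 B fun r1 r0 _ => rdN de d1 d0 (0 :: B) fun s1 s0 sP =>
  frc (ed * (sP * p1)) fun L1 => frc (pP * (ea * s1 + eb * (de * r1))) fun R1 =>
  frc (ed * (sP * p0)) fun L0 => frc (pP * (ea * s0 + eb * (de * r0))) fun R0 => k L1 R1 L0 R0

/-- the check -/
def chkN (n w j : ℕ) (De c1 c0 A B al be Dl : List ℕ) : Bool :=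
  frc (2 ^ w) fun b =>
  (quad b De c1 c0 A B al be Dl fun L1 R1 L0 R0 => frc (b ^ (2 ^ j)) fun bb =>
    Nat.blt L1 bb && Nat.blt R1 bb && Nat.blt L0 bb && Nat.blt R0 bb &&
      dgE n b j L1 R1 && dgE n b j L0 R0) &&
  (quad 1 De c1 c0 A B al be Dl fun L1 R1 L0 R0 =>
    Nat.blt L1 b && Nat.blt R1 b && Nat.blt L0 b && Nat.blt R0 b)

theorem quad_eq (b : ℕ) (De c1 c0 A B al be Dl : List ℕ) (k : ℕ → ℕ → ℕ → ℕ → Bool) :
    quad b De c1 c0 A B al be Dl k = k
      (evs (mul0 Dl (mul0 (rd0 De c1 c0 (0 :: B)).2.2 (rd0 De c1 c0 A).1)) b)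
      (evs (mul0 (rd0 De c1 c0 A).2.2 (add0 (mul0 al (rd0 De c1 c0 (0 :: B)).1)
        (mul0 be (mul0 De (rd0 De c1 c0 B).1)))) b)
      (evs (mul0 Dl (mul0 (rd0 De c1 c0 (0 :: B)).2.2 (rd0 De c1 c0 A).2.1)) b)
      (evs (mul0 (rd0 De c1 c0 A).2.2 (add0 (mul0 al (rd0 De c1 c0 (0 :: B)).2.1)
        (mul0 be (mul0 De (rd0 De c1 c0 B).2.1)))) b) := by
  unfold quad
  simp only [frc_eq, rdN_eq, evs_mul0, evs_add0]

theorem chkN_spec {n w j : ℕ} (hn : (n : R) = 0) {De c1 c0 A B al be Dl : List ℕ} (x z : R)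
    (h : evs De z * x ^ 2 = evs c1 z * x + evs c0 z) (hu : IsUnit (evs De z))
    (hc : chkN n w j De c1 c0 A B al be Dl = true) :
    evs A x * evs Dl z = (evs al z * x + evs be z) * evs B x := by
  obtain ⟨p1, p2⟩ := rd0_spec De c1 c0 x z h A
  obtain ⟨r1, r2⟩ := rd0_spec De c1 c0 x z h B
  obtain ⟨s1, s2⟩ := rd0_spec De c1 c0 x z h (0 :: B)
  rw [chkN, frc_eq, quad_eq, quad_eq, frc_eq] at hc
  simp only [Bool.and_eq_true, Nat.blt_eq] at hc
  obtain ⟨⟨⟨⟨⟨⟨h1, h2⟩, h3⟩, h4⟩, h5⟩, h6⟩, ⟨⟨h7, h8⟩, h9⟩, h10⟩ := hc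
  have e1 := dg_sound hn z h7 h8 h1 h2 h5
  have e0 := dg_sound hn z h9 h10 h3 h4 h6
  simp only [evs_mul0, evs_add0] at e1 e0
  rw [p1, s1] at e1 e0
  rw [List.length_cons] at e1 e0 s2
  rw [evs_cons, Nat.cast_zero, zero_add] at s2
  have hcan : IsUnit (evs De z ^ A.length * evs De z ^ (B.length + 1)) :=
    (hu.pow _).mul (hu.pow _)
  refine hcan.mul_left_cancel ?_
  calc evs De z ^ A.length * evs De z ^ (B.length + 1) * (evs A x * evs Dl z)
      = evs De z ^ (B.length + 1) * evs Dl z * (evs De z ^ A.length * evs A x) := by ring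
    _ = evs De z ^ A.length * (evs al z * (evs De z ^ (B.length + 1) * (x * evs B x))
          + evs be z * evs De z * (evs De z ^ B.length * evs B x)) := by
        rw [p2, r2, s2]
        linear_combination x * e1 + e0
    _ = _ := by ring

end Q201.RC
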