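import Mathlib

/-! # Project RC: two identities for the norm over the fifth roots of unity (for RC-6) -/

namespace Q201.RC

variable {R : Type*} [CommRing R]

theorem nrm_one (z y : R) (h : z ^ 4 + z ^ 3 + z ^ 2 + z + 1 = 0) :
    (1 - y) * (1 - z * y) * (1 - z ^ 2 * y) * (1 - z ^ 3 * y) * (1 - z ^ 4 * y) = 1 - y ^ 5 := by
  linear_combination ((-1 * y) + (1 * y ^ 5) + (1 * z * y ^ 2) + (-1 * z * y ^ 5) + (1 * z ^ 3 *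
    y ^ 2) + (-1 * z ^ 3 * y ^ 3) + (-1 * z ^ 5 * y ^ 3) + (1 * z ^ 5 * y ^ 5) + (1 * z ^ 6 * y
    ^ 4) + (-1 * z ^ 6 * y ^ 5)) * h

theorem nrm_two (z w b : R) (h : z ^ 4 + z ^ 3 + z ^ 2 + z + 1 = 0) :
    (b ^ 2 - w * b - w ^ 2) * (b ^ 2 - z * w * b - z ^ 2 * w ^ 2) *
      (b ^ 2 - z ^ 2 * w * b - z ^ 4 * w ^ 2) * (b ^ 2 - z ^ 3 * w * b - z ^ 6 * w ^ 2) *
      (b ^ 2 - z ^ 4 * w * b - z ^ 8 * w ^ 2) = b ^ 10 - 11 * w ^ 5 * b ^ 5 - w ^ 10 := by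
  linear_combination ((-1 * w * b ^ 9) + (-1 * w ^ 2 * b ^ 8) + (11 * w ^ 5 * b ^ 5) + (1 * w ^
    10) + (2 * z * w ^ 2 * b ^ 8) + (1 * z * w ^ 3 * b ^ 7) + (-11 * z * w ^ 5 * b ^ 5) + (-1 *
    z * w ^ 10) + (-1 * z ^ 2 * w ^ 2 * b ^ 8) + (1 * z ^ 2 * w ^ 3 * b ^ 7) + (1 * z ^ 2 * w ^
    4 * b ^ 6) + (2 * z ^ 3 * w ^ 2 * b ^ 8) + (-2 * z ^ 3 * w ^ 3 * b ^ 7) + (-2 * z ^ 3 * w ^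
    4 * b ^ 6) + (-1 * z ^ 4 * w ^ 2 * b ^ 8) + (2 * z ^ 4 * w ^ 3 * b ^ 7) + (-1 * z ^ 4 * w ^
    5 * b ^ 5) + (-2 * z ^ 5 * w ^ 3 * b ^ 7) + (-3 * z ^ 5 * w ^ 4 * b ^ 6) + (10 * z ^ 5 * w ^
    5 * b ^ 5) + (1 * z ^ 5 * w ^ 10) + (1 * z ^ 6 * w ^ 3 * b ^ 7) + (5 * z ^ 6 * w ^ 4 * b ^
    6) + (-10 * z ^ 6 * w ^ 5 * b ^ 5) + (-1 * z ^ 6 * w ^ 6 * b ^ 4) + (-1 * z ^ 6 * w ^ 10) +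
    (1 * z ^ 7 * w ^ 3 * b ^ 7) + (-3 * z ^ 7 * w ^ 4 * b ^ 6) + (1 * z ^ 7 * w ^ 5 * b ^ 5) +
    (2 * z ^ 7 * w ^ 6 * b ^ 4) + (-2 * z ^ 9 * w ^ 4 * b ^ 6) + (1 * z ^ 9 * w ^ 5 * b ^ 5) +
    (3 * z ^ 9 * w ^ 6 * b ^ 4) + (1 * z ^ 9 * w ^ 7 * b ^ 3) + (1 * z ^ 10 * w ^ 4 * b ^ 6) +
    (1 * z ^ 10 * w ^ 5 * b ^ 5) + (-5 * z ^ 10 * w ^ 6 * b ^ 4) + (1 * z ^ 10 * w ^ 7 * b ^ 3)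
    + (1 * z ^ 10 * w ^ 10) + (-1 * z ^ 11 * w ^ 5 * b ^ 5) + (3 * z ^ 11 * w ^ 6 * b ^ 4) + (-2
    * z ^ 11 * w ^ 7 * b ^ 3) + (-1 * z ^ 11 * w ^ 10) + (-1 * z ^ 12 * w ^ 5 * b ^ 5) + (2 * z
    ^ 12 * w ^ 7 * b ^ 3) + (1 * z ^ 12 * w ^ 8 * b ^ 2) + (2 * z ^ 13 * w ^ 6 * b ^ 4) + (-2 *
    z ^ 13 * w ^ 7 * b ^ 3) + (-2 * z ^ 13 * w ^ 8 * b ^ 2) + (-1 * z ^ 14 * w ^ 6 * b ^ 4) + (1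
    * z ^ 14 * w ^ 7 * b ^ 3) + (1 * z ^ 14 * w ^ 8 * b ^ 2) + (1 * z ^ 15 * w ^ 7 * b ^ 3) +
    (-2 * z ^ 15 * w ^ 8 * b ^ 2) + (1 * z ^ 15 * w ^ 10) + (1 * z ^ 16 * w ^ 8 * b ^ 2) + (-1 *
    z ^ 16 * w ^ 9 * b) + (-1 * z ^ 16 * w ^ 10)) * h

end Q201.RC
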