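import Pool.Agent.Q201.RC.F3a

/-! # Project RC: jobs RC-1, RC-10 -/

set_option autoImplicit false

namespace Q201.RC

open PowerSeries Q279.QS Filter
open scoped PowerSeries.WithPiTopology

/-- `∏ (1 - X^{ci+a})` -/
noncomputable def PQ (c a : ℕ) : ℤ⟦X⟧ := ∏' i : ℕ, (1 - X ^ (c * i + a))

theorem multQ (c a : ℕ) (hc : 1 ≤ c) (ha : 1 ≤ a) :
    Multipliable fun i : ℕ => (1 - X ^ (c * i + a) : ℤ⟦X⟧) := by
  refine (mult_aux 1 a c ha hc).congr fun i => ?_
  rw [map_one, one_mul, add_comm]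

theorem PQ_five (a : ℕ) : Pa a = PQ 5 a := rfl

theorem PQ_eul (c : ℕ) : eul c = PQ c c := by
  unfold eul PQ
  exact tprod_congr fun i => by congr 2

theorem const_PQ (c a : ℕ) (hc : 1 ≤ c) (ha : 1 ≤ a) : constantCoeff (PQ c a) = 1 := by
  refine constCoeff_tprod (multQ c a hc ha) fun i => ?_
  have : c * i + a ≠ 0 := by omega
  rw [map_sub, map_one, map_pow, constantCoeff_X, zero_pow this, sub_zero]

theorem PQ_split (c a : ℕ) (hc : 1 ≤ c) (ha : 1 ≤ a) :
    PQ c a = PQ (2 * c) a * PQ (2 * c) (a + c) := by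
  unfold PQ
  rw [tprod_even_odd (multQ c a hc ha)]
  · congr 1
    · exact tprod_congr fun i => by congr 2; ring
    · exact tprod_congr fun i => by congr 2; ring
  · refine (multQ (2 * c) a (by omega) ha).congr fun i => ?_
    congr 2; ring
  · refine (multQ (2 * c) (a + c) (by omega) (by omega)).congr fun i => ?_
    congr 2; ring

theorem jtpQ (a b : ℕ) (ha : 1 ≤ a) (hb : 1 ≤ b) :
    TS (te a b) (fun n : ℤ => sg n) = PQ (a + b) a * PQ (a + b) b * PQ (a + b) (a + b) := by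
  have h := jtp a b ha hb 1 (by norm_num)
  have h1 : TS (te a b) (fun n : ℤ => (-1 : ℤ) ^ n.natAbs) = TS (te a b) (fun n : ℤ => sg n) :=
    TS_congr (fun _ => rfl) neg_one_pow_natAbs
  rw [h1] at h
  rw [← h]
  unfold PQ
  congr 1
  congr 1
  · exact tprod_congr fun i => by rw [map_one, one_mul, add_comm]
  · exact tprod_congr fun i => by rw [map_one, one_mul, add_comm]

theorem eul_five_split : PQ 1 1 = PQ 5 1 * PQ 5 2 * PQ 5 3 * PQ 5 4 * PQ 5 5 := by
  symm
  have hm := multQ 1 1 le_rfl le_rfl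
  have m1 := multQ 5 1 (by norm_num) (by norm_num)
  have m2 := multQ 5 2 (by norm_num) (by norm_num)
  have m3 := multQ 5 3 (by norm_num) (by norm_num)
  have m4 := multQ 5 4 (by norm_num) (by norm_num)
  have m5 := multQ 5 5 (by norm_num) (by norm_num)
  unfold PQ
  rw [← m1.tprod_mul m2, ← (m1.mul m2).tprod_mul m3, ← ((m1.mul m2).mul m3).tprod_mul m4,
    ← (((m1.mul m2).mul m3).mul m4).tprod_mul m5]
  refine tprod_eq_of_coeff ((((m1.mul m2).mul m3).mul m4).mul m5) fun m => ?_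
  have h2 := eventually_coeff hm m
  rw [eventually_atTop] at h2 ⊢
  obtain ⟨N, hN⟩ := h2
  refine ⟨N, fun M hM => ?_⟩
  rw [← hN (5 * M) (by omega)]
  congr 1
  clear hM
  induction M with
  | zero => simp
  | succ M ih =>
    rw [Finset.prod_range_succ, ih, show 5 * (M + 1) = 5 * M + 1 + 1 + 1 + 1 + 1 by ring,
      Finset.prod_range_succ, Finset.prod_range_succ, Finset.prod_range_succ,
      Finset.prod_range_succ, Finset.prod_range_succ]
    ring

theorem prod : S_PROD := by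
  have h1 : T1 = Pa 1 * Pa 4 * eul 5 := by
    have h : T1 = PQ 5 4 * PQ 5 1 * PQ 5 5 := jtpQ 4 1 (by norm_num) le_rfl
    rw [h, PQ_five, PQ_five, PQ_eul]
    ring
  have h2 : T2 = Pa 2 * Pa 3 * eul 5 := by
    have h : T2 = PQ 5 3 * PQ 5 2 * PQ 5 5 := jtpQ 3 2 (by norm_num) (by norm_num)
    rw [h, PQ_five, PQ_five, PQ_eul]
    ring
  have c1 := const_PQ 5 1 (by norm_num) (by norm_num)
  have c2 := const_PQ 5 2 (by norm_num) (by norm_num)
  have c3 := const_PQ 5 3 (by norm_num) (by norm_num)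
  have c4 := const_PQ 5 4 (by norm_num) (by norm_num)
  have c5 := const_PQ 5 5 (by norm_num) (by norm_num)
  refine ⟨h1, h2, ?_, ?_, ?_, c1, c2, c3, c4⟩
  · rw [h1, h2, PQ_eul 1, eul_five_split, PQ_eul 5, PQ_five, PQ_five, PQ_five, PQ_five]
    ring
  · rw [h1, map_mul, map_mul, PQ_five, PQ_five, PQ_eul, c1, c4, c5]
    norm_num
  · rw [h2, map_mul, map_mul, PQ_five, PQ_five, PQ_eul, c2, c3, c5]
    norm_num

theorem e2_PQ (c a : ℕ) (hc : 1 ≤ c) (ha : 1 ≤ a) : e2 (PQ c a) = PQ (2 * c) (2 * a) := by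
  unfold PQ
  rw [e2, expand_tprod two_ne_zero (multQ c a hc ha)]
  refine tprod_congr fun i => ?_
  rw [map_sub, map_one, map_pow, expand_X, ← pow_mul]
  congr 2
  ring

theorem f3c : S_F3C := by
  unfold S_F3C
  have h1 : T1 = PQ 5 4 * PQ 5 1 * PQ 5 5 := jtpQ 4 1 (by norm_num) le_rfl
  have h2 : T2 = PQ 5 3 * PQ 5 2 * PQ 5 5 := jtpQ 3 2 (by norm_num) (by norm_num)
  have h3 : K1 = PQ 10 9 * PQ 10 1 * PQ 10 10 := jtpQ 9 1 (by norm_num) le_rfl
  have h4 : K3 = PQ 10 7 * PQ 10 3 * PQ 10 10 := jtpQ 7 3 (by norm_num) (by norm_num)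
  have e1 : e2 T1 = PQ 10 8 * PQ 10 2 * PQ 10 10 := by
    rw [h1, map_mul, map_mul, e2_PQ _ _ (by norm_num) (by norm_num),
      e2_PQ _ _ (by norm_num) (by norm_num), e2_PQ _ _ (by norm_num) (by norm_num)]
  have e2' : e2 T2 = PQ 10 6 * PQ 10 4 * PQ 10 10 := by
    rw [h2, map_mul, map_mul, e2_PQ _ _ (by norm_num) (by norm_num),
      e2_PQ _ _ (by norm_num) (by norm_num), e2_PQ _ _ (by norm_num) (by norm_num)]
  have s1 := PQ_split 5 1 (by norm_num) (by norm_num)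
  have s2 := PQ_split 5 2 (by norm_num) (by norm_num)
  have s3 := PQ_split 5 3 (by norm_num) (by norm_num)
  have s4 := PQ_split 5 4 (by norm_num) (by norm_num)
  norm_num at s1 s2 s3 s4
  rw [e1, e2', h1, h2, h3, h4, s1, s2, s3, s4]
  ring

end Q201.RC
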