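import Pool.Agent.Q201.RC.Dis

/-! # Project RC: jobs RC-3, RC-4 -/

set_option autoImplicit false

namespace Q201.RC

open PowerSeries Q279.QS Filter
open scoped PowerSeries.WithPiTopology

theorem TS_split {e : ℤ × ℤ → ℤ} (he : FF e) (c : ℤ × ℤ → ℤ)
    (f g : ℤ × ℤ → ℤ × ℤ) (hσ : Function.Bijective (Sum.elim f g)) :
    TS e c = TS (fun p => e (f p)) (fun p => c (f p)) + TS (fun p => e (g p)) (fun p => c (g p)) := by
  rw [← TS_equiv (Equiv.ofBijective _ hσ)]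
  have hFF2 : FF fun k => e ((Equiv.ofBijective _ hσ) k) := he.comp_injective hσ.1
  rw [TS_sum_type hFF2]
  rfl

theorem bij1A : Function.Bijective (Sum.elim (fun p : ℤ × ℤ => ((p.2, 2 * p.1 + p.2) : ℤ × ℤ))
    (fun p : ℤ × ℤ => (p.1, p.1 + 2 * p.2 + 1))) := by
  constructor
  · rintro (⟨t, j⟩ | ⟨t, j⟩) (⟨t', j'⟩ | ⟨t', j'⟩) h <;>
      simp only [Sum.elim_inl, Sum.elim_inr, Prod.mk.injEq] at h
    · obtain ⟨h1, h2⟩ := h
      have : t = t' := by omega
      have : j = j' := by omega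
      simp [*]
    · exfalso; omega
    · exfalso; omega
    · obtain ⟨h1, h2⟩ := h
      have : t = t' := by omega
      have : j = j' := by omega
      simp [*]
  · rintro ⟨k, n⟩
    have h3 : (n - k) % 2 = 0 ∨ (n - k) % 2 = 1 := by omega
    rcases h3 with h | h
    · refine ⟨Sum.inl ((n - k) / 2, k), ?_⟩
      refine Prod.ext ?_ ?_ <;> dsimp <;> omega
    · refine ⟨Sum.inr (k, (n - k - 1) / 2), ?_⟩
      refine Prod.ext ?_ ?_ <;> dsimp <;> omega

theorem bij1B : Function.Bijective (Sum.elim (fun p : ℤ × ℤ => ((p.1, p.1 + 2 * p.2) : ℤ × ℤ))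
    (fun p : ℤ × ℤ => (p.1, p.1 + 2 * p.2 + 1))) := by
  constructor
  · rintro (⟨t, j⟩ | ⟨t, j⟩) (⟨t', j'⟩ | ⟨t', j'⟩) h <;>
      simp only [Sum.elim_inl, Sum.elim_inr, Prod.mk.injEq] at h
    · obtain ⟨h1, h2⟩ := h
      have : t = t' := by omega
      have : j = j' := by omega
      simp [*]
    · exfalso; omega
    · exfalso; omega
    · obtain ⟨h1, h2⟩ := h
      have : t = t' := by omega
      have : j = j' := by omega
      simp [*]
  · rintro ⟨k, n⟩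
    have h3 : (n - k) % 2 = 0 ∨ (n - k) % 2 = 1 := by omega
    rcases h3 with h | h
    · refine ⟨Sum.inl (k, (n - k) / 2), ?_⟩
      refine Prod.ext ?_ ?_ <;> dsimp <;> omega
    · refine ⟨Sum.inr (k, (n - k - 1) / 2), ?_⟩
      refine Prod.ext ?_ ?_ <;> dsimp <;> omega

theorem bij2A : Function.Bijective
    (Sum.elim (fun p : ℤ × ℤ => ((-p.1 - 1, p.1 + 2 * p.2 + 1) : ℤ × ℤ))
    (fun p : ℤ × ℤ => (p.2, -2 * p.1 - p.2 - 1))) := by
  constructor
  · rintro (⟨t, j⟩ | ⟨t, j⟩) (⟨t', j'⟩ | ⟨t', j'⟩) h <;>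
      simp only [Sum.elim_inl, Sum.elim_inr, Prod.mk.injEq] at h
    · obtain ⟨h1, h2⟩ := h
      have : t = t' := by omega
      have : j = j' := by omega
      simp [*]
    · exfalso; omega
    · exfalso; omega
    · obtain ⟨h1, h2⟩ := h
      have : t = t' := by omega
      have : j = j' := by omega
      simp [*]
  · rintro ⟨k, n⟩
    have h3 : (n + k) % 2 = 0 ∨ (n + k) % 2 = 1 := by omega
    rcases h3 with h | h
    · refine ⟨Sum.inl (-k - 1, (n + k) / 2), ?_⟩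
      refine Prod.ext ?_ ?_ <;> dsimp <;> omega
    · refine ⟨Sum.inr ((-n - k - 1) / 2, k), ?_⟩
      refine Prod.ext ?_ ?_ <;> dsimp <;> omega

theorem bij2B : Function.Bijective
    (Sum.elim (fun p : ℤ × ℤ => ((-p.2 - 1, 2 * p.1 + p.2 + 1) : ℤ × ℤ))
    (fun p : ℤ × ℤ => (p.2, -2 * p.1 - p.2 - 1))) := by
  constructor
  · rintro (⟨t, j⟩ | ⟨t, j⟩) (⟨t', j'⟩ | ⟨t', j'⟩) h <;>
      simp only [Sum.elim_inl, Sum.elim_inr, Prod.mk.injEq] at h
    · obtain ⟨h1, h2⟩ := h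
      have : t = t' := by omega
      have : j = j' := by omega
      simp [*]
    · exfalso; omega
    · exfalso; omega
    · obtain ⟨h1, h2⟩ := h
      have : t = t' := by omega
      have : j = j' := by omega
      simp [*]
  · rintro ⟨k, n⟩
    have h3 : (n + k) % 2 = 0 ∨ (n + k) % 2 = 1 := by omega
    rcases h3 with h | h
    · refine ⟨Sum.inl ((n + k) / 2, -k - 1), ?_⟩
      refine Prod.ext ?_ ?_ <;> dsimp <;> omega
    · refine ⟨Sum.inr ((-n - k - 1) / 2, k), ?_⟩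
      refine Prod.ext ?_ ?_ <;> dsimp <;> omega

theorem FF_q (b c : ℤ) (hb : -1 ≤ b) (hb' : b ≤ 9) (hc : 0 ≤ c) (hbc : b ≤ 6 + c) :
    FF fun k : ℤ => 7 * k ^ 2 + b * k + c + up k := fun m =>
  (Set.finite_Icc (-(m.natAbs : ℤ)) m.natAbs).subset fun n hn => by
    simp only [Set.mem_ofPred_eq] at hn
    rw [Set.mem_Icc]
    have h0 := up_nonneg n
    have h1 : n ≤ 7 * n ^ 2 + b * n + c := by
      rcases le_or_gt 0 n with h | h
      · nlinarith
      · have : n ≤ -1 := by omega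
        nlinarith
    have h2 : -n ≤ 7 * n ^ 2 + b * n + c := by
      rcases le_or_gt 0 n with h | h
      · nlinarith
      · have : n ≤ -1 := by omega
        rcases eq_or_lt_of_le this with h3 | h3
        · subst h3
          linarith
        · have : n ≤ -2 := by omega
          nlinarith
    omega

theorem nn_q (b c : ℤ) (hb : -1 ≤ b) (hb' : b ≤ 9) (hc : 0 ≤ c) (hbc : b ≤ 6 + c) (n : ℤ) :
    0 ≤ 7 * n ^ 2 + b * n + c + up n := by
  have h0 := up_nonneg n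
  rcases le_or_gt 0 n with h | h
  · nlinarith
  · have : n ≤ -1 := by omega
    nlinarith

theorem eul5_eq : eul 5 = TS (fun m : ℤ => 5 * te 2 1 m) (fun m => sg m) := by
  have hp := Q279.QS.pentagonal
  have hc : TS (te 1 2) (fun n : ℤ => (-1 : ℤ) ^ n.natAbs) = TS (te 1 2) (fun n : ℤ => sg n) :=
    TS_congr (fun _ => rfl) neg_one_pow_natAbs
  rw [hc, ← TS_equiv (Equiv.neg ℤ)] at hp
  have h := congrArg (expand 5 (by norm_num)) hp
  rw [expand_eul _ le_rfl, expand_TS] at h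
  norm_num at h
  rw [h]
  refine TS_congr (fun k => ?_) fun k => sg_neg k
  have e1 := two_tri (-k)
  have e2' := two_tri k
  unfold te
  push_cast
  linarith

theorem FF_e5 : FF fun m : ℤ => 5 * te 2 1 m := fun n => by
  refine (FF_te (a := 2) (b := 1) (by norm_num) le_rfl (n / 5)).subset fun m hm => ?_
  simp only [Set.mem_ofPred_eq] at hm ⊢
  omega

theorem nn_e5 (m : ℤ) : 0 ≤ 5 * te 2 1 m := mul_nonneg (by norm_num) (te_nonneg 2 1 m)

theorem sg_odd (n : ℤ) : sg (2 * n + 1) = -1 := by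
  rw [sg_add, sg_two_mul, sg_one]
  norm_num

theorem qa : S_QA := by
  unfold S_QA
  have F1 := FF_q 0 0 (by norm_num) (by norm_num) le_rfl (by norm_num)
  have N1 := nn_q 0 0 (by norm_num) (by norm_num) le_rfl (by norm_num)
  have F2 := FF_q 9 3 (by norm_num) (by norm_num) (by norm_num) (by norm_num)
  have N2 := nn_q 9 3 (by norm_num) (by norm_num) (by norm_num) (by norm_num)
  have haa : aa = TS (fun k : ℤ => 7 * k ^ 2 + 0 * k + 0 + up k) (fun k => sg k)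
      - TS (fun k : ℤ => 7 * k ^ 2 + 9 * k + 3 + up k) (fun k => sg k) := by
    rw [aa]
    congr 1
    · exact TS_congr (fun k => by rw [half1]; ring) fun _ => rfl
    · exact TS_congr (fun k => by rw [half2]) fun _ => rfl
  have hR : eul 5 * T2 = TS (fun p : ℤ × ℤ => 5 * te 2 1 p.1 + te 3 2 p.2)
      (fun p => sg p.1 * sg p.2) := by
    rw [eul5_eq, T2, TS_mul FF_e5 FF32 nn_e5 (te_nonneg 3 2)]
  have hL : aa * T1 = TS (fun p : ℤ × ℤ => (7 * p.1 ^ 2 + 0 * p.1 + 0 + up p.1) + te 4 1 p.2)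
      (fun p => sg p.1 * sg p.2)
      - TS (fun p : ℤ × ℤ => (7 * p.1 ^ 2 + 9 * p.1 + 3 + up p.1) + te 4 1 p.2)
      (fun p => sg p.1 * sg p.2) := by
    rw [haa, sub_mul, T1, TS_mul F1 FF41 N1 (te_nonneg 4 1), TS_mul F2 FF41 N2 (te_nonneg 4 1)]
  rw [hL, hR, TS_psi (FF_e5.add FF32 nn_e5 (te_nonneg 3 2)),
    TS_split (F1.add FF41 N1 (te_nonneg 4 1)) _ _ _ bij1A,
    TS_split (F2.add FF41 N2 (te_nonneg 4 1)) _ _ _ bij2A]
  have g1 : TS (fun p : ℤ × ℤ => 7 * p.2 ^ 2 + 0 * p.2 + 0 + up p.2 + te 4 1 (2 * p.1 + p.2))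
        (fun p => sg p.2 * sg (2 * p.1 + p.2))
      = TS (fun p : ℤ × ℤ => 5 * te 2 1 (p.1 + p.2) + te 3 2 (p.1 - p.2))
        (fun p => sg (p.1 + p.2) * sg (p.1 - p.2)) := by
    refine TS_congr (fun p => ?_) fun p => ?_
    · have a1 := two_up p.2
      have a2 := two_tri (2 * p.1 + p.2)
      have a3 := two_tri (p.1 + p.2)
      have a4 := two_tri (p.1 - p.2)
      unfold te
      push_cast
      linarith
    · rw [← sg_add, ← sg_add]
      have b1 : p.2 + (2 * p.1 + p.2) = 2 * (p.1 + p.2) := by ring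
      have b2 : p.1 + p.2 + (p.1 - p.2) = 2 * p.1 := by ring
      rw [b1, b2, sg_two_mul, sg_two_mul]
  have g2 : TS (fun p : ℤ × ℤ => 7 * (-p.1 - 1) ^ 2 + 9 * (-p.1 - 1) + 3 + up (-p.1 - 1)
          + te 4 1 (p.1 + 2 * p.2 + 1))
        (fun p => sg (-p.1 - 1) * sg (p.1 + 2 * p.2 + 1))
      = -TS (fun p : ℤ × ℤ => 5 * te 2 1 (-p.1 - p.2 - 1) + te 3 2 (p.2 - p.1))
        (fun p => sg (-p.1 - p.2 - 1) * sg (p.2 - p.1)) := by
    rw [← TS_neg]
    refine TS_congr (fun p => ?_) fun p => ?_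
    · have a1 := two_up (-p.1 - 1)
      have a2 := two_tri (p.1 + 2 * p.2 + 1)
      have a3 := two_tri (-p.1 - p.2 - 1)
      have a4 := two_tri (p.2 - p.1)
      unfold te
      push_cast
      linarith
    · rw [← sg_add, ← sg_add]
      have b1 : -p.1 - 1 + (p.1 + 2 * p.2 + 1) = 2 * p.2 := by ring
      have b2 : -p.1 - p.2 - 1 + (p.2 - p.1) = 2 * (-p.1 - 1) + 1 := by ring
      rw [b1, b2, sg_two_mul, sg_odd]
      norm_num
  have g3 : TS (fun p : ℤ × ℤ => 7 * p.1 ^ 2 + 0 * p.1 + 0 + up p.1 + te 4 1 (p.1 + 2 * p.2 + 1))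
        (fun p => sg p.1 * sg (p.1 + 2 * p.2 + 1))
      = TS (fun p : ℤ × ℤ => 7 * p.2 ^ 2 + 9 * p.2 + 3 + up p.2 + te 4 1 (-2 * p.1 - p.2 - 1))
        (fun p => sg p.2 * sg (-2 * p.1 - p.2 - 1)) := by
    refine TS_congr (fun p => ?_) fun p => ?_
    · have a1 := two_up p.1
      have a2 := two_up p.2
      have a3 := two_tri (p.1 + 2 * p.2 + 1)
      have a4 := two_tri (-2 * p.1 - p.2 - 1)
      unfold te
      push_cast
      linarith
    · rw [← sg_add, ← sg_add]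
      have b1 : p.1 + (p.1 + 2 * p.2 + 1) = 2 * (p.1 + p.2) + 1 := by ring
      have b2 : p.2 + (-2 * p.1 - p.2 - 1) = 2 * (-p.1 - 1) + 1 := by ring
      rw [b1, b2, sg_odd, sg_odd]
  rw [g1, g2, g3]
  ring

theorem qb : S_QB := by
  unfold S_QB
  have F1 := FF_q 3 0 (by norm_num) (by norm_num) le_rfl (by norm_num)
  have N1 := nn_q 3 0 (by norm_num) (by norm_num) le_rfl (by norm_num)
  have F2 := FF_q 6 1 (by norm_num) (by norm_num) (by norm_num) (by norm_num)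
  have N2 := nn_q 6 1 (by norm_num) (by norm_num) (by norm_num) (by norm_num)
  have hbb : bb = TS (fun k : ℤ => 7 * k ^ 2 + 3 * k + 0 + up k) (fun k => sg k)
      - TS (fun k : ℤ => 7 * k ^ 2 + 6 * k + 1 + up k) (fun k => sg k) := by
    rw [bb]
    congr 1
    · exact TS_congr (fun k => by rw [half3]; ring) fun _ => rfl
    · exact TS_congr (fun k => by rw [half4]) fun _ => rfl
  have hR : eul 5 * T1 = TS (fun p : ℤ × ℤ => 5 * te 2 1 p.1 + te 4 1 p.2)
      (fun p => sg p.1 * sg p.2) := by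
    rw [eul5_eq, T1, TS_mul FF_e5 FF41 nn_e5 (te_nonneg 4 1)]
  have hL : bb * T2 = TS (fun p : ℤ × ℤ => (7 * p.1 ^ 2 + 3 * p.1 + 0 + up p.1) + te 3 2 p.2)
      (fun p => sg p.1 * sg p.2)
      - TS (fun p : ℤ × ℤ => (7 * p.1 ^ 2 + 6 * p.1 + 1 + up p.1) + te 3 2 p.2)
      (fun p => sg p.1 * sg p.2) := by
    rw [hbb, sub_mul, T2, TS_mul F1 FF32 N1 (te_nonneg 3 2), TS_mul F2 FF32 N2 (te_nonneg 3 2)]
  rw [hL, hR, TS_psi (FF_e5.add FF41 nn_e5 (te_nonneg 4 1)),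
    TS_split (F1.add FF32 N1 (te_nonneg 3 2)) _ _ _ bij1B,
    TS_split (F2.add FF32 N2 (te_nonneg 3 2)) _ _ _ bij2B]
  have g1 : TS (fun p : ℤ × ℤ => 7 * p.1 ^ 2 + 3 * p.1 + 0 + up p.1 + te 3 2 (p.1 + 2 * p.2))
        (fun p => sg p.1 * sg (p.1 + 2 * p.2))
      = TS (fun p : ℤ × ℤ => 5 * te 2 1 (p.1 + p.2) + te 4 1 (p.1 - p.2))
        (fun p => sg (p.1 + p.2) * sg (p.1 - p.2)) := by
    refine TS_congr (fun p => ?_) fun p => ?_
    · have a1 := two_up p.1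
      have a2 := two_tri (p.1 + 2 * p.2)
      have a3 := two_tri (p.1 + p.2)
      have a4 := two_tri (p.1 - p.2)
      unfold te
      push_cast
      linarith
    · rw [← sg_add, ← sg_add]
      have b1 : p.1 + (p.1 + 2 * p.2) = 2 * (p.1 + p.2) := by ring
      have b2 : p.1 + p.2 + (p.1 - p.2) = 2 * p.1 := by ring
      rw [b1, b2, sg_two_mul, sg_two_mul]
  have g2 : TS (fun p : ℤ × ℤ => 7 * (-p.2 - 1) ^ 2 + 6 * (-p.2 - 1) + 1 + up (-p.2 - 1)
          + te 3 2 (2 * p.1 + p.2 + 1))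
        (fun p => sg (-p.2 - 1) * sg (2 * p.1 + p.2 + 1))
      = -TS (fun p : ℤ × ℤ => 5 * te 2 1 (-p.1 - p.2 - 1) + te 4 1 (p.2 - p.1))
        (fun p => sg (-p.1 - p.2 - 1) * sg (p.2 - p.1)) := by
    rw [← TS_neg]
    refine TS_congr (fun p => ?_) fun p => ?_
    · have a1 := two_up (-p.2 - 1)
      have a2 := two_tri (2 * p.1 + p.2 + 1)
      have a3 := two_tri (-p.1 - p.2 - 1)
      have a4 := two_tri (p.2 - p.1)
      unfold te
      push_cast
      linarith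
    · rw [← sg_add, ← sg_add]
      have b1 : -p.2 - 1 + (2 * p.1 + p.2 + 1) = 2 * p.1 := by ring
      have b2 : -p.1 - p.2 - 1 + (p.2 - p.1) = 2 * (-p.1 - 1) + 1 := by ring
      rw [b1, b2, sg_two_mul, sg_odd]
      norm_num
  have g3 : TS (fun p : ℤ × ℤ => 7 * p.1 ^ 2 + 3 * p.1 + 0 + up p.1 + te 3 2 (p.1 + 2 * p.2 + 1))
        (fun p => sg p.1 * sg (p.1 + 2 * p.2 + 1))
      = TS (fun p : ℤ × ℤ => 7 * p.2 ^ 2 + 6 * p.2 + 1 + up p.2 + te 3 2 (-2 * p.1 - p.2 - 1))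
        (fun p => sg p.2 * sg (-2 * p.1 - p.2 - 1)) := by
    refine TS_congr (fun p => ?_) fun p => ?_
    · have a1 := two_up p.1
      have a2 := two_up p.2
      have a3 := two_tri (p.1 + 2 * p.2 + 1)
      have a4 := two_tri (-2 * p.1 - p.2 - 1)
      unfold te
      push_cast
      linarith
    · rw [← sg_add, ← sg_add]
      have b1 : p.1 + (p.1 + 2 * p.2 + 1) = 2 * (p.1 + p.2) + 1 := by ring
      have b2 : p.2 + (-2 * p.1 - p.2 - 1) = 2 * (-p.1 - 1) + 1 := by ring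
      rw [b1, b2, sg_odd, sg_odd]
  rw [g1, g2, g3]
  ring

end Q201.RC
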