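import Pool.Agent.Q201.RC.Fend

/-! # Project RC: job RC-21 -/

set_option autoImplicit false

namespace Q201.RC

open PowerSeries Q279.QS
open scoped PowerSeries.WithPiTopology

theorem coeff_one_xq (h : constantCoeff Rq = 1) : coeff 1 xq = 1 := by
  have e : coeff (0 + 1) xq = coeff 0 (e5 Rq) := by
    rw [xq, mul_comm, coeff_succ_mul_X]
  rw [zero_add] at e
  rw [e, coeff_zero_eq_constantCoeff_apply, constantCoeff_expand, h]

theorem rel : S_REL := by
  intro hT hR hF y v m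
  obtain ⟨-, -, -, -, -, hU⟩ := hT
  have hdec : xq = e2 y + X * e2 v := (hU ℤ xq 0).2.2.2.2.1
  have hm : e2 m = X ^ 2 * e2 v ^ 2 - e2 y ^ 2 := by
    simp only [m, map_sub, map_mul, map_pow, expand_X]
  have h1 : xq ^ 2 = 2 * e2 y * xq + e2 m := by
    rw [hm]
    linear_combination (xq - e2 y + X * e2 v) * hdec
  have hv : v ≠ 0 := by
    intro h
    have h2 : coeff 0 v = 1 := by
      simp only [v, V, coeff_mk, mul_zero, zero_add]
      exact coeff_one_xq hR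
    rw [h, map_zero] at h2
    norm_num at h2
  set a := xq ^ 2 * (4 * y ^ 2 + m) + 2 * y + xq ^ 3 with ha
  set b := xq ^ 2 * (2 * y * m) + m - xq with hb
  have hea : e2 a = e2 xq ^ 2 * (4 * e2 y ^ 2 + e2 m) + 2 * e2 y + e2 xq ^ 3 := by
    simp only [ha, map_add, map_mul, map_pow, map_ofNat]
  have heb : e2 b = e2 xq ^ 2 * (2 * e2 y * e2 m) + e2 m - e2 xq := by
    simp only [hb, map_add, map_sub, map_mul, map_pow, map_ofNat]
  have h2 : e2 a * xq + e2 b * 1 = 0 := by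
    rw [hea, heb]
    linear_combination (-1 : ℤ⟦X⟧) * hF
      - (e2 xq ^ 2 * xq + e2 xq ^ 2 * 2 * e2 y + 1) * h1
  have h3 := congrArg (U 2) h2
  have h4 := congrArg V h2
  rw [U_add, (hU _ _ _).1, (hU _ _ _).1] at h3
  rw [V_add, (hU _ _ _).2.1, (hU _ _ _).2.1] at h4
  have hU1 : U 2 (1 : ℤ⟦X⟧) = 1 := by
    ext n
    simp only [U, coeff_mk, coeff_one]
    congr 1
    simp
  have hV1 : V (1 : ℤ⟦X⟧) = 0 := by
    ext n
    simp only [V, coeff_mk, coeff_one, map_zero]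
    rw [if_neg (by omega)]
  have hU0 : U 2 (0 : ℤ⟦X⟧) = 0 := by
    ext n
    simp [U]
  have hV0 : V (0 : ℤ⟦X⟧) = 0 := by
    ext n
    simp [V]
  rw [hU1, hU0] at h3
  rw [hV1, hV0, mul_zero, add_zero] at h4
  have ha0 : a = 0 := (mul_eq_zero.1 h4).resolve_right hv
  have hb0 : b = 0 := by
    rw [ha0, zero_mul, zero_add, mul_one] at h3
    exact h3
  rw [hb] at hb0
  rw [ha] at ha0
  refine ⟨h1, by linear_combination hb0, ?_⟩
  have h5 : (2 : ℤ⟦X⟧) * (4 * xq ^ 4 * y ^ 3 + 4 * xq ^ 2 * y ^ 2 + (1 + xq ^ 5) * y + xq ^ 3)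
      = 2 * 0 := by
    linear_combination (1 + 2 * xq ^ 2 * y) * ha0 - xq ^ 2 * hb0
  exact mul_left_cancel₀ (by exact_mod_cast natCast_ps_ne (k := 2) (by norm_num)) h5

end Q201.RC
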