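import Pool.Agent.Q201.RC.Asm

/-! # Project RC: job RC-23 -/

set_option autoImplicit false

namespace Q201.RC

open PowerSeries Q279.QS
open scoped PowerSeries.WithPiTopology

theorem U_add {R : Type} [CommRing R] (k : ℕ) (f g : R⟦X⟧) : U k (f + g) = U k f + U k g := by
  ext n
  simp [U]

theorem V_add {R : Type} [CommRing R] (f g : R⟦X⟧) : V (f + g) = V f + V g := by
  ext n
  simp [V]

theorem step2 : S_STEP2 := by
  intro hT n g x A B al be Dl hx hB hg hid
  have hm : ∀ l : List ℕ, ev l (e2 x) = e2 (ev l x) := fun l => (map_ev (e2 (R := ZMod n)).toRingHom l x).symm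
  have h1 : e2 (ev Dl x) * g = e2 (ev al x) * x + e2 (ev be x) * 1 := by
    refine (isUnit_ev hx hB).mul_right_cancel ?_
    rw [← hm, ← hm, ← hm, mul_one, ← hid, ← hg]
    ring
  obtain ⟨-, -, -, -, -, hU⟩ := hT
  have h1' : e2 (ev Dl x) * g = e2 (ev al x) * x + e2 (ev be x) := by rw [h1, mul_one]
  constructor
  · have h2 := congrArg (U 2) h1'
    rw [U_add, (hU _ _ _).1, (hU _ _ _).1, (hU _ _ 0).2.2.1] at h2
    rw [mul_comm, h2]
  · have h2 := congrArg V h1'
    rw [V_add, (hU _ _ _).2.1, (hU _ _ _).2.1, (hU _ _ 0).2.2.2.1, add_zero] at h2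
    rw [mul_comm, h2]

end Q201.RC
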