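import Pool.Agent.Q201.RC.Stm

set_option autoImplicit false

/-!
# Project RC: job RC-13
-/

namespace Pool.Agent.Q201.RCThtf

open PowerSeries Q201.RC Q279.QS

section
variable {R : Type} [CommRing R]

theorem coeff_tht (n : ℕ) (F : R⟦X⟧) : coeff n (tht F) = (n : R) * coeff n F := by simp [tht]

theorem coeff_U (k n : ℕ) (F : R⟦X⟧) : coeff n (U k F) = coeff (k * n) F := by simp [U]

theorem coeff_V (n : ℕ) (F : R⟦X⟧) : coeff n (V F) = coeff (2 * n + 1) F := by simp [V]

theorem tht_mul (F G : R⟦X⟧) : tht (F * G) = tht F * G + F * tht G := by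
  ext n
  rw [coeff_tht, map_add, coeff_mul, coeff_mul, coeff_mul, Finset.mul_sum, ← Finset.sum_add_distrib]
  refine Finset.sum_congr rfl fun p hp => ?_
  rw [Finset.HasAntidiagonal.mem_antidiagonal] at hp
  rw [coeff_tht, coeff_tht, ← hp]
  push_cast
  ring

theorem tht_add (F G : R⟦X⟧) : tht (F + G) = tht F + tht G := by
  ext n; rw [coeff_tht, map_add, map_add, coeff_tht, coeff_tht, mul_add]

theorem tht_e5 (F : R⟦X⟧) : tht (e5 F) = 5 * e5 (tht F) := by
  ext n
  rw [coeff_tht, coeff_expand]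
  have h5 : (5 : R⟦X⟧) = C (5 : R) := (map_ofNat C 5).symm
  rw [h5, coeff_C_mul, coeff_expand]
  split_ifs with h
  · obtain ⟨m, rfl⟩ := h
    rw [Nat.mul_div_cancel_left _ (by norm_num), coeff_tht]
    push_cast
    ring
  · simp

theorem tht_X : tht (X : R⟦X⟧) = X := by
  ext n
  rw [coeff_tht, coeff_X]
  split_ifs with h
  · subst h; simp
  · simp

theorem tht_one : tht (1 : R⟦X⟧) = 0 := by
  ext n
  rw [coeff_tht, coeff_one]
  split_ifs with h
  · subst h; simp
  · simp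

theorem tht_pow (f : R⟦X⟧) (k : ℕ) : tht (f ^ k) = k * f ^ (k - 1) * tht f := by
  induction k with
  | zero => rw [pow_zero, tht_one]; simp
  | succ k ih =>
    rw [pow_succ, tht_mul, ih, Nat.add_sub_cancel]
    rcases Nat.eq_zero_or_pos k with h | h
    · subst h; simp
    · obtain ⟨j, rfl⟩ : ∃ j, k = j + 1 := ⟨k - 1, by omega⟩
      rw [Nat.add_sub_cancel]
      push_cast
      ring

theorem U2_mul (f g : R⟦X⟧) : U 2 (e2 f * g) = f * U 2 g := by
  ext n
  rw [coeff_U, coeff_mul, coeff_mul]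
  have hinj : Set.InjOn (fun p : ℕ × ℕ => (2 * p.1, 2 * p.2)) (Finset.HasAntidiagonal.antidiagonal n : Finset (ℕ × ℕ)) := by
    rintro ⟨a, b⟩ - ⟨c, d⟩ - h
    simp only [Prod.mk.injEq] at h ⊢
    omega
  rw [← Finset.sum_subset (s₁ := (Finset.HasAntidiagonal.antidiagonal n).image fun p => (2 * p.1, 2 * p.2))]
  · rw [Finset.sum_image hinj]
    refine Finset.sum_congr rfl fun p _ => ?_
    rw [coeff_expand, if_pos (dvd_mul_right _ _), Nat.mul_div_cancel_left _ (by norm_num), coeff_U]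
  · intro p hp
    rw [Finset.mem_image] at hp
    obtain ⟨q, hq, rfl⟩ := hp
    rw [Finset.HasAntidiagonal.mem_antidiagonal] at hq ⊢
    simp only
    omega
  · rintro ⟨a, b⟩ hp hn
    rw [Finset.HasAntidiagonal.mem_antidiagonal] at hp
    simp only at hp
    rw [coeff_expand, if_neg, zero_mul]
    rintro ⟨c, rfl⟩
    apply hn
    rw [Finset.mem_image]
    refine ⟨(c, n - c), ?_, ?_⟩
    · rw [Finset.HasAntidiagonal.mem_antidiagonal]; simp only; omega
    · simp only [Prod.mk.injEq]; refine ⟨trivial, ?_⟩; omega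

theorem V_mul (f g : R⟦X⟧) : V (e2 f * g) = f * V g := by
  ext n
  rw [coeff_V, coeff_mul, coeff_mul]
  have hinj : Set.InjOn (fun p : ℕ × ℕ => (2 * p.1, 2 * p.2 + 1)) (Finset.HasAntidiagonal.antidiagonal n : Finset (ℕ × ℕ)) := by
    rintro ⟨a, b⟩ - ⟨c, d⟩ - h
    simp only [Prod.mk.injEq] at h ⊢
    omega
  rw [← Finset.sum_subset (s₁ := (Finset.HasAntidiagonal.antidiagonal n).image fun p => (2 * p.1, 2 * p.2 + 1))]
  · rw [Finset.sum_image hinj]
    refine Finset.sum_congr rfl fun p _ => ?_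
    rw [coeff_expand, if_pos (dvd_mul_right _ _), Nat.mul_div_cancel_left _ (by norm_num), coeff_V]
  · intro p hp
    rw [Finset.mem_image] at hp
    obtain ⟨q, hq, rfl⟩ := hp
    rw [Finset.HasAntidiagonal.mem_antidiagonal] at hq ⊢
    simp only
    omega
  · rintro ⟨a, b⟩ hp hn
    rw [Finset.HasAntidiagonal.mem_antidiagonal] at hp
    simp only at hp
    rw [coeff_expand, if_neg, zero_mul]
    rintro ⟨c, rfl⟩
    apply hn
    rw [Finset.mem_image]
    refine ⟨(c, n - c), ?_, ?_⟩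
    · rw [Finset.HasAntidiagonal.mem_antidiagonal]; simp only; omega
    · simp only [Prod.mk.injEq]; refine ⟨trivial, ?_⟩; omega

theorem U3_mul (f g : R⟦X⟧) : U 3 (e3 f * g) = f * U 3 g := by
  ext n
  rw [coeff_U, coeff_mul, coeff_mul]
  have hinj : Set.InjOn (fun p : ℕ × ℕ => (3 * p.1, 3 * p.2)) (Finset.HasAntidiagonal.antidiagonal n : Finset (ℕ × ℕ)) := by
    rintro ⟨a, b⟩ - ⟨c, d⟩ - h
    simp only [Prod.mk.injEq] at h ⊢
    omega
  rw [← Finset.sum_subset (s₁ := (Finset.HasAntidiagonal.antidiagonal n).image fun p => (3 * p.1, 3 * p.2))]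
  · rw [Finset.sum_image hinj]
    refine Finset.sum_congr rfl fun p _ => ?_
    rw [coeff_expand, if_pos (dvd_mul_right _ _), Nat.mul_div_cancel_left _ (by norm_num), coeff_U]
  · intro p hp
    rw [Finset.mem_image] at hp
    obtain ⟨q, hq, rfl⟩ := hp
    rw [Finset.HasAntidiagonal.mem_antidiagonal] at hq ⊢
    simp only
    omega
  · rintro ⟨a, b⟩ hp hn
    rw [Finset.HasAntidiagonal.mem_antidiagonal] at hp
    simp only at hp
    rw [coeff_expand, if_neg, zero_mul]
    rintro ⟨c, rfl⟩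
    apply hn
    rw [Finset.mem_image]
    refine ⟨(c, n - c), ?_, ?_⟩
    · rw [Finset.HasAntidiagonal.mem_antidiagonal]; simp only; omega
    · simp only [Prod.mk.injEq]; refine ⟨trivial, ?_⟩; omega

theorem dec2 (f : R⟦X⟧) : f = e2 (U 2 f) + X * e2 (V f) := by
  ext n
  rw [map_add, coeff_expand]
  rcases n with _ | n
  · rw [if_pos (dvd_zero _), Nat.zero_div, coeff_U, mul_zero]
    have : coeff 0 (X * e2 (V f)) = 0 := by simp
    rw [this, add_zero]
  · rw [coeff_succ_X_mul, coeff_expand]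
    rcases Nat.even_or_odd' n with ⟨m, rfl | rfl⟩
    · rw [if_neg (by omega), if_pos (dvd_mul_right _ _), Nat.mul_div_cancel_left _ (by norm_num),
        coeff_V, zero_add]
    · rw [show 2 * m + 1 + 1 = 2 * (m + 1) by ring, if_pos (dvd_mul_right _ _), if_neg (by omega),
        Nat.mul_div_cancel_left _ (by norm_num), coeff_U, add_zero]

theorem U2_e2 (f : R⟦X⟧) : U 2 (e2 f) = f := by
  ext n
  rw [coeff_U, coeff_expand, if_pos (dvd_mul_right _ _), Nat.mul_div_cancel_left _ (by norm_num)]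

theorem V_e2 (f : R⟦X⟧) : V (e2 f) = 0 := by
  ext n
  rw [coeff_V, coeff_expand, if_neg (by omega), map_zero]

end

theorem sq3 : ∀ a : ZMod 3, a ≠ 0 → a * a = 1 := by decide

theorem two2 : (2 : ZMod 2) = 0 := by decide

theorem frob3 (f : (ZMod 3)⟦X⟧) : f - tht (tht f) = (U 3 f) ^ 3 := by
  have : Fact (Nat.Prime 3) := ⟨Nat.prime_three⟩
  rw [pow_eq_expand 3 (U 3 f)]
  ext n
  rw [map_sub, coeff_tht, coeff_tht, coeff_expand]
  split_ifs with h
  · obtain ⟨m, rfl⟩ := h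
    rw [Nat.mul_div_cancel_left _ (by norm_num), coeff_U]
    have h3 : ((3 * m : ℕ) : ZMod 3) = 0 := by
      rw [ZMod.natCast_eq_zero_iff]; exact dvd_mul_right _ _
    rw [h3]; ring
  · have h2 := sq3
    have h4 : (n : ZMod 3) ≠ 0 := by
      rw [Ne, ZMod.natCast_eq_zero_iff]; exact h
    rw [← mul_assoc, h2 _ h4]; ring

theorem dec2' (f : (ZMod 2)⟦X⟧) : f = (U 2 f) ^ 2 + X * (V f) ^ 2 := by
  have : Fact (Nat.Prime 2) := ⟨Nat.prime_two⟩
  rw [pow_eq_expand 2 (U 2 f), pow_eq_expand 2 (V f)]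
  exact dec2 f

theorem tht2 (f : (ZMod 2)⟦X⟧) : tht f = X * (V f) ^ 2 := by
  have : Fact (Nat.Prime 2) := ⟨Nat.prime_two⟩
  rw [pow_eq_expand 2 (V f)]
  ext n
  rw [coeff_tht]
  rcases n with _ | n
  · simp
  · rw [coeff_succ_X_mul, coeff_expand]
    rcases Nat.even_or_odd' n with ⟨m, rfl | rfl⟩
    · rw [if_pos (dvd_mul_right _ _), Nat.mul_div_cancel_left _ (by norm_num), coeff_V]
      have h2 : ((2 * m + 1 : ℕ) : ZMod 2) = 1 := by
        push_cast
        rw [two2]; ring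
      rw [h2, one_mul]
    · rw [if_neg (by omega)]
      have h2 : ((2 * m + 1 + 1 : ℕ) : ZMod 2) = 0 := by
        rw [ZMod.natCast_eq_zero_iff]; omega
      rw [h2, zero_mul]

theorem thtf : S_THT := by
  refine ⟨?_, ?_, frob3, fun f => ⟨dec2' f, tht2 f⟩, ?_, ?_⟩
  · intro R _ f g
    exact ⟨tht_mul f g, tht_add f g, tht_e5 f, tht_X, tht_one⟩
  · intro R _ f k
    exact tht_pow f k
  · intro n k f
    refine ⟨?_, ?_, ?_⟩
    · ext m; rw [coeff_U, coeff_map, coeff_map, coeff_U]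
    · ext m; rw [coeff_V, coeff_map, coeff_map, coeff_V]
    · ext m; rw [coeff_tht, coeff_map, coeff_map, coeff_tht]; simp
  · intro R _ f g
    exact ⟨U2_mul f g, V_mul f g, U2_e2 f, V_e2 f, dec2 f, U3_mul f g⟩

end Pool.Agent.Q201.RCThtf
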