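import Pool.Agent.Q201.RC.Asm

/-!
# Project RC: the final assembly from the lemma jobs
-/

set_option autoImplicit false

namespace Q201.RC

open PowerSeries Q279.QS
open scoped PowerSeries.WithPiTopology

/-- all jobs -/
structure Jobs : Prop where
  prod : S_PROD
  dis : S_DIS
  qa : S_QA
  qb : S_QB
  f1 : S_F1
  f2 : S_F2
  f6 : S_F6
  f3a : S_F3A
  f3b : S_F3B
  f3c : S_F3C
  f3 : S_F3
  trick : S_TRICK
  thtf : S_THT
  w : S_W
  w3 : S_W3
  w2 : S_W2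
  f5 : S_F5
  m3c : S_M3C
  m3d : S_M3D
  fin3 : S_FIN3
  rel : S_REL
  y : S_Y
  step2 : S_STEP2
  v2 : S_V2
  fend : S_END

theorem th3 {x t W : (ZMod 3)⟦X⟧} (hx : tht x = x * e5 W) (ht : e5 t = x ^ 5)
    (hW : W * (1 + t ^ 2) = 1 + t - t ^ 2) :
    tht x * (1 + x ^ 10) = x * (1 + x ^ 5 - x ^ 10) := by
  have h := congrArg (e5 (R := ZMod 3)) hW
  simp only [map_mul, map_add, map_sub, map_pow, map_one, ht] at h
  rw [hx]
  linear_combination x * h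

theorem ev_C2 {x : (ZMod 2)⟦X⟧} : ev al2C x = x ^ 4 * (1 + x ^ 5) ^ 3 := by
  have hn := cast_n_zero 2
  have h : eqL 2 al2C (mulL 2 [0, 0, 0, 0, 1] (powL 2 [1, 0, 0, 0, 0, 1] 3)) = true := by
    decide +kernel
  rw [ev_eqL hn h, ev_mulL hn, ev_powL hn]
  simp
  ring

theorem ev_D2 {x : (ZMod 2)⟦X⟧} : ev al2D x = (1 + x ^ 5) ^ 3 := by
  have hn := cast_n_zero 2
  have h : eqL 2 al2D (powL 2 [1, 0, 0, 0, 0, 1] 3) = true := by
    decide +kernel
  rw [ev_eqL hn h, ev_powL hn]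
  simp
  ring

theorem ev_M0 (x : (ZMod 8)⟦X⟧) : ev M0 x = 1 + 3 * x + 4 * x ^ 2 + 2 * x ^ 3 + x ^ 4 := by
  simp [M0]
  ring

theorem ev_N8 (x : (ZMod 8)⟦X⟧) : ev N8 x = 1 - 2 * x + 4 * x ^ 2 - 3 * x ^ 3 + x ^ 4 := by
  have h8 : (8 : (ZMod 8)⟦X⟧) = 0 := by exact_mod_cast cast_n_zero 8
  simp [N8]
  linear_combination (x + x ^ 3) * h8

/-- the six congruences -/
theorem final (J : Jobs) (n : ℕ) :
    ((3 : ℤ) ∣ coeff (27 * n + 18) Cq ∧ (3 : ℤ) ∣ coeff (27 * n + 18) Dq) ∧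
    ((4 : ℤ) ∣ coeff (16 * n + 12) Cq ∧ (8 : ℤ) ∣ coeff (32 * n + 28) Cq) ∧
    ((4 : ℤ) ∣ coeff (16 * n + 12) Dq ∧ (8 : ℤ) ∣ coeff (32 * n + 28) Dq) := by
  have hf1 := J.f1 J.prod J.dis J.qa J.qb
  have hf2 := J.f2 J.prod hf1
  obtain ⟨-, hR1, hxT, htM, hE, hC, hD⟩ := J.f6 J.prod hf1 hf2
  have hf3 := J.f3 J.prod J.f3a J.f3b J.f3c
  obtain ⟨htW, hxW, hW1, h5t⟩ := J.w J.thtf hR1
  have hw3 := J.w3 J.thtf J.trick hR1 htW hxW hW1 h5t htM
  have hw2 := J.w2 J.thtf J.trick hR1 htW hxW hW1 h5t htM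
  obtain ⟨hf53, hf52⟩ := J.f5 J.prod J.trick hR1 h5t htM hE
  have hth3 : tht (red 3 xq) * (1 + red 3 xq ^ 10)
      = red 3 xq * (1 + red 3 xq ^ 5 - red 3 xq ^ 10) := by
    refine th3 (t := red 3 tq) (W := red 3 Wq) ?_ ?_ hw3
    · rw [(J.thtf.2.2.2.2.1 3 0 _).2.2, hxW, map_mul]
      congr 1
      exact (map_expand 5 (by norm_num) _ _)
    · have : e5 (red 3 tq) = red 3 (e5 tq) := (map_expand 5 (by norm_num) _ _).symm
      rw [this, h5t, map_pow]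
  have hm3c := J.m3c J.thtf hR1 hth3 hC
  have hm3d := J.m3d J.thtf hR1 hth3 hD
  have hrel := J.rel J.thtf hR1 hf3
  obtain ⟨hy8, hy16, hkap, hrel8, hrel16⟩ := J.y J.thtf hR1 hrel
  obtain ⟨hv2, hth2⟩ := J.v2 J.thtf J.prod hR1 hxT h5t hxW hw2 hf52 hf2
  have K : XFacts := ⟨J.thtf, J.step2, J.fend, hy8, hy16, hkap, hrel8, hrel16, hv2, hth2⟩
  have hT1 : red 2 (X * e5 T1) ≠ 0 := by
    intro h
    have h1 : coeff 1 (X * e5 T1) = 1 := by
      have e : coeff (0 + 1) (X * e5 T1) = coeff 0 (e5 T1) := by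
        rw [mul_comm, coeff_succ_mul_X]
      rw [zero_add] at e
      rw [e, coeff_zero_eq_constantCoeff_apply, constantCoeff_expand]
      exact J.prod.2.2.2.1
    have h2 := (coeff_red_eq_zero (p := 2) (n := 1) (F := X * e5 T1)).1 (by rw [h, map_zero])
    rw [h1] at h2
    norm_num at h2
  have hT2 : red 2 (e5 T2) ≠ 0 := by
    intro h
    have h1 : coeff 0 (e5 T2) = 1 := by
      rw [coeff_zero_eq_constantCoeff_apply, constantCoeff_expand]
      exact J.prod.2.2.2.2.1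
    have h2 := (coeff_red_eq_zero (p := 2) (n := 0) (F := e5 T2)).1 (by rw [h, map_zero])
    rw [h1] at h2
    norm_num at h2
  refine ⟨J.fin3 J.thtf J.prod hR1 hxT h5t hf53 hm3c hm3d n, ?_, ?_⟩
  · refine stageE K datC Cq (red 2 (X * e5 T1)) hT1 ?_ ?_ n
    · change red 8 Cq * ev M0 (red 8 xq) = ev N8 (red 8 xq)
      rw [ev_M0, ev_N8]
      have := congrArg (red 8) hC
      simp only [map_mul, map_pow, map_add, map_sub, map_one, map_ofNat] at this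
      exact this
    · change ev al2C (red 2 xq) * red 2 (V xq) = _
      rw [ev_C2, hv2, ← hxT, map_mul]
      ring
  · refine stageE K datD Dq (red 2 (e5 T2)) hT2 ?_ ?_ n
    · change red 8 Dq * ev N8 (red 8 xq) = ev M0 (red 8 xq)
      rw [ev_M0, ev_N8]
      have := congrArg (red 8) hD
      simp only [map_mul, map_pow, map_add, map_sub, map_one, map_ofNat] at this
      exact this
    · change ev al2D (red 2 xq) * red 2 (V xq) = _
      rw [ev_D2, hv2]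
      ring

end Q201.RC
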