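import Pool.Agent.Q201.RC.Stm

set_option autoImplicit false

/-!
# Project RC: job RC-12
-/

namespace Pool.Agent.Q201.RCTrick

open PowerSeries Q201.RC

theorem fix5 {R : Type} [CommRing R] (G : R⟦X⟧) (h : e5 G = G) (h1 : constantCoeff G = 1) :
    G = 1 := by
  ext n
  induction n using Nat.strong_induction_on with
  | _ n ih =>
    rcases Nat.eq_zero_or_pos n with h0 | hpos
    · subst h0
      simp [h1]
    · rw [← h, coeff_expand]
      have hn : coeff n (1 : R⟦X⟧) = 0 := by
        rw [coeff_one, if_neg (by omega)]
      rw [hn]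
      split_ifs with hd
      · obtain ⟨m, rfl⟩ := hd
        rw [Nat.mul_div_cancel_left _ (by norm_num)]
        rw [ih m (by omega), coeff_one, if_neg (by omega)]
      · rfl

theorem trick : S_TRICK := by
  intro R _ A B hA hB h
  have hBi : B * invOfUnit B 1 = 1 := mul_invOfUnit B 1 (by simp [hB])
  have hAi : A * invOfUnit A 1 = 1 := mul_invOfUnit A 1 (by simp [hA])
  have hBi5 : e5 B * e5 (invOfUnit B 1) = 1 := by rw [← map_mul, hBi, map_one]
  have hG : e5 (A * invOfUnit B 1) = A * invOfUnit B 1 := by
    rw [map_mul]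
    calc e5 A * e5 (invOfUnit B 1) = (B * e5 A) * e5 (invOfUnit B 1) * invOfUnit B 1 := by
          linear_combination (-(e5 A * e5 (invOfUnit B 1))) * hBi
      _ = A * invOfUnit B 1 := by
          rw [← h]
          linear_combination (A * invOfUnit B 1) * hBi5
  have h2 : constantCoeff (A * invOfUnit B 1) = 1 := by
    have h3 := congrArg (constantCoeff (R := R)) hBi
    rw [map_mul, hB, one_mul, map_one] at h3
    rw [map_mul, hA, h3, one_mul]
  have h3 := fix5 _ hG h2
  calc A = A * invOfUnit B 1 * B := by linear_combination (-A) * hBi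
    _ = B := by rw [h3, one_mul]

end Pool.Agent.Q201.RCTrick
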