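import Pool.Agent.Q201.RC.Rel

/-! # Project RC: job RC-24 -/

set_option autoImplicit false

namespace Q201.RC

open PowerSeries Q279.QS
open scoped PowerSeries.WithPiTopology

theorem red_ne_zero_of_const {F : ℤ⟦X⟧} (h : constantCoeff F = 1) : red 2 F ≠ 0 := by
  intro h0
  have h2 := (coeff_red_eq_zero (p := 2) (n := 0) (F := F)).1 (by rw [h0, map_zero])
  rw [coeff_zero_eq_constantCoeff_apply, h] at h2
  norm_num at h2

theorem v2 : S_V2 := by
  intro hT hP hR hxT h5t hth hW2 hF5 hF2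
  obtain ⟨-, -, hT12, hc1, hc2, -⟩ := hP
  have hn := cast_n_zero 2
  have h2 : (2 : (ZMod 2)⟦X⟧) = 0 := by exact_mod_cast hn
  have : Fact (Nat.Prime 2) := ⟨Nat.prime_two⟩
  have he5 : ∀ (F : ℤ⟦X⟧), red 2 (e5 F) = e5 (red 2 F) := fun F =>
    map_expand 5 (by norm_num) _ _
  set x := red 2 xq with hx
  have htx : e5 (red 2 tq) = x ^ 5 := by rw [← he5, h5t, map_pow]
  have hV := hT.2.2.2.1 x
  -- the derivation
  have hth2 : tht x = x * e5 (red 2 Wq) := by
    rw [hx, (hT.2.2.2.2.1 2 0 xq).2.2, hth, map_mul, he5]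
  have hW := congrArg (e5 (R := ZMod 2)) hW2
  simp only [map_mul, map_add, map_pow, map_one, htx] at hW
  have hfin : tht x * (1 + x ^ 5) ^ 2 = x * (1 + x ^ 5 + x ^ 10) := by
    rw [hth2]
    linear_combination x * hW
  refine ⟨?_, hfin⟩
  set b := red 2 (e5 T2) with hb
  set a := red 2 (e5 T1) with ha
  set E5 := red 2 (e5 (eul 1)) with hE5
  set E25 := red 2 (e5 (eul 5)) with hE25
  have hredX : red 2 (X : ℤ⟦X⟧) = X := map_X _
  have f1 : x * b = X * a := by
    have := congrArg (red 2) hxT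
    rw [map_mul, map_mul, hredX] at this
    exact this
  have f2 : a * b = E5 * E25 := by
    have := congrArg (fun F => red 2 (e5 F)) hT12
    simp only [map_mul] at this
    exact this
  have f3 : b ^ 5 * (1 + x ^ 5) = E5 ^ 3 := by
    have := congrArg (e5 (R := ZMod 2)) hF5
    rw [map_mul, map_add, map_one, htx, ← he5, ← he5] at this
    simp only [map_pow] at this
    exact this
  have f4 : E25 * (b ^ 10 * (1 + x ^ 5 + x ^ 10)) = E5 ^ 11 := by
    have := congrArg (fun F => red 2 (e5 F)) hF2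
    simp only [map_mul, map_sub, map_pow, map_ofNat, expand_X, hredX] at this
    change E25 * (b ^ 10 - 11 * X ^ 5 * a ^ 5 * b ^ 5 - (X ^ 5) ^ 2 * a ^ 10) = E5 ^ 11 at this
    have g1 : X ^ 5 * a ^ 5 = x ^ 5 * b ^ 5 := by
      rw [← mul_pow, ← f1, mul_pow]
    have g2 : X ^ 10 * a ^ 10 = x ^ 10 * b ^ 10 := by
      rw [← mul_pow, ← f1, mul_pow]
    rw [← this]
    linear_combination (E25 * b ^ 5 * 11) * g1 + E25 * g2
      + (E25 * (6 * b ^ 10 * x ^ 5 + b ^ 10 * x ^ 10)) * h2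
  have hbne : b ≠ 0 := red_ne_zero_of_const (by rw [constantCoeff_expand, hc2])
  have hane : a ≠ 0 := red_ne_zero_of_const (by rw [constantCoeff_expand, hc1])
  have hE25ne : E25 ≠ 0 := by
    intro h
    rw [h, mul_zero] at f2
    exact (mul_ne_zero hane hbne) f2
  have hu := one_add_pow_unit (const_xr 2) 2
  rw [← hx] at hu
  have f5 : x * (1 + x ^ 5 + x ^ 10) = X * b ^ 8 * (1 + x ^ 5) ^ 4 := by
    have hne : E25 * b ^ 12 ≠ 0 := mul_ne_zero hE25ne (pow_ne_zero _ hbne)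
    refine mul_left_cancel₀ hne ?_
    calc E25 * b ^ 12 * (x * (1 + x ^ 5 + x ^ 10))
        = (x * b) * b * (E25 * (b ^ 10 * (1 + x ^ 5 + x ^ 10))) := by ring
      _ = X * (a * b) * E5 ^ 11 := by rw [f1, f4]; ring
      _ = X * E25 * (E5 ^ 3) ^ 4 := by rw [f2]; ring
      _ = _ := by rw [← f3]; ring
  have f6 : tht x = X * (b ^ 4 * (1 + x ^ 5)) ^ 2 := by
    refine hu.mul_right_cancel ?_
    rw [hfin, f5]
    ring
  rw [hV.2] at f6
  have f7 := mul_left_cancel₀ (X_ne_zero) f6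
  have f8 : (V x - b ^ 4 * (1 + x ^ 5)) ^ 2 = 0 := by
    linear_combination f7 + ((b ^ 4 * (1 + x ^ 5)) ^ 2 - V x * (b ^ 4 * (1 + x ^ 5))) * h2
  have f9 := pow_eq_zero_iff (two_ne_zero) |>.1 f8
  rw [← (hT.2.2.2.2.1 2 0 xq).2.1, ← hx]
  exact sub_eq_zero.1 f9

end Q201.RC
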