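import Pool.Agent.Q201.RC.Stm

set_option autoImplicit false

/-!
# Project RC: job RC-14
-/

namespace Pool.Agent.Q201.RCW

open PowerSeries Q201.RC Q279.QS

theorem w : S_W := by
  intro h hR
  obtain ⟨h1, h2, -⟩ := h
  have hinv : Rq * invOfUnit Rq 1 = 1 := mul_invOfUnit Rq 1 (by simp [hR])
  have hinv5 : e5 Rq * e5 (invOfUnit Rq 1) = 1 := by rw [← map_mul, hinv, map_one]
  have hmul : ∀ f g : ℤ⟦X⟧, tht (f * g) = tht f * g + f * tht g := fun f g => (h1 ℤ f g).1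
  have he5 : ∀ f : ℤ⟦X⟧, tht (e5 f) = 5 * e5 (tht f) := fun f => (h1 ℤ f f).2.2.1
  have hX : tht (X : ℤ⟦X⟧) = X := (h1 ℤ 1 1).2.2.2.1
  have h5 : e5 (5 : ℤ⟦X⟧) = 5 := map_ofNat _ 5
  refine ⟨?_, ?_, ?_, ?_⟩
  · unfold tq Wq
    rw [hmul, hX, h2 ℤ Rq 5]
    push_cast
    norm_num only
    linear_combination (-(5 * X * Rq ^ 4 * tht Rq)) * hinv
  · unfold xq Wq
    rw [hmul, hX, he5, map_add, map_one, map_mul, map_mul, h5]
    linear_combination (-(5 * X * e5 (tht Rq))) * hinv5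
  · unfold Wq
    have h3 : constantCoeff (tht Rq) = 0 := by
      rw [← coeff_zero_eq_constantCoeff_apply]
      simp [tht]
    rw [map_add, map_one, map_mul, map_mul, h3]
    ring
  · unfold tq xq
    rw [map_mul, map_pow, expand_X]
    ring

end Pool.Agent.Q201.RCW
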