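import Pool.Agent.Q201.RC.W3

set_option autoImplicit false

/-!
# Project RC: job RC-16
-/

namespace Pool.Agent.Q201.RCW2

open PowerSeries Q201.RC Q279.QS Pool.Agent.Q201.RCThtf Pool.Agent.Q277.RC

theorem poly2 {R : Type} [CommRing R] (h2 : (2 : R) = 0) (x : R) :
    ((1 - 4 * x + 12 * x ^ 2 - 12 * x ^ 3 + 5 * x ^ 4) *
        (1 + 3 * x + 4 * x ^ 2 + 2 * x ^ 3 + x ^ 4) -
        (x - 2 * x ^ 2 + 4 * x ^ 3 - 3 * x ^ 4 + x ^ 5) *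
        (3 + 8 * x + 6 * x ^ 2 + 4 * x ^ 3)) *
      ((1 + 3 * x + 4 * x ^ 2 + 2 * x ^ 3 + x ^ 4) +
        x * (1 - 2 * x + 4 * x ^ 2 - 3 * x ^ 3 + x ^ 4)) ^ 2 * (1 + x ^ 5 + x ^ 10)
    = (1 - 2 * x + 4 * x ^ 2 - 3 * x ^ 3 + x ^ 4) * (1 + 3 * x + 4 * x ^ 2 + 2 * x ^ 3 + x ^ 4) *
      ((1 + 3 * x + 4 * x ^ 2 + 2 * x ^ 3 + x ^ 4) ^ 2 +
        x * (1 - 2 * x + 4 * x ^ 2 - 3 * x ^ 3 + x ^ 4) *
          (1 + 3 * x + 4 * x ^ 2 + 2 * x ^ 3 + x ^ 4) +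
        (x * (1 - 2 * x + 4 * x ^ 2 - 3 * x ^ 3 + x ^ 4)) ^ 2) * (1 + x ^ 5) ^ 2 := by
  linear_combination ((-2) * x ^ 1 + (-19) * x ^ 2 + (-45) * x ^ 3 + (-50) * x ^ 4 + (-103) * x ^ 5 + (-73) * x ^ 6 + (-177) * x ^ 7 + (-281) * x ^ 8 + (-180) * x ^ 9 + (-383) * x ^ 10 + (-32) * x ^ 11 + (-310) * x ^ 12 + (-301) * x ^ 13 + (-170) * x ^ 14 + (-361) * x ^ 15 + (200) * x ^ 16 + (-292) * x ^ 17 + (-47) * x ^ 18 + (-170) * x ^ 19 + (-119) * x ^ 20 + (158) * x ^ 21 + (-17) * x ^ 22 + (82) * x ^ 23 + (-50) * x ^ 24 + (40) * x ^ 25 + (-11) * x ^ 26 + (3) * x ^ 27) * h2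

theorem w2 : S_W2 := by
  intro _ htr hR ht hx hW he hF
  have : Fact (Nat.Prime 2) := ⟨Nat.prime_two⟩
  have hk := congrArg (red 2) (Pool.Agent.Q201.RCW3.keyZ hR ht hx hF)
  have hF3 := congrArg (red 2) hF
  have he3 := congrArg (red 2) he
  rw [red_expand] at he3
  simp only [map_mul, map_add, map_sub, map_one, map_pow, map_ofNat] at hk hF3 he3
  rw [red_expand] at hk
  set x := red 2 xq
  set t := red 2 tq
  set w := red 2 Wq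
  have h2 : (2 : (ZMod 2)⟦X⟧) = 0 := nat_zero 2
  have hp := poly2 h2 x
  have cx : constantCoeff x = 0 := by rw [cc_red, cc_xq, Int.cast_zero]
  have ct : constantCoeff t = 0 := by rw [cc_red, cc_tq, Int.cast_zero]
  have cw : constantCoeff w = 1 := by rw [cc_red, hW, Int.cast_one]
  set m := 1 + 3 * x + 4 * x ^ 2 + 2 * x ^ 3 + x ^ 4 with hm
  set n := 1 - 2 * x + 4 * x ^ 2 - 3 * x ^ 3 + x ^ 4 with hn
  have cm : constantCoeff m = 1 := by simp [hm, cx]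
  have cn : constantCoeff n = 1 := by simp [hn, cx]
  have hne : n * m ^ 3 ≠ 0 := mul_ne_zero (ne_zero_of_cc cn) (pow_ne_zero _ (ne_zero_of_cc cm))
  apply htr (ZMod 2)
  · simp [cw, ct]
  · simp [ct]
  · apply mul_left_cancel₀ hne
    simp only [map_mul, map_add, map_sub, map_one, map_pow, he3]
    set p := (1 - 4 * x + 12 * x ^ 2 - 12 * x ^ 3 + 5 * x ^ 4) * m -
        (x - 2 * x ^ 2 + 4 * x ^ 3 - 3 * x ^ 4 + x ^ 5) *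
        (3 + 8 * x + 6 * x ^ 2 + 4 * x ^ 3) with hpd
    have hx1 : t ^ 2 * m ^ 2 = (x * n) ^ 2 := by rw [← hF3]; ring
    calc n * m ^ 3 * (w * (1 + t) ^ 2 * (1 + x ^ 5 + (x ^ 5) ^ 2))
        = (n * m * w) * (m + t * m) ^ 2 * (1 + x ^ 5 + x ^ 10) := by ring
      _ = e5 w * (p * (m + x * n) ^ 2 * (1 + x ^ 5 + x ^ 10)) := by rw [hk, hF3]; ring
      _ = e5 w * (n * m * (m ^ 2 + (t * m) * m + t ^ 2 * m ^ 2) * (1 + x ^ 5) ^ 2) := by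
          rw [hp, hF3, hx1]
      _ = n * m ^ 3 * ((1 + t + t ^ 2) * (e5 w * (1 + x ^ 5) ^ 2)) := by ring

end Pool.Agent.Q201.RCW2
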