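import Pool.Agent.Q277.RC.Der

set_option autoImplicit false

/-!
# Project RC: job RC-15
-/

namespace Pool.Agent.Q201.RCW3

open PowerSeries Q201.RC Q279.QS Pool.Agent.Q201.RCThtf Pool.Agent.Q277.RC

theorem keyZ (hR : constantCoeff Rq = 1) (ht : tht tq = tq * Wq) (hx : tht xq = xq * e5 Wq)
    (hF : tq * (1 + 3 * xq + 4 * xq ^ 2 + 2 * xq ^ 3 + xq ^ 4)
      = xq * (1 - 2 * xq + 4 * xq ^ 2 - 3 * xq ^ 3 + xq ^ 4)) :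
    (1 - 2 * xq + 4 * xq ^ 2 - 3 * xq ^ 3 + xq ^ 4) * (1 + 3 * xq + 4 * xq ^ 2 + 2 * xq ^ 3 + xq ^ 4)
      * Wq = e5 Wq * ((1 - 4 * xq + 12 * xq ^ 2 - 12 * xq ^ 3 + 5 * xq ^ 4) *
        (1 + 3 * xq + 4 * xq ^ 2 + 2 * xq ^ 3 + xq ^ 4) -
        (xq - 2 * xq ^ 2 + 4 * xq ^ 3 - 3 * xq ^ 4 + xq ^ 5) *
        (3 + 8 * xq + 6 * xq ^ 2 + 4 * xq ^ 3)) := by
  have h1 := congrArg tht hF
  simp only [tht_mul, tht_add, tht_sub, tht_one, tht_pow] at h1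
  have hne : xq ≠ 0 := by
    intro h
    have := xq_ne 2 (by norm_num) hR
    rw [h, map_zero] at this
    exact this rfl
  have t3 : tht (3 : ℤ⟦X⟧) = 0 := tht_natCast 3
  have t4 : tht (4 : ℤ⟦X⟧) = 0 := tht_natCast 4
  have t2 : tht (2 : ℤ⟦X⟧) = 0 := tht_natCast 2
  rw [ht, hx] at h1
  try rw [t3] at h1
  try rw [t4] at h1
  try rw [t2] at h1
  norm_num at h1
  apply mul_left_cancel₀ hne
  linear_combination (1 + 3 * xq + 4 * xq ^ 2 + 2 * xq ^ 3 + xq ^ 4) * h1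
    - (Wq * (1 + 3 * xq + 4 * xq ^ 2 + 2 * xq ^ 3 + xq ^ 4)
      + (3 + 8 * xq + 6 * xq ^ 2 + 4 * xq ^ 3) * xq * e5 Wq) * hF

theorem poly3 {R : Type} [CommRing R] (h3 : (3 : R) = 0) (x : R) :
    ((1 - 4 * x + 12 * x ^ 2 - 12 * x ^ 3 + 5 * x ^ 4) *
        (1 + 3 * x + 4 * x ^ 2 + 2 * x ^ 3 + x ^ 4) -
        (x - 2 * x ^ 2 + 4 * x ^ 3 - 3 * x ^ 4 + x ^ 5) *
        (3 + 8 * x + 6 * x ^ 2 + 4 * x ^ 3)) *
      ((1 + 3 * x + 4 * x ^ 2 + 2 * x ^ 3 + x ^ 4) ^ 2 +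
        (x * (1 - 2 * x + 4 * x ^ 2 - 3 * x ^ 3 + x ^ 4)) ^ 2) * (1 + x ^ 5 - x ^ 10)
    = (1 - 2 * x + 4 * x ^ 2 - 3 * x ^ 3 + x ^ 4) * (1 + 3 * x + 4 * x ^ 2 + 2 * x ^ 3 + x ^ 4) *
      ((1 + 3 * x + 4 * x ^ 2 + 2 * x ^ 3 + x ^ 4) ^ 2 +
        x * (1 - 2 * x + 4 * x ^ 2 - 3 * x ^ 3 + x ^ 4) *
          (1 + 3 * x + 4 * x ^ 2 + 2 * x ^ 3 + x ^ 4) -
        (x * (1 - 2 * x + 4 * x ^ 2 - 3 * x ^ 3 + x ^ 4)) ^ 2) * (1 + x ^ 10) := by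
  linear_combination ((-2) * x ^ 1 + (-10) * x ^ 2 + (-32) * x ^ 3 + (-30) * x ^ 4 + (-78) * x ^ 5 + (-18) * x ^ 6 + (-138) * x ^ 7 + (-108) * x ^ 8 + (-70) * x ^ 9 + (-2) * x ^ 10 + (-10) * x ^ 11 + (98) * x ^ 12 + (-130) * x ^ 13 + (-130) * x ^ 15 + (-98) * x ^ 16 + (-10) * x ^ 17 + (2) * x ^ 18 + (-70) * x ^ 19 + (108) * x ^ 20 + (-138) * x ^ 21 + (18) * x ^ 22 + (-78) * x ^ 23 + (30) * x ^ 24 + (-32) * x ^ 25 + (10) * x ^ 26 + (-2) * x ^ 27) * h3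

theorem w3 : S_W3 := by
  intro _ htr hR ht hx hW he hF
  have : Fact (Nat.Prime 3) := ⟨Nat.prime_three⟩
  have hk := congrArg (red 3) (keyZ hR ht hx hF)
  have hF3 := congrArg (red 3) hF
  have he3 := congrArg (red 3) he
  rw [red_expand] at he3
  simp only [map_mul, map_add, map_sub, map_one, map_pow, map_ofNat] at hk hF3 he3
  rw [red_expand] at hk
  set x := red 3 xq
  set t := red 3 tq
  set w := red 3 Wq
  have h3 : (3 : (ZMod 3)⟦X⟧) = 0 := nat_zero 3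
  have hp := poly3 h3 x
  have cx : constantCoeff x = 0 := by rw [cc_red, cc_xq, Int.cast_zero]
  have ct : constantCoeff t = 0 := by rw [cc_red, cc_tq, Int.cast_zero]
  have cw : constantCoeff w = 1 := by rw [cc_red, hW, Int.cast_one]
  set m := 1 + 3 * x + 4 * x ^ 2 + 2 * x ^ 3 + x ^ 4 with hm
  set n := 1 - 2 * x + 4 * x ^ 2 - 3 * x ^ 3 + x ^ 4 with hn
  have cm : constantCoeff m = 1 := by simp [hm, cx]
  have cn : constantCoeff n = 1 := by simp [hn, cx]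
  have hne : n * m ^ 3 ≠ 0 := mul_ne_zero (ne_zero_of_cc cn) (pow_ne_zero _ (ne_zero_of_cc cm))
  apply htr (ZMod 3)
  · simp [cw, ct]
  · simp [ct]
  · apply mul_left_cancel₀ hne
    simp only [map_mul, map_add, map_sub, map_one, map_pow, he3]
    set p := (1 - 4 * x + 12 * x ^ 2 - 12 * x ^ 3 + 5 * x ^ 4) * m -
        (x - 2 * x ^ 2 + 4 * x ^ 3 - 3 * x ^ 4 + x ^ 5) *
        (3 + 8 * x + 6 * x ^ 2 + 4 * x ^ 3) with hpd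
    have hx1 : t ^ 2 * m ^ 2 = (x * n) ^ 2 := by rw [← hF3]; ring
    calc n * m ^ 3 * (w * (1 + t ^ 2) * (1 + x ^ 5 - (x ^ 5) ^ 2))
        = (n * m * w) * (m ^ 2 + t ^ 2 * m ^ 2) * (1 + x ^ 5 - x ^ 10) := by ring
      _ = e5 w * (p * (m ^ 2 + (x * n) ^ 2) * (1 + x ^ 5 - x ^ 10)) := by rw [hk, hx1]; ring
      _ = e5 w * (n * m * (m ^ 2 + (t * m) * m - t ^ 2 * m ^ 2) * (1 + x ^ 10)) := by
          rw [hp, hF3, hx1]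
      _ = n * m ^ 3 * ((1 + t - t ^ 2) * (e5 w * (1 + (x ^ 5) ^ 2))) := by ring

end Pool.Agent.Q201.RCW3
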