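import Pool.Agent.Q201.RC.Rel

/-! # Project RC: job RC-22 -/

set_option autoImplicit false

namespace Q201.RC

open PowerSeries Q279.QS
open scoped PowerSeries.WithPiTopology

theorem ysolve {R : Type} [CommRing R] (hn : ((16 : ℕ) : R⟦X⟧) = 0) (x y m : R⟦X⟧)
    (hx : constantCoeff x = 0)
    (h1 : 4 * x ^ 4 * y ^ 3 + 4 * x ^ 2 * y ^ 2 + (1 + x ^ 5) * y + x ^ 3 = 0)
    (h2 : m * (1 + 2 * x ^ 2 * y) = x) :
    y * (1 + x ^ 5) ^ 4 = ev Yh x ∧ m * (1 + x ^ 5) ^ 4 = ev c0h x := by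
  have h16 : (16 : R⟦X⟧) = 0 := by exact_mod_cast hn
  have hu := one_add_pow_unit hx 1
  rw [pow_one] at hu
  obtain ⟨d, hd⟩ := hu.exists_right_inv
  set y0 := -x ^ 3 * d with hy0
  set r := -(x ^ 2 * y ^ 2 + x ^ 4 * y ^ 3) * d with hr
  have hy : y = y0 + 4 * r := by
    rw [hy0, hr]
    linear_combination d * h1 - y * hd
  have e1 : 4 * y ^ 2 = 4 * y0 ^ 2 := by
    rw [hy]
    linear_combination (2 * y0 * r + 4 * r ^ 2) * h16
  have e2' : 4 * y ^ 3 = 4 * y0 ^ 3 := by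
    rw [hy]
    linear_combination (3 * y0 ^ 2 * r + 12 * y0 * r ^ 2 + 16 * r ^ 3) * h16
  have e3 : (1 + x ^ 5) * y0 = -x ^ 3 := by
    rw [hy0]
    linear_combination (-x ^ 3) * hd
  have hY : y * (1 + x ^ 5) ^ 4 = ev Yh x := by
    have e4 : y * (1 + x ^ 5) ^ 4 = -x ^ 3 * (1 + x ^ 5) ^ 3
        - x ^ 2 * (4 * y0 ^ 2) * (1 + x ^ 5) ^ 3 - x ^ 4 * (4 * y0 ^ 3) * (1 + x ^ 5) ^ 3 := by
      linear_combination (1 + x ^ 5) ^ 3 * h1 - (1 + x ^ 5) ^ 3 * x ^ 2 * e1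
        - (1 + x ^ 5) ^ 3 * x ^ 4 * e2'
    have e5' : y * (1 + x ^ 5) ^ 4 = -x ^ 3 * (1 + x ^ 5) ^ 3
        - 4 * x ^ 2 * (1 + x ^ 5) * ((1 + x ^ 5) * y0) ^ 2 - 4 * x ^ 4 * ((1 + x ^ 5) * y0) ^ 3 := by
      rw [e4]
      ring
    rw [e5', e3]
    simp [Yh]
    linear_combination (-(x ^ 3 + x ^ 8 + x ^ 13 + x ^ 18)) * h16
  refine ⟨hY, ?_⟩
  have hw : IsUnit (1 + 2 * x ^ 2 * y) := by
    apply isUnit_of_constCoeff
    simp [hx]
  have hcan := hw.mul (one_add_pow_unit hx 4)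
  refine hcan.mul_left_cancel ?_
  have h : eqL 16 (mulL 16 (addL 16 Deh (mulL 16 [0, 0, 2] Yh)) c0h)
      (mulL 16 [0, 1] (mulL 16 Deh Deh)) = true := by decide +kernel
  have h3 := ev_eqL hn h x
  rw [ev_mulL hn, ev_addL hn, ev_mulL hn, ev_mulL hn, ev_mulL hn] at h3
  have hDe : ev Deh x = (1 + x ^ 5) ^ 4 := by
    simp [Deh]
    ring
  have e6 : ev [0, 0, 2] x = 2 * x ^ 2 := by
    simp
    ring
  have e7 : ev [0, 1] x = x := by simp
  rw [hDe, e6, e7, ← hY] at h3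
  calc (1 + 2 * x ^ 2 * y) * (1 + x ^ 5) ^ 4 * (m * (1 + x ^ 5) ^ 4)
      = (m * (1 + 2 * x ^ 2 * y)) * ((1 + x ^ 5) ^ 4 * (1 + x ^ 5) ^ 4) := by ring
    _ = x * ((1 + x ^ 5) ^ 4 * (1 + x ^ 5) ^ 4) := by rw [h2]
    _ = _ := by
      rw [← h3]
      ring

theorem y : S_Y := by
  intro hT hR hyp
  obtain ⟨h1, h2, h3⟩ := hyp
  set yy := U 2 xq with hyy
  set v := V xq with hv
  set m := X * v ^ 2 - yy ^ 2 with hm
  have hred : ∀ n : ℕ, ((16 : ℕ) : (ZMod n)⟦X⟧) = 0 →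
      red n yy * (1 + red n xq ^ 5) ^ 4 = ev Yh (red n xq) ∧
      red n m * (1 + red n xq ^ 5) ^ 4 = ev c0h (red n xq) := by
    intro n hn
    refine ysolve hn _ _ _ (const_xr n) ?_ ?_
    · have := congrArg (red n) h3
      simp only [map_mul, map_add, map_pow, map_one, map_zero, map_ofNat] at this
      exact this
    · have := congrArg (red n) h2
      simp only [map_mul, map_add, map_pow, map_one, map_ofNat] at this
      exact this
  have hn16 : ((16 : ℕ) : (ZMod 16)⟦X⟧) = 0 := cast_n_zero 16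
  have hn8 : ((8 : ℕ) : (ZMod 8)⟦X⟧) = 0 := cast_n_zero 8
  have hn8' : ((16 : ℕ) : (ZMod 8)⟦X⟧) = 0 := by
    have : ((16 : ℕ) : (ZMod 8)⟦X⟧) = ((8 : ℕ) : (ZMod 8)⟦X⟧) * 2 := by norm_num
    rw [this, hn8, zero_mul]
  obtain ⟨y16, m16⟩ := hred 16 hn16
  obtain ⟨y8, m8⟩ := hred 8 hn8'
  have he2 : ∀ (n : ℕ) (F : ℤ⟦X⟧), red n (e2 F) = e2 (red n F) := fun n F =>
    map_expand 2 two_ne_zero _ _
  have hm2 : ∀ (n : ℕ) (l : List ℕ) (x : (ZMod n)⟦X⟧), ev l (e2 x) = e2 (ev l x) := fun n l x =>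
    (map_ev (e2 (R := ZMod n)).toRingHom l x).symm
  have hq : ∀ n : ℕ, red n xq ^ 2 = 2 * e2 (red n yy) * red n xq + e2 (red n m) := by
    intro n
    have := congrArg (red n) h1
    simp only [map_mul, map_add, map_pow, map_ofNat, he2] at this
    exact this
  refine ⟨?_, y16, ?_, ?_, ?_⟩
  · rw [y8]
    exact ev_eqL hn8 (by decide +kernel) _
  · -- kappa
    have hk : red 16 (X * v ^ 2) = red 16 m + red 16 yy ^ 2 := by
      rw [hm, map_sub, map_pow (red 16) yy]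
      ring
    refine (one_add_pow_unit (const_xr 16) 3).mul_right_cancel ?_
    have h : eqL 16 (mulL 16 Kl (powL 16 [1, 0, 0, 0, 0, 1] 3))
        (addL 16 (mulL 16 c0h Deh) (mulL 16 Yh Yh)) = true := by decide +kernel
    have h4 := ev_eqL hn16 h (red 16 xq)
    rw [ev_mulL hn16, ev_powL hn16, ev_addL hn16, ev_mulL hn16, ev_mulL hn16, ← m16, ← y16] at h4
    have e6 : ev [1, 0, 0, 0, 0, 1] (red 16 xq) = 1 + red 16 xq ^ 5 := by
      simp
      ring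
    have hDe : ev Deh (red 16 xq) = (1 + red 16 xq ^ 5) ^ 4 := by
      simp [Deh]
      ring
    rw [e6, hDe] at h4
    rw [h4, hk]
    ring
  · -- modulo 8
    have hu : IsUnit (e2 ((1 + red 8 xq ^ 5) ^ 2)) := by
      apply isUnit_of_constCoeff
      rw [constantCoeff_expand]
      simp [const_xr 8]
    refine hu.mul_right_cancel ?_
    have hDe : ev De8 (red 8 xq) = (1 + red 8 xq ^ 5) ^ 2 := by
      simp [De8]
      ring
    have ha : eqL 8 (mulL 8 c18 De8) (smulL 8 2 Yh) = true := by decide +kernel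
    have hb : eqL 8 (mulL 8 c08 De8) c0h = true := by decide +kernel
    have ha' := ev_eqL hn8 ha (red 8 xq)
    have hb' := ev_eqL hn8 hb (red 8 xq)
    rw [ev_mulL hn8, ev_smulL hn8, hDe, ← y8] at ha'
    rw [ev_mulL hn8, hDe, ← m8] at hb'
    have ha2 := congrArg (e2 (R := ZMod 8)) ha'
    have hb2 := congrArg (e2 (R := ZMod 8)) hb'
    rw [map_mul] at ha2 hb2
    have hc2 : e2 (((2 : ℕ) : (ZMod 8)⟦X⟧) * (red 8 yy * (1 + red 8 xq ^ 5) ^ 4))
        = 2 * (e2 (red 8 yy) * e2 ((1 + red 8 xq ^ 5) ^ 4)) := by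
      push_cast
      simp only [map_mul, map_ofNat]
    have hd2 : e2 ((1 + red 8 xq ^ 5) ^ 4) = e2 ((1 + red 8 xq ^ 5) ^ 2) ^ 2 := by
      have e : (1 + red 8 xq ^ 5) ^ 4 = ((1 + red 8 xq ^ 5) ^ 2) ^ 2 := by ring
      rw [e, map_pow (e2 (R := ZMod 8)) ((1 + red 8 xq ^ 5) ^ 2) 2]
    rw [hc2, hd2] at ha2
    rw [map_mul, hd2] at hb2
    rw [hm2, hm2, hm2, hDe, hq 8]
    linear_combination (-red 8 xq) * ha2 - hb2
  · have hDe : ev Deh (red 16 xq) = (1 + red 16 xq ^ 5) ^ 4 := by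
      simp [Deh]
      ring
    have ha : eqL 16 c1h (smulL 16 2 Yh) = true := by decide +kernel
    have ha' := ev_eqL hn16 ha (red 16 xq)
    rw [ev_smulL hn16, ← y16] at ha'
    rw [hm2, hm2, hm2, hDe, hq 16, ha', ← m16]
    simp only [map_mul, map_pow, map_add, map_one]
    push_cast
    simp only [map_ofNat]
    ring

end Q201.RC
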